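import Pool.Agent.J4.H67.PC.RM

/-!
The cluster of the origin, and the mass transport between the two-point function and the
spectral densities of the clusters.
-/

set_option autoImplicit false
set_option linter.deprecated false

namespace Pool.Agent.J4.H67.PC

open MeasureTheory Filter Topology
open Pool.Agent.Results.MP_54f242_pr.InfraredMean

variable {d : ℕ}

/-- the cluster of the origin -/
def cl (ω : (Fin d → ℤ) × Fin d → Bool) : Set (Fin d → ℤ) := {x | (opn ω).Reachable 0 x}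

open Classical in
/-- the cluster of the origin as a finite set (empty if the cluster is infinite) -/
noncomputable def cf (ω : (Fin d → ℤ) × Fin d → Bool) : Finset (Fin d → ℤ) :=
  if h : (cl ω).Finite then h.toFinset else ∅

theorem mem_cf (ω : (Fin d → ℤ) × Fin d → Bool) (x : Fin d → ℤ) :
    x ∈ cf ω ↔ (cl ω).Finite ∧ x ∈ cl ω := by
  unfold cf
  split_ifs with h
  · simp [h]
  · simp [h]

theorem zero_mem_cl (ω : (Fin d → ℤ) × Fin d → Bool) : (0 : Fin d → ℤ) ∈ cl ω :=
  SimpleGraph.Reachable.refl _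

theorem coe_cf {ω : (Fin d → ℤ) × Fin d → Bool} (h : (cl ω).Finite) : (cf ω : Set (Fin d → ℤ)) = cl ω := by
  ext x
  rw [Finset.mem_coe, mem_cf]
  exact ⟨fun h => h.2, fun hx => ⟨h, hx⟩⟩

theorem meas_cl : Measurable (cl (d := d)) :=
  measurable_set_iff.2 fun x => measurableSet_setOfPred.1 (meas_reach 0 x)

theorem meas_fin : MeasurableSet {ω : (Fin d → ℤ) × Fin d → Bool | (cl ω).Finite} :=
  meas_cl MeasurableSet.setOfPred_finite

theorem meas_cf : Measurable (cf (d := d)) := by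
  refine measurable_finset_iff.2 fun x => ?_
  have : (fun ω => x ∈ cf (d := d) ω) = fun ω => (cl ω).Finite ∧ x ∈ cl ω :=
    funext fun ω => propext (mem_cf ω x)
  rw [this]
  exact (measurableSet_setOfPred.1 meas_fin).and (measurableSet_setOfPred.1 (meas_reach 0 x))

/-- the shift of the configuration -/
def shift (u : Fin d → ℤ) (ω : (Fin d → ℤ) × Fin d → Bool) : (Fin d → ℤ) × Fin d → Bool :=
  fun e => ω (sh u e)

theorem meas_shift (u : Fin d → ℤ) : Measurable (shift u) :=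
  measurable_pi_iff.2 fun _ => measurable_pi_apply _

theorem map_shift (p : NNReal) (hp : p ≤ 1) (u : Fin d → ℤ) : (P d p hp).map (shift u) = P d p hp :=
  MeasureTheory.Measure.map_infinitePi_infinitePi_of_inj (sh u).injective

theorem shift_reach (u : Fin d → ℤ) (ω : (Fin d → ℤ) × Fin d → Bool) (a b : Fin d → ℤ) :
    (opn (shift u ω)).Reachable a b ↔ (opn ω).Reachable (a + u) (b + u) := by
  have hadj : ∀ a b, (opn (shift u ω)).Adj a b ↔ (opn ω).Adj (a + u) (b + u) := by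
    intro a b
    have e1 : ∀ (i : Fin d) (x y : Fin d → ℤ),
        (y + u = x + u + Pi.single i (1 : ℤ)) ↔ (y = x + Pi.single i (1 : ℤ)) := by
      intro i x y
      rw [add_right_comm, add_left_inj]
    simp only [opn, SimpleGraph.fromRel_adj, shift, sh, e1]
    simp
  let φ : opn (shift u ω) ≃g opn ω := ⟨Equiv.addRight u, fun {a b} => (hadj a b).symm⟩
  exact (SimpleGraph.Iso.reachable_iff (φ := φ) (u := a) (v := b)).symm

theorem cl_shift {u : Fin d → ℤ} {ω : (Fin d → ℤ) × Fin d → Bool} (h : u ∈ cl ω) (x : Fin d → ℤ) :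
    x ∈ cl (shift u ω) ↔ x + u ∈ cl ω := by
  show (opn (shift u ω)).Reachable 0 x ↔ (opn ω).Reachable 0 (x + u)
  rw [shift_reach, zero_add]
  exact ⟨fun h1 => SimpleGraph.Reachable.trans h h1, fun h1 => SimpleGraph.Reachable.trans h.symm h1⟩

theorem cl_shift_image {u : Fin d → ℤ} {ω : (Fin d → ℤ) × Fin d → Bool} (h : u ∈ cl ω) :
    cl ω = (fun x => x + u) '' cl (shift u ω) := by
  ext x
  constructor
  · intro hx
    exact ⟨x - u, (cl_shift h _).2 (by rwa [sub_add_cancel]), by simp⟩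
  · rintro ⟨y, hy, rfl⟩
    exact (cl_shift h y).1 hy

theorem cf_shift {u : Fin d → ℤ} {ω : (Fin d → ℤ) × Fin d → Bool} (h : u ∈ cl ω) :
    cf ω = (cf (shift u ω)).map (addRightEmbedding u) := by
  have hfin : (cl ω).Finite ↔ (cl (shift u ω)).Finite := by
    rw [cl_shift_image h]
    exact Set.finite_image_iff (add_left_injective u).injOn
  ext x
  simp only [Finset.mem_map, mem_cf, addRightEmbedding_apply]
  rw [hfin]
  constructor
  · rintro ⟨h1, hx⟩
    exact ⟨x - u, ⟨h1, (cl_shift h _).2 (by rwa [sub_add_cancel])⟩, by simp⟩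
  · rintro ⟨y, ⟨h1, hy⟩, rfl⟩
    exact ⟨h1, (cl_shift h y).1 hy⟩

open Classical in
/-- the mass sent between two points of the cluster -/
noncomputable def Hm (x y : Fin d → ℤ) (ω : (Fin d → ℤ) × Fin d → Bool) : ℝ :=
  if x ∈ cf ω ∧ y ∈ cf ω then 1 / (cf ω).card else 0

theorem Hm_shift (x y : Fin d → ℤ) (ω : (Fin d → ℤ) × Fin d → Bool) :
    Hm x y ω = Hm (-x) (y - x) (shift x ω) := by
  classical
  by_cases hx : x ∈ cl ω
  · have h1 := cf_shift hx
    have h2 : (cf ω).card = (cf (shift x ω)).card := by rw [h1, Finset.card_map]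
    have h3 : ∀ z, z ∈ cf ω ↔ z - x ∈ cf (shift x ω) := by
      intro z
      rw [h1, Finset.mem_map]
      simp only [addRightEmbedding_apply]
      constructor
      · rintro ⟨w, hw, rfl⟩; simpa using hw
      · intro hz; exact ⟨z - x, hz, by simp⟩
    have h4 : x ∈ cf ω ↔ -x ∈ cf (shift x ω) := by
      have h5 : x ∈ cf ω ↔ (0 : Fin d → ℤ) ∈ cf ω := by
        rw [mem_cf, mem_cf]
        exact ⟨fun h => ⟨h.1, zero_mem_cl ω⟩, fun h => ⟨h.1, hx⟩⟩
      rw [h5, h3 0, zero_sub]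
    unfold Hm
    rw [h2]
    simp only [h4, h3 y]
  · have h1 : x ∉ cf ω := fun h => hx ((mem_cf _ _).1 h).2
    have h2 : -x ∉ cf (shift x ω) := by
      intro h
      have h3 := ((mem_cf _ _).1 h).2
      have h4 : (opn ω).Reachable (0 + x) (-x + x) := (shift_reach x ω 0 (-x)).1 h3
      rw [zero_add, neg_add_cancel] at h4
      exact hx h4.symm
    unfold Hm
    rw [if_neg (fun h => h1 h.1), if_neg (fun h => h2 h.1)]

theorem Hm_nonneg (x y : Fin d → ℤ) (ω : (Fin d → ℤ) × Fin d → Bool) : 0 ≤ Hm x y ω := by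
  unfold Hm
  split_ifs <;> positivity

theorem Hm_le (x y : Fin d → ℤ) (ω : (Fin d → ℤ) × Fin d → Bool) : Hm x y ω ≤ 1 := by
  unfold Hm
  split_ifs with h
  · have : (1 : ℝ) ≤ (cf ω).card := by
      exact_mod_cast Finset.card_pos.2 ⟨x, h.1⟩
    exact div_le_one_of_le₀ this (by linarith)
  · norm_num

open Classical in
theorem Hm_meas (x y : Fin d → ℤ) : Measurable (Hm x y) := by
  have : Hm x y = (fun A : Finset (Fin d → ℤ) => if x ∈ A ∧ y ∈ A then (1 : ℝ) / A.card else 0) ∘ cf :=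
    rfl
  rw [this]
  exact (measurable_of_countable _).comp meas_cf

theorem Hm_int (x y : Fin d → ℤ) (μ : Measure ((Fin d → ℤ) × Fin d → Bool)) [IsFiniteMeasure μ] :
    Integrable (Hm x y) μ :=
  Integrable.of_bound (Hm_meas x y).aestronglyMeasurable 1 (Eventually.of_forall fun ω => by
    rw [Real.norm_eq_abs, abs_of_nonneg (Hm_nonneg x y ω)]
    exact Hm_le x y ω)

theorem int_Hm_shift (p : NNReal) (hp : p ≤ 1) (x y : Fin d → ℤ) :
    ∫ ω, Hm x y ω ∂(P d p hp) = ∫ ω, Hm (-x) (y - x) ω ∂(P d p hp) := by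
  simp_rw [Hm_shift x y]
  conv_rhs => rw [← map_shift p hp x]
  rw [integral_map (meas_shift x).aemeasurable (Hm_meas _ _).aestronglyMeasurable]

/-- the sum of the masses over the pairs -/
theorem tsum_Hm (ω : (Fin d → ℤ) × Fin d → Bool) (c : (Fin d → ℤ) → (Fin d → ℤ) → ℝ) :
    HasSum (fun z : (Fin d → ℤ) × (Fin d → ℤ) => Hm z.1 z.2 ω * c z.1 z.2)
      (∑ x ∈ cf ω, ∑ y ∈ cf ω, c x y / (cf ω).card) := by
  classical
  have h1 : ∑ x ∈ cf ω, ∑ y ∈ cf ω, c x y / (cf ω).card =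
      ∑ z ∈ cf ω ×ˢ cf ω, Hm z.1 z.2 ω * c z.1 z.2 := by
    rw [Finset.sum_product]
    refine Finset.sum_congr rfl fun x hx => Finset.sum_congr rfl fun y hy => ?_
    simp only [Hm, if_pos (And.intro hx hy)]
    ring
  rw [h1]
  refine hasSum_sum_of_ne_finset_zero fun z hz => ?_
  have : ¬ (z.1 ∈ cf ω ∧ z.2 ∈ cf ω) := by rwa [Finset.mem_product] at hz
  simp only [Hm, if_neg this, zero_mul]

theorem card_meas : Measurable (fun ω : (Fin d → ℤ) × Fin d → Bool => ((cf ω).card : ℝ)) :=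
  (measurable_of_countable (fun A : Finset (Fin d → ℤ) => (A.card : ℝ))).comp meas_cf

theorem lint_card (p : NNReal) (hp : p ≤ 1) : ∫⁻ ω, ((cf ω).card : ENNReal) ∂(P d p hp) =
    ∑' x, P d p hp {ω | x ∈ cf ω} := by
  classical
  have h1 : ∀ ω : (Fin d → ℤ) × Fin d → Bool, ((cf ω).card : ENNReal) =
      ∑' x, Set.indicator {ω | x ∈ cf ω} (fun _ => (1 : ENNReal)) ω := by
    intro ω
    rw [tsum_eq_sum (s := cf ω)]
    · rw [Finset.sum_congr rfl (g := fun _ => (1 : ENNReal))]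
      · simp
      · intro x hx
        rw [Set.indicator_of_mem]
        exact hx
    · intro x hx
      rw [Set.indicator_of_notMem]
      exact hx
  simp_rw [h1]
  have hm : ∀ x : Fin d → ℤ, MeasurableSet {ω : (Fin d → ℤ) × Fin d → Bool | x ∈ cf ω} := fun x =>
    meas_cf (measurableSet_mem_finset x)
  rw [lintegral_tsum (fun x => (measurable_const.indicator (hm x)).aemeasurable)]
  refine tsum_congr fun x => ?_
  rw [lintegral_indicator (hm x)]
  simp

theorem mem_cf_meas (x : Fin d → ℤ) : MeasurableSet {ω : (Fin d → ℤ) × Fin d → Bool | x ∈ cf ω} :=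
  meas_cf (measurableSet_mem_finset x)

/-- at finite susceptibility the clusters are finite -/
theorem ae_fin (p : NNReal) (hp : p ≤ 1) (hs : Summable (tau d p hp)) :
    ∀ᵐ ω ∂(P d p hp), (cl ω).Finite := by
  have h1 : ∑' x : Fin d → ℤ, P d p hp {ω | (opn ω).Reachable 0 x} ≠ ⊤ := by
    have h2 : ∀ x : Fin d → ℤ, P d p hp {ω | (opn ω).Reachable 0 x} =
        ENNReal.ofReal (tau d p hp x) := fun x => by
      unfold tau
      rw [ENNReal.ofReal_toReal (measure_ne_top _ _)]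
    simp_rw [h2]
    rw [← ENNReal.ofReal_tsum_of_nonneg (fun x => tau_nonneg p hp x) hs]
    exact ENNReal.ofReal_ne_top
  filter_upwards [ae_finite_setOf_mem h1] with ω hω
  exact hω

/-- `P_p(0 ↔ x)` with a finite cluster -/
noncomputable def tauf (d : ℕ) (p : NNReal) (hp : p ≤ 1) (x : Fin d → ℤ) : ℝ :=
  (P d p hp {ω | (cl ω).Finite ∧ (opn ω).Reachable 0 x}).toReal

theorem tauf_eq' (p : NNReal) (hp : p ≤ 1) (x : Fin d → ℤ) :
    tauf d p hp x = (P d p hp {ω | x ∈ cf ω}).toReal := by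
  unfold tauf
  congr 2
  ext ω
  exact (mem_cf ω x).symm

theorem tauf_eq (p : NNReal) (hp : p ≤ 1) (hf : ∀ᵐ ω ∂(P d p hp), (cl ω).Finite) (x : Fin d → ℤ) :
    tauf d p hp x = tau d p hp x := by
  unfold tauf tau
  congr 1
  refine measure_congr ?_
  filter_upwards [hf] with ω hω
  refine propext ⟨fun h => h.2, fun h => ⟨hω, h⟩⟩

theorem tauf_le (p : NNReal) (hp : p ≤ 1) (x : Fin d → ℤ) : tauf d p hp x ≤ tau d p hp x := by
  unfold tauf tau
  exact ENNReal.toReal_mono (measure_ne_top _ _) (measure_mono fun ω h => h.2)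

theorem tauf_nonneg (p : NNReal) (hp : p ≤ 1) (x : Fin d → ℤ) : 0 ≤ tauf d p hp x :=
  ENNReal.toReal_nonneg

theorem card_int (p : NNReal) (hp : p ≤ 1) (hs : Summable (tauf d p hp)) :
    Integrable (fun ω => ((cf ω).card : ℝ)) (P d p hp) ∧
      ∫ ω, ((cf ω).card : ℝ) ∂(P d p hp) = ∑' x, tauf d p hp x := by
  have h1 : ∫⁻ ω, ENNReal.ofReal ((cf ω).card : ℝ) ∂(P d p hp) = ENNReal.ofReal (∑' x, tauf d p hp x) := by
    simp_rw [ENNReal.ofReal_natCast]
    rw [lint_card, ENNReal.ofReal_tsum_of_nonneg (fun x => tauf_nonneg p hp x) hs]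
    refine tsum_congr fun x => ?_
    rw [tauf_eq', ENNReal.ofReal_toReal (measure_ne_top _ _)]
  have h0 : 0 ≤ᵐ[P d p hp] fun ω => ((cf ω).card : ℝ) := Eventually.of_forall fun ω => Nat.cast_nonneg _
  constructor
  · refine ⟨card_meas.aestronglyMeasurable, ?_⟩
    rw [hasFiniteIntegral_iff_ofReal h0, h1]
    exact ENNReal.ofReal_lt_top
  · rw [integral_eq_lintegral_of_nonneg_ae h0 card_meas.aestronglyMeasurable, h1,
      ENNReal.toReal_ofReal (tsum_nonneg fun x => tauf_nonneg p hp x)]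

theorem Hm_summable (p : NNReal) (hp : p ≤ 1) (hs : Summable (tauf d p hp)) :
    Summable fun z : (Fin d → ℤ) × (Fin d → ℤ) => ∫ ω, Hm z.1 z.2 ω ∂(P d p hp) := by
  obtain ⟨hi, -⟩ := card_int p hp hs
  refine summable_of_sum_le (c := ∫ ω, ((cf ω).card : ℝ) ∂(P d p hp))
    (fun z => integral_nonneg fun ω => Hm_nonneg _ _ ω) fun s => ?_
  rw [← integral_finset_sum _ (fun z _ => Hm_int _ _ _)]
  refine integral_mono (integrable_finset_sum _ fun z _ => Hm_int _ _ _) hi fun ω => ?_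
  have h := tsum_Hm ω (fun _ _ => 1)
  simp only [mul_one] at h
  have h2 : ∑ x ∈ cf ω, ∑ y ∈ cf ω, 1 / ((cf ω).card : ℝ) = (cf ω).card := by
    rw [Finset.sum_const, Finset.sum_const, nsmul_eq_mul, nsmul_eq_mul]
    rcases Nat.eq_zero_or_pos (cf ω).card with h0 | h0
    · rw [h0]; simp
    · have : ((cf ω).card : ℝ) ≠ 0 := by positivity
      field_simp
  rw [h2] at h
  exact sum_le_hasSum s (fun z _ => Hm_nonneg _ _ ω) h

/-- the mass transport -/
theorem transport (p : NNReal) (hp : p ≤ 1) (hs : Summable (tauf d p hp)) (c : (Fin d → ℤ) → ℝ)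
    (hc : ∀ z, |c z| ≤ 1) :
    ∫ ω, ∑ x ∈ cf ω, ∑ y ∈ cf ω, c (y - x) / (cf ω).card ∂(P d p hp) =
      ∑' z, tauf d p hp z * c z := by
  classical
  have hS := Hm_summable p hp hs
  -- general form
  have key : ∀ g : (Fin d → ℤ) → (Fin d → ℤ) → ℝ, (∀ x y, |g x y| ≤ 1) →
      ∫ ω, ∑ x ∈ cf ω, ∑ y ∈ cf ω, g x y / (cf ω).card ∂(P d p hp) =
        ∑' z : (Fin d → ℤ) × (Fin d → ℤ), (∫ ω, Hm z.1 z.2 ω ∂(P d p hp)) * g z.1 z.2 := by
    intro g hg
    have h1 : ∀ ω : (Fin d → ℤ) × Fin d → Bool, ∑ x ∈ cf ω, ∑ y ∈ cf ω, g x y / (cf ω).card =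
        ∑' z : (Fin d → ℤ) × (Fin d → ℤ), Hm z.1 z.2 ω * g z.1 z.2 := fun ω =>
      (tsum_Hm ω g).tsum_eq.symm
    simp_rw [h1]
    rw [← integral_tsum_of_summable_integral_norm]
    · refine tsum_congr fun z => ?_
      rw [integral_mul_const]
    · intro z
      exact (Hm_int _ _ _).mul_const _
    · refine Summable.of_nonneg_of_le (fun z => integral_nonneg fun ω => norm_nonneg _)
        (fun z => ?_) hS
      refine integral_mono ((Hm_int _ _ _).mul_const _).norm (Hm_int _ _ _) fun ω => ?_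
      show ‖Hm z.1 z.2 ω * g z.1 z.2‖ ≤ Hm z.1 z.2 ω
      rw [norm_mul, Real.norm_eq_abs, Real.norm_eq_abs, abs_of_nonneg (Hm_nonneg _ _ _)]
      exact mul_le_of_le_one_right (Hm_nonneg _ _ _) (hg _ _)
  rw [key (fun x y => c (y - x)) (fun x y => hc _)]
  -- the change of variables
  let E : (Fin d → ℤ) × (Fin d → ℤ) ≃ (Fin d → ℤ) × (Fin d → ℤ) :=
    { toFun := fun z => (-z.1, z.2 - z.1)
      invFun := fun z => (-z.1, z.2 - z.1)
      left_inv := fun z => by simp
      right_inv := fun z => by simp }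
  have h2 : ∀ z : (Fin d → ℤ) × (Fin d → ℤ), (∫ ω, Hm z.1 z.2 ω ∂(P d p hp)) * c (z.2 - z.1) =
      (fun z : (Fin d → ℤ) × (Fin d → ℤ) => (∫ ω, Hm z.1 z.2 ω ∂(P d p hp)) * c z.2) (E z) := by
    intro z
    show _ = (∫ ω, Hm (-z.1) (z.2 - z.1) ω ∂(P d p hp)) * c (z.2 - z.1)
    rw [int_Hm_shift]
  simp_rw [h2]
  rw [Equiv.tsum_eq E (fun z : (Fin d → ℤ) × (Fin d → ℤ) =>
    (∫ ω, Hm z.1 z.2 ω ∂(P d p hp)) * c z.2), ← key (fun _ z => c z) (fun _ z => hc z)]
  -- the sum over the cluster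
  have h3 : ∀ ω : (Fin d → ℤ) × Fin d → Bool, ∑ x ∈ cf ω, ∑ y ∈ cf ω, c y / (cf ω).card =
      ∑' z, Set.indicator {ω | z ∈ cf ω} (fun _ => c z) ω := by
    intro ω
    rw [tsum_eq_sum (s := cf ω)]
    · rw [Finset.sum_const, nsmul_eq_mul, ← Finset.sum_div]
      rcases Nat.eq_zero_or_pos (cf ω).card with h0 | h0
      · rw [Finset.card_eq_zero] at h0
        rw [h0]; simp
      · have : ((cf ω).card : ℝ) ≠ 0 := by positivity
        rw [mul_div_cancel₀ _ this]
        refine Finset.sum_congr rfl fun x hx => ?_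
        rw [Set.indicator_of_mem]
        exact hx
    · intro x hx
      rw [Set.indicator_of_notMem]
      exact hx
  simp_rw [h3]
  have h4 : ∀ z, ∫ ω, Set.indicator {ω | z ∈ cf ω} (fun _ => c z) ω ∂(P d p hp) =
      tauf d p hp z * c z := by
    intro z
    rw [integral_indicator_const _ (mem_cf_meas z), tauf_eq', smul_eq_mul]
    rfl
  rw [← integral_tsum_of_summable_integral_norm]
  · exact tsum_congr h4
  · intro z
    exact (integrable_const _).indicator (mem_cf_meas z)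
  · refine Summable.of_nonneg_of_le (fun z => integral_nonneg fun ω => norm_nonneg _)
      (fun z => ?_) hs
    have h5 : ∀ ω : (Fin d → ℤ) × Fin d → Bool, ‖Set.indicator {ω | z ∈ cf ω} (fun _ => c z) ω‖ =
        Set.indicator {ω | z ∈ cf ω} (fun _ => |c z|) ω := by
      intro ω
      rw [norm_indicator_eq_indicator_norm]
      rfl
    simp_rw [h5]
    rw [integral_indicator_const _ (mem_cf_meas z), smul_eq_mul, tauf_eq']
    exact mul_le_of_le_one_right ENNReal.toReal_nonneg (hc z)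

/-- the spectral density: `E_p[|∑_{x ∈ C} e^{i k x}|² / |C|]`, over the finite clusters `C` of the origin -/
noncomputable def dens (d : ℕ) (p : NNReal) (hp : p ≤ 1) (k : Fin d → ℝ) : ENNReal :=
  ∫⁻ ω, ENNReal.ofReal (ps (cf ω) k / (cf ω).card) ∂(P d p hp)

theorem ps_div_le (A : Finset (Fin d → ℤ)) (k : Fin d → ℝ) : ps A k / A.card ≤ A.card := by
  rcases Nat.eq_zero_or_pos A.card with h0 | h0
  · rw [h0]; simp
  · have h1 : (0 : ℝ) < A.card := by exact_mod_cast h0
    rw [div_le_iff₀ h1, ps_eq]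
    calc ∑ x ∈ A, ∑ y ∈ A, Real.cos (dot k (y - x)) ≤ ∑ x ∈ A, ∑ y ∈ A, (1 : ℝ) :=
          Finset.sum_le_sum fun x _ => Finset.sum_le_sum fun y _ => Real.cos_le_one _
      _ = A.card * A.card := by simp

theorem ps_div_meas (k : Fin d → ℝ) :
    Measurable fun ω : (Fin d → ℤ) × Fin d → Bool => ps (cf ω) k / (cf ω).card :=
  (measurable_of_countable (fun A : Finset (Fin d → ℤ) => ps A k / (A.card : ℝ))).comp meas_cf

theorem ps_div_nonneg (A : Finset (Fin d → ℤ)) (k : Fin d → ℝ) : 0 ≤ ps A k / A.card :=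
  div_nonneg (ps_nonneg A k) (Nat.cast_nonneg _)

/-- the spectral density is the Fourier transform of the (truncated) two-point function -/
theorem dens_eq_f (p : NNReal) (hp : p ≤ 1) (hs : Summable (tauf d p hp)) (k : Fin d → ℝ) :
    dens d p hp k = ENNReal.ofReal (∑' x, tauf d p hp x * Real.cos (dot k x)) := by
  rw [← transport p hp hs (fun z => Real.cos (dot k z)) (fun z => Real.abs_cos_le_one _)]
  have h1 : ∀ ω : (Fin d → ℤ) × Fin d → Bool,
      ∑ x ∈ cf ω, ∑ y ∈ cf ω, Real.cos (dot k (y - x)) / (cf ω).card =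
        ps (cf ω) k / (cf ω).card := by
    intro ω
    simp_rw [← Finset.sum_div]
    rw [ps_eq]
  simp_rw [h1]
  have hi : Integrable (fun ω => ps (cf ω) k / (cf ω).card) (P d p hp) := by
    refine Integrable.mono' (card_int p hp hs).1 (ps_div_meas k).aestronglyMeasurable
      (Eventually.of_forall fun ω => ?_)
    rw [Real.norm_eq_abs, abs_of_nonneg (ps_div_nonneg _ _)]
    exact ps_div_le _ _
  rw [ofReal_integral_eq_lintegral_ofReal hi (Eventually.of_forall fun ω => ps_div_nonneg _ _)]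
  rfl

theorem dens_eq (p : NNReal) (hp : p ≤ 1) (hs : Summable (tau d p hp)) (k : Fin d → ℝ) :
    dens d p hp k = ENNReal.ofReal (∑' x, tau d p hp x * Real.cos (dot k x)) := by
  have h1 := tauf_eq p hp (ae_fin p hp hs)
  have h2 : tauf d p hp = tau d p hp := funext h1
  rw [dens_eq_f p hp (by rw [h2]; exact hs), h2]

end Pool.Agent.J4.H67.PC
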