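import Pool.Agent.J4.H67.PC.Cl

/-!
The coupling of the parameters, and the maximal inequality for the spectral densities.
-/

set_option autoImplicit false
set_option linter.deprecated false

namespace Pool.Agent.J4.H67.PC

open MeasureTheory Filter Topology
open Pool.Agent.Results.MP_54f242_pr.InfraredMean

variable {d : ℕ}

/-- independent uniform labels -/
noncomputable def LU (d : ℕ) : Measure ((Fin d → ℤ) × Fin d → unitInterval) :=
  Measure.infinitePi (fun _ => (volume : Measure unitInterval))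

instance : IsProbabilityMeasure (LU d) := by unfold LU; infer_instance

open Classical in
/-- the bonds with a label `< q` are open -/
noncomputable def conf (q : ℝ) (U : (Fin d → ℤ) × Fin d → unitInterval) : (Fin d → ℤ) × Fin d → Bool :=
  fun e => decide ((U e : ℝ) < q)

theorem conf_true (q : ℝ) (U : (Fin d → ℤ) × Fin d → unitInterval) (e : (Fin d → ℤ) × Fin d) :
    conf q U e = true ↔ (U e : ℝ) < q := by
  unfold conf; exact decide_eq_true_iff

open Classical in
theorem meas_dec (q : ℝ) : Measurable (fun u : unitInterval => decide ((u : ℝ) < q)) := by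
  refine measurable_to_bool ?_
  have : (fun u : unitInterval => decide ((u : ℝ) < q)) ⁻¹' {true} = {u : unitInterval | (u : ℝ) < q} := by
    ext u; simp
  rw [this]
  exact measurableSet_lt measurable_subtype_coe measurable_const

theorem meas_conf (q : ℝ) : Measurable (conf (d := d) q) := by
  classical
  refine measurable_pi_iff.2 fun e => ?_
  exact (meas_dec q).comp (measurable_pi_apply e)

theorem map_conf (q : NNReal) (hq : q ≤ 1) : (LU d).map (conf q) = P d q hq := by
  classical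
  have h1 : (volume : Measure unitInterval).map (fun u : unitInterval => decide ((u : ℝ) < q)) =
      (PMF.bernoulli q hq).toMeasure := by
    have : IsProbabilityMeasure ((volume : Measure unitInterval).map
        (fun u : unitInterval => decide ((u : ℝ) < q))) :=
      Measure.isProbabilityMeasure_map (meas_dec q).aemeasurable
    refine bool_ext _ _ ?_
    rw [Measure.map_apply (meas_dec q) (MeasurableSet.singleton true), ber_true]
    have h2 : (fun u : unitInterval => decide ((u : ℝ) < q)) ⁻¹' {true} =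
        Set.Iio (⟨(q : ℝ), q.2, by exact_mod_cast hq⟩ : unitInterval) := by
      ext u; simp [← Subtype.coe_lt_coe]
    rw [h2, unitInterval.volume_Iio]
    simp
  have h3 := Measure.infinitePi_map_pi (μ := fun _ : (Fin d → ℤ) × Fin d => (volume : Measure unitInterval))
    (f := fun _ => fun u : unitInterval => decide ((u : ℝ) < q)) (fun _ => meas_dec q)
  rw [h1] at h3
  exact h3

theorem conf_mono {q q' : ℝ} (h : q ≤ q') (U : (Fin d → ℤ) × Fin d → unitInterval) :
    opn (conf q U) ≤ opn (conf q' U) :=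
  opn_mono fun _ he => (conf_true _ _ _).2 (((conf_true _ _ _).1 he).trans_le h)

theorem cl_mono {q q' : ℝ} (h : q ≤ q') (U : (Fin d → ℤ) × Fin d → unitInterval) :
    cl (conf q U) ⊆ cl (conf q' U) := fun _ hx => SimpleGraph.Reachable.mono (conf_mono h U) hx

theorem cf_mono {q q' : ℝ} (h : q ≤ q') (U : (Fin d → ℤ) × Fin d → unitInterval)
    (hf : (cl (conf q' U)).Finite) : cf (conf q U) ⊆ cf (conf q' U) := by
  intro x hx
  rw [mem_cf] at hx ⊢
  exact ⟨hf, cl_mono h U hx.2⟩

theorem reach_left {q : ℝ} {U : (Fin d → ℤ) × Fin d → unitInterval} {a b : Fin d → ℤ}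
    (h : (opn (conf q U)).Reachable a b) : ∀ᶠ r in 𝓝[<] q, (opn (conf r U)).Reachable a b := by
  obtain ⟨W⟩ := h
  induction W with
  | nil => exact Eventually.of_forall fun r => SimpleGraph.Reachable.refl _
  | @cons u v w hadj _ ih =>
    have h1 : ∀ᶠ r in 𝓝[<] q, (opn (conf r U)).Adj u v := by
      rw [opn, SimpleGraph.fromRel_adj] at hadj
      obtain ⟨hne, h2⟩ := hadj
      rcases h2 with ⟨i, h3, h4⟩ | ⟨i, h3, h4⟩
      · rw [conf_true] at h4
        filter_upwards [mem_nhdsWithin_of_mem_nhds (Ioi_mem_nhds h4)] with r hr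
        rw [opn, SimpleGraph.fromRel_adj]
        exact ⟨hne, Or.inl ⟨i, h3, (conf_true _ _ _).2 hr⟩⟩
      · rw [conf_true] at h4
        filter_upwards [mem_nhdsWithin_of_mem_nhds (Ioi_mem_nhds h4)] with r hr
        rw [opn, SimpleGraph.fromRel_adj]
        exact ⟨hne, Or.inr ⟨i, h3, (conf_true _ _ _).2 hr⟩⟩
    filter_upwards [h1, ih] with r hr1 hr2
    exact hr1.reachable.trans hr2

/-- the finite clusters are left continuous -/
theorem cl_left {q : ℝ} {U : (Fin d → ℤ) × Fin d → unitInterval} (hf : (cl (conf q U)).Finite) :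
    ∀ᶠ r in 𝓝[<] q, cl (conf r U) = cl (conf q U) := by
  have h1 : ∀ᶠ r in 𝓝[<] q, ∀ x ∈ cl (conf q U), x ∈ cl (conf r U) := by
    rw [Filter.eventually_all_finite hf]
    intro x hx
    exact reach_left hx
  filter_upwards [h1, self_mem_nhdsWithin] with r hr hrq
  exact Set.Subset.antisymm (cl_mono (le_of_lt hrq) U) hr

theorem cf_congr {ω ω' : (Fin d → ℤ) × Fin d → Bool} (h : cl ω = cl ω') : cf ω = cf ω' := by
  ext x; rw [mem_cf, mem_cf, h]

/-- the maximal inequality for a chain of finite sets -/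
theorem rm_chain (𝒱 : Set (Finset (Fin d → ℤ))) (B : Finset (Fin d → ℤ)) (h1 : ∀ V ∈ 𝒱, V ⊆ B)
    (h2 : ∀ V ∈ 𝒱, ∀ W ∈ 𝒱, V ⊆ W ∨ W ⊆ V) :
    ∃ D : (Fin d → ℝ) → ℝ, Continuous D ∧ (∀ k, 0 ≤ D k) ∧
      (∀ V ∈ 𝒱, ∀ k, ps V k / V.card ≤ D k) ∧
      ∫ k in cube d, D k ≤ (2 * Real.pi) ^ d * (2 * ((Nat.log 2 B.card + 1 : ℕ) : ℝ) ^ 3) := by
  classical
  set A : ℕ → Finset (Fin d → ℤ) := fun s =>
    (B.powerset.filter (fun V => V ∈ 𝒱 ∧ V.card ≤ s)).biUnion id with hA
  have hmem : ∀ s x, x ∈ A s ↔ ∃ V ∈ 𝒱, V.card ≤ s ∧ x ∈ V := by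
    intro s x
    simp only [hA, Finset.mem_biUnion, Finset.mem_filter, Finset.mem_powerset, id]
    constructor
    · rintro ⟨V, ⟨-, h3, h4⟩, h5⟩
      exact ⟨V, h3, h4, h5⟩
    · rintro ⟨V, h3, h4, h5⟩
      exact ⟨V, ⟨h1 V h3, h3, h4⟩, h5⟩
  have hmono : ∀ i j, i ≤ j → j ≤ B.card → A i ⊆ A j := by
    intro i j hij _ x hx
    rw [hmem] at hx ⊢
    obtain ⟨V, h3, h4, h5⟩ := hx
    exact ⟨V, h3, h4.trans hij, h5⟩
  have hself : ∀ V ∈ 𝒱, A V.card = V := by
    intro V hV
    ext x
    rw [hmem]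
    constructor
    · rintro ⟨W, h3, h4, h5⟩
      rcases h2 V hV W h3 with h6 | h6
      · rw [Finset.eq_of_subset_of_card_le h6 h4]; exact h5
      · exact h6 h5
    · intro hx
      exact ⟨V, hV, le_rfl, hx⟩
  have hB : A B.card ⊆ B := by
    intro x hx
    rw [hmem] at hx
    obtain ⟨V, h3, -, h5⟩ := hx
    exact h1 V h3 h5
  obtain ⟨D, hc, h0, hD, hI⟩ := rm A B.card hmono
  refine ⟨D, hc, h0, fun V hV k => ?_, hI.trans ?_⟩
  · have := hD V.card (Finset.card_le_card (h1 V hV)) k
    rwa [hself V hV] at this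
  · have h3 := Nat.log_mono_right (b := 2) (Finset.card_le_card hB)
    have h4 : ((Nat.log 2 (A B.card).card + 1 : ℕ) : ℝ) ≤ ((Nat.log 2 B.card + 1 : ℕ) : ℝ) := by
      exact_mod_cast (by omega)
    gcongr

/-- the value of the density at a cluster -/
noncomputable def FF (A : Finset (Fin d → ℤ)) (k : Fin d → ℝ) : ENNReal :=
  ENNReal.ofReal (ps A k / A.card)

theorem FF_empty (k : Fin d → ℝ) : FF (∅ : Finset (Fin d → ℤ)) k = 0 := by
  unfold FF; simp

theorem FF_meas (A : Finset (Fin d → ℤ)) : Measurable (FF A) := by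
  unfold FF
  exact ((ps_cont A).measurable.div_const _).ennreal_ofReal

/-- the maximal function of the clusters -/
noncomputable def SM (p : ℝ) (U : (Fin d → ℤ) × Fin d → unitInterval) (k : Fin d → ℝ) : ENNReal :=
  ⨆ r : ℚ, ⨆ _ : (r : ℝ) ≤ p, FF (cf (conf r U)) k

theorem FF_le_SM {r p : ℝ} (h : r ≤ p) (U : (Fin d → ℤ) × Fin d → unitInterval) (k : Fin d → ℝ) :
    FF (cf (conf r U)) k ≤ SM p U k := by
  by_cases hf : (cl (conf r U)).Finite
  · have h1 := cl_left hf
    obtain ⟨l, hl, h2⟩ := (mem_nhdsLT_iff_exists_Ioo_subset).1 h1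
    obtain ⟨s, hs1, hs2⟩ := exists_rat_btwn (Set.mem_Iio.1 hl)
    have h3 : cl (conf (s : ℝ) U) = cl (conf r U) := h2 ⟨hs1, hs2⟩
    rw [← cf_congr h3]
    unfold SM
    exact le_iSup₂_of_le s (hs2.le.trans h) le_rfl
  · have : cf (conf r U) = ∅ := by
      ext x
      rw [mem_cf]
      simp [hf]
    rw [this, FF_empty]
    exact zero_le

theorem mj1 : Measurable (fun z : Finset (Fin d → ℤ) × (Fin d → ℝ) => FF z.1 z.2) :=
    measurable_from_prod_countable_right fun A => FF_meas A

theorem mj2 (r : ℝ) : Measurable (fun z : ((Fin d → ℤ) × Fin d → unitInterval) × (Fin d → ℝ) =>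
      ((cf (conf r z.1), z.2) : Finset (Fin d → ℤ) × (Fin d → ℝ))) := by
    refine Measurable.prodMk ?_ measurable_snd
    exact (meas_cf.comp (meas_conf r)).comp measurable_fst


theorem mj3 (r : ℝ) : Measurable ((fun z : Finset (Fin d → ℤ) × (Fin d → ℝ) => FF z.1 z.2) ∘ 
  (fun z : ((Fin d → ℤ) × Fin d → unitInterval) × (Fin d → ℝ) =>
      ((cf (conf r z.1), z.2) : Finset (Fin d → ℤ) × (Fin d → ℝ)))) :=
  Measurable.comp mj1 (mj2 r)

theorem meas_joint (r : ℝ) : Measurable
    (fun z : ((Fin d → ℤ) × Fin d → unitInterval) × (Fin d → ℝ) => FF (cf (conf r z.1)) z.2) := by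
  have h := mj3 (d := d) r
  have e : (fun z : ((Fin d → ℤ) × Fin d → unitInterval) × (Fin d → ℝ) => FF (cf (conf r z.1)) z.2)
    = ((fun z : Finset (Fin d → ℤ) × (Fin d → ℝ) => FF z.1 z.2) ∘ 
    (fun z : ((Fin d → ℤ) × Fin d → unitInterval) × (Fin d → ℝ) =>
      ((cf (conf r z.1), z.2) : Finset (Fin d → ℤ) × (Fin d → ℝ)))) := by
    funext z
    rfl
  rw [e]
  exact h

theorem SM_meas (p : ℝ) : Measurable
    (fun z : ((Fin d → ℤ) × Fin d → unitInterval) × (Fin d → ℝ) => SM p z.1 z.2) := by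
  unfold SM
  refine Measurable.iSup fun r => Measurable.iSup fun _ => meas_joint _

/-- the density in terms of the coupling -/
theorem dens_U (q : NNReal) (hq : q ≤ 1) (k : Fin d → ℝ) :
    dens d q hq k = ∫⁻ U, FF (cf (conf q U)) k ∂(LU d) := by
  unfold dens
  rw [← map_conf q hq]
  rw [lintegral_map (ps_div_meas k).ennreal_ofReal (meas_conf q)]
  rfl

/-- the maximal function -/
noncomputable def MM (d : ℕ) (p : ℝ) (k : Fin d → ℝ) : ENNReal := ∫⁻ U, SM p U k ∂(LU d)

theorem MM_meas (p : ℝ) : Measurable (MM d p) := by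
  unfold MM
  exact (SM_meas p).lintegral_prod_left'

theorem dens_le_MM (q : NNReal) (hq : q ≤ 1) (p : ℝ) (h : (q : ℝ) ≤ p) (k : Fin d → ℝ) :
    dens d q hq k ≤ MM d p k := by
  rw [dens_U]
  exact lintegral_mono fun U => FF_le_SM h U k

open Classical in
/-- `1 + ⌊log₂ |C|⌋` for the cluster `C` of the origin (`∞` if it is infinite) -/
noncomputable def lg (ω : (Fin d → ℤ) × Fin d → Bool) : ENNReal :=
  if (cl ω).Finite then ((Nat.log 2 (cf ω).card + 1 : ℕ) : ENNReal) else ⊤

theorem lg_meas : Measurable (lg (d := d)) := by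
  classical
  unfold lg
  refine Measurable.ite meas_fin ?_ measurable_const
  exact (measurable_of_countable (fun A : Finset (Fin d → ℤ) =>
    ((Nat.log 2 A.card + 1 : ℕ) : ENNReal))).comp meas_cf

theorem int_SM (p : ℝ) (U : (Fin d → ℤ) × Fin d → unitInterval) :
    ∫⁻ k in cube d, SM p U k ≤ ENNReal.ofReal (2 * (2 * Real.pi) ^ d) * lg (conf p U) ^ 3 := by
  classical
  by_cases hf : (cl (conf p U)).Finite
  · obtain ⟨D, hc, h0, hD, hI⟩ := rm_chain {V | ∃ r : ℚ, (r : ℝ) ≤ p ∧ V = cf (conf (r : ℝ) U)}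
      (cf (conf p U)) (by
        rintro V ⟨r, hr, rfl⟩
        exact cf_mono hr U hf) (by
        rintro V ⟨r, hr, rfl⟩ W ⟨s, hs, rfl⟩
        rcases le_total (r : ℝ) s with h | h
        · exact Or.inl (cf_mono h U (hf.subset (cl_mono hs U)))
        · exact Or.inr (cf_mono h U (hf.subset (cl_mono hr U))))
    have h1 : ∀ k, SM p U k ≤ ENNReal.ofReal (D k) := by
      intro k
      unfold SM
      refine iSup₂_le fun r hr => ?_
      exact ENNReal.ofReal_le_ofReal (hD _ ⟨r, hr, rfl⟩ k)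
    refine (lintegral_mono h1).trans ?_
    rw [← ofReal_integral_eq_lintegral_ofReal (integrable_of_cont hc) (Eventually.of_forall h0)]
    refine (ENNReal.ofReal_le_ofReal hI).trans ?_
    unfold lg
    rw [if_pos hf, ← ENNReal.ofReal_natCast, ← ENNReal.ofReal_pow (Nat.cast_nonneg _),
      ← ENNReal.ofReal_mul (by positivity)]
    exact ENNReal.ofReal_le_ofReal (le_of_eq (by ring))
  · unfold lg
    rw [if_neg hf, ENNReal.top_pow (by norm_num), ENNReal.mul_top]
    · exact le_top
    · rw [Ne, ENNReal.ofReal_eq_zero, not_le]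
      positivity

/-- the maximal inequality -/
theorem int_MM (p : NNReal) (hp : p ≤ 1) :
    ∫⁻ k in cube d, MM d p k ≤
      ENNReal.ofReal (2 * (2 * Real.pi) ^ d) * ∫⁻ ω, lg ω ^ 3 ∂(P d p hp) := by
  unfold MM
  rw [lintegral_lintegral_swap]
  · refine (lintegral_mono fun U => int_SM p U).trans ?_
    have hm : Measurable fun U : (Fin d → ℤ) × Fin d → unitInterval => lg (conf p U) ^ 3 :=
      (lg_meas.comp (meas_conf p)).pow_const 3
    rw [lintegral_const_mul _ hm, ← map_conf p hp,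
      lintegral_map (lg_meas.pow_const 3) (meas_conf p)]
  · exact ((SM_meas p).comp measurable_swap).aemeasurable

end Pool.Agent.J4.H67.PC
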