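import Pool.Agent.J4.H67.PC.Lg

/-!
Convergence of the spectral densities as the parameter increases; the spectral density of the
two-point function restricted to finite clusters, at every parameter.
-/

set_option autoImplicit false
set_option linter.deprecated false

namespace Pool.Agent.J4.H67.PC

open MeasureTheory Filter Topology
open Pool.Agent.Results.MP_54f242_pr.InfraredMean

variable {d : ℕ}

theorem fin_of_lg (p : NNReal) (hp : p ≤ 1) (h : ∫⁻ ω, lg ω ^ 3 ∂(P d p hp) ≠ ⊤) :
    ∀ᵐ ω ∂(P d p hp), (cl ω).Finite := by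
  classical
  have h1 := ae_lt_top (lg_meas.pow_const 3) h
  filter_upwards [h1] with ω hω
  by_contra hc
  unfold lg at hω
  rw [if_neg hc] at hω
  simp at hω

theorem fin_U (p : NNReal) (hp : p ≤ 1) (h : ∀ᵐ ω ∂(P d p hp), (cl ω).Finite) :
    ∀ᵐ U ∂(LU d), (cl (conf p U)).Finite := by
  rw [← map_conf p hp] at h
  exact ae_of_ae_map (meas_conf p).aemeasurable h

/-- convergence of the densities at the wave vectors where the maximal function is finite -/
theorem conv (p : NNReal) (hp : p ≤ 1) (hf : ∀ᵐ ω ∂(P d p hp), (cl ω).Finite) (k : Fin d → ℝ)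
    (hM : MM d p k ≠ ⊤) (q : ℕ → NNReal) (hq : ∀ n, q n ≤ 1) (hqp : ∀ n, q n < p)
    (hlim : Tendsto q atTop (𝓝 p)) :
    Tendsto (fun n => dens d (q n) (hq n) k) atTop (𝓝 (dens d p hp k)) := by
  simp_rw [dens_U]
  have hm : ∀ r : ℝ, Measurable fun U : (Fin d → ℤ) × Fin d → unitInterval => FF (cf (conf r U)) k := by
    intro r
    exact (measurable_of_countable (fun A : Finset (Fin d → ℤ) => FF A k)).comp
      (meas_cf.comp (meas_conf r))
  refine tendsto_lintegral_of_dominated_convergence (fun U => SM p U k) (fun n => hm _)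
    (fun n => Eventually.of_forall fun U => FF_le_SM (by exact_mod_cast (hqp n).le) U k) hM ?_
  filter_upwards [fin_U p hp hf] with U hU
  have h1 := cl_left hU
  have h2 : Tendsto (fun n => (q n : ℝ)) atTop (𝓝[<] (p : ℝ)) := by
    refine tendsto_nhdsWithin_iff.2 ⟨NNReal.tendsto_coe.2 hlim, Eventually.of_forall fun n => ?_⟩
    exact_mod_cast hqp n
  have h3 := h2.eventually h1
  refine tendsto_const_nhds.congr' ?_
  filter_upwards [h3] with n hn
  rw [cf_congr hn]

/-- the mass of the density -/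
theorem int_FF (A : Finset (Fin d → ℤ)) (hA : A.Nonempty) :
    ∫⁻ k in cube d, FF A k = ENNReal.ofReal ((2 * Real.pi) ^ d) := by
  unfold FF
  have hc : (0 : ℝ) < A.card := by exact_mod_cast hA.card_pos
  rw [← ofReal_integral_eq_lintegral_ofReal ((ps_int A).div_const _)
    (Eventually.of_forall fun k => ps_div_nonneg A k), integral_div, int_ps,
    mul_div_cancel_right₀ _ hc.ne']

theorem int_FF_le (A : Finset (Fin d → ℤ)) :
    ∫⁻ k in cube d, FF A k ≤ ENNReal.ofReal ((2 * Real.pi) ^ d) := by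
  rcases A.eq_empty_or_nonempty with h | h
  · subst h
    simp_rw [FF_empty]; simp
  · exact (int_FF A h).le

theorem dens_meas (p : NNReal) (hp : p ≤ 1) : Measurable (dens d p hp) := by
  have : dens d p hp = fun k => ∫⁻ U, FF (cf (conf p U)) k ∂(LU d) := funext (dens_U p hp)
  rw [this]
  exact (meas_joint (d := d) p).lintegral_prod_left'

theorem int_dens_le (p : NNReal) (hp : p ≤ 1) :
    ∫⁻ k in cube d, dens d p hp k ≤ ENNReal.ofReal ((2 * Real.pi) ^ d) := by
  simp_rw [dens_U]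
  rw [lintegral_lintegral_swap]
  · refine (lintegral_mono fun U => int_FF_le _).trans ?_
    simp
  · exact ((meas_joint (d := d) p).comp measurable_swap).aemeasurable

theorem dens_fin (p : NNReal) (hp : p ≤ 1) : ∀ᵐ k ∂(volume.restrict (cube d)), dens d p hp k < ⊤ :=
  ae_lt_top (dens_meas p hp) (ne_top_of_le_ne_top ENNReal.ofReal_ne_top (int_dens_le p hp))

/-- pairs of points of a finite set with a given difference -/
theorem int_ps_cos (A : Finset (Fin d → ℤ)) (x : Fin d → ℤ) :
    ∫ k in cube d, ps A k * Real.cos (dot k x) =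
      (2 * Real.pi) ^ d * ∑ u ∈ A, ∑ v ∈ A, (if v = u + x then (1 : ℝ) else 0) := by
  simp_rw [ps_eq, Finset.sum_mul]
  have hi : ∀ y : Fin d → ℤ, Integrable (fun k : Fin d → ℝ => Real.cos (dot k y) * Real.cos (dot k x))
      (volume.restrict (cube d)) := fun y => integrable_of_cont (by unfold dot; fun_prop)
  rw [integral_finset_sum _ (fun u _ => integrable_finset_sum _ (fun v _ => hi _))]
  simp_rw [integral_finset_sum _ (fun (v : Fin d → ℤ) (_ : v ∈ A) => hi _), int_cos_mul_cos]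
  have h1 : ∑ u ∈ A, ∑ v ∈ A, (2 * Real.pi) ^ d *
      ((if v - u = x then (1 : ℝ) else 0) + (if v - u = -x then 1 else 0)) / 2 =
      ((2 * Real.pi) ^ d / 2) * (∑ u ∈ A, ∑ v ∈ A, (if v = u + x then (1 : ℝ) else 0) +
        ∑ u ∈ A, ∑ v ∈ A, (if u = v + x then (1 : ℝ) else 0)) := by
    rw [← Finset.sum_add_distrib, Finset.mul_sum]
    refine Finset.sum_congr rfl fun u _ => ?_
    rw [← Finset.sum_add_distrib, Finset.mul_sum]
    refine Finset.sum_congr rfl fun v _ => ?_
    have e1 : (v - u = x) ↔ (v = u + x) := by rw [sub_eq_iff_eq_add, add_comm]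
    have e2 : (v - u = -x) ↔ (u = v + x) := by
      constructor
      · intro h; rw [sub_eq_iff_eq_add] at h; rw [h]; abel
      · intro h; rw [h]; abel
    simp only [e1, e2]
    ring
  rw [h1]
  have h2 : ∑ u ∈ A, ∑ v ∈ A, (if u = v + x then (1 : ℝ) else 0) =
      ∑ u ∈ A, ∑ v ∈ A, (if v = u + x then (1 : ℝ) else 0) := Finset.sum_comm
  rw [h2]
  ring

/-- the mean proportion of the points `u` of the cluster such that `u + x` is in the cluster -/
theorem transport_one (p : NNReal) (hp : p ≤ 1) (x : Fin d → ℤ) :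
    ∫ ω, (∑ u ∈ cf ω, ∑ v ∈ cf ω, (if v = u + x then (1 : ℝ) else 0)) / (cf ω).card ∂(P d p hp) =
      tauf d p hp x := by
  classical
  -- pointwise sums
  have h1 : ∀ ω : (Fin d → ℤ) × Fin d → Bool, HasSum (fun u => Hm u (u + x) ω)
      ((∑ u ∈ cf ω, ∑ v ∈ cf ω, (if v = u + x then (1 : ℝ) else 0)) / (cf ω).card) := by
    intro ω
    have h2 : (∑ u ∈ cf ω, ∑ v ∈ cf ω, (if v = u + x then (1 : ℝ) else 0)) / (cf ω).card =
        ∑ u ∈ cf ω, Hm u (u + x) ω := by
      rw [Finset.sum_div]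
      refine Finset.sum_congr rfl fun u hu => ?_
      rw [Finset.sum_ite_eq']
      unfold Hm
      by_cases h : u + x ∈ cf ω
      · rw [if_pos h, if_pos ⟨hu, h⟩]
      · rw [if_neg h, if_neg (fun h' => h h'.2), zero_div]
    rw [h2]
    refine hasSum_sum_of_ne_finset_zero fun u hu => ?_
    unfold Hm
    rw [if_neg (fun h => hu h.1)]
  have h3 : ∀ ω : (Fin d → ℤ) × Fin d → Bool, HasSum (fun w => Hm w x ω)
      (Set.indicator {ω | x ∈ cf ω} (fun _ => (1 : ℝ)) ω) := by
    intro ω
    have h4 : Set.indicator {ω | x ∈ cf ω} (fun _ => (1 : ℝ)) ω = ∑ w ∈ cf ω, Hm w x ω := by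
      by_cases h : x ∈ cf ω
      · rw [Set.indicator_of_mem (show ω ∈ {ω | x ∈ cf ω} from h)]
        have hc : ((cf ω).card : ℝ) ≠ 0 := by
          have := Finset.card_pos.2 ⟨x, h⟩
          positivity
        rw [Finset.sum_congr rfl (g := fun _ => 1 / ((cf ω).card : ℝ))]
        · rw [Finset.sum_const, nsmul_eq_mul]; field_simp
        · intro w hw
          unfold Hm
          rw [if_pos ⟨hw, h⟩]
      · rw [Set.indicator_of_notMem (show ω ∉ {ω | x ∈ cf ω} from h)]
        refine (Finset.sum_eq_zero fun w _ => ?_).symm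
        unfold Hm
        rw [if_neg (fun h' => h h'.2)]
    rw [h4]
    refine hasSum_sum_of_ne_finset_zero fun u hu => ?_
    unfold Hm
    rw [if_neg (fun h => hu h.1)]
  have hle : ∀ ω : (Fin d → ℤ) × Fin d → Bool,
      Set.indicator {ω | x ∈ cf ω} (fun _ => (1 : ℝ)) ω ≤ 1 := by
    intro ω
    by_cases h : ω ∈ {ω | x ∈ cf ω}
    · rw [Set.indicator_of_mem h]
    · rw [Set.indicator_of_notMem h]; norm_num
  have hS : Summable fun w => ∫ ω, Hm w x ω ∂(P d p hp) := by
    refine summable_of_sum_le (c := 1) (fun z => integral_nonneg fun ω => Hm_nonneg _ _ ω) fun s => ?_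
    rw [← integral_finset_sum _ (fun z _ => Hm_int _ _ _)]
    have h5 : ∫ ω, ∑ w ∈ s, Hm w x ω ∂(P d p hp) ≤ ∫ _ω, (1 : ℝ) ∂(P d p hp) :=
      integral_mono (integrable_finset_sum _ fun z _ => Hm_int _ _ _) (integrable_const _)
        fun ω => (sum_le_hasSum s (fun z _ => Hm_nonneg _ _ ω) (h3 ω)).trans (hle ω)
    simpa using h5
  have h6 : ∀ u, ∫ ω, Hm u (u + x) ω ∂(P d p hp) = ∫ ω, Hm (-u) x ω ∂(P d p hp) := by
    intro u
    rw [int_Hm_shift, add_sub_cancel_left]
  have hS2 : Summable fun u => ∫ ω, Hm u (u + x) ω ∂(P d p hp) := by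
    simp_rw [h6]
    exact (Equiv.neg (Fin d → ℤ)).summable_iff.2 hS
  have hn : ∀ u v, ∫ ω, ‖Hm u v ω‖ ∂(P d p hp) = ∫ ω, Hm u v ω ∂(P d p hp) := by
    intro u v
    refine integral_congr_ae (Eventually.of_forall fun ω => ?_)
    show ‖Hm u v ω‖ = Hm u v ω
    rw [Real.norm_eq_abs, abs_of_nonneg (Hm_nonneg _ _ _)]
  calc ∫ ω, (∑ u ∈ cf ω, ∑ v ∈ cf ω, (if v = u + x then (1 : ℝ) else 0)) / (cf ω).card ∂(P d p hp)
      = ∫ ω, ∑' u, Hm u (u + x) ω ∂(P d p hp) := by
        simp_rw [fun ω => (h1 ω).tsum_eq]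
    _ = ∑' u, ∫ ω, Hm u (u + x) ω ∂(P d p hp) := by
        rw [integral_tsum_of_summable_integral_norm (fun u => Hm_int _ _ _)]
        simp_rw [hn]
        exact hS2
    _ = ∑' u, ∫ ω, Hm (-u) x ω ∂(P d p hp) := tsum_congr h6
    _ = ∑' w, ∫ ω, Hm w x ω ∂(P d p hp) :=
        Equiv.tsum_eq (Equiv.neg (Fin d → ℤ)) (fun w => ∫ ω, Hm w x ω ∂(P d p hp))
    _ = ∫ ω, ∑' w, Hm w x ω ∂(P d p hp) := by
        rw [integral_tsum_of_summable_integral_norm (fun u => Hm_int _ _ _)]
        simp_rw [hn]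
        exact hS
    _ = ∫ ω, Set.indicator {ω | x ∈ cf ω} (fun _ => (1 : ℝ)) ω ∂(P d p hp) := by
        simp_rw [fun ω => (h3 ω).tsum_eq]
    _ = tauf d p hp x := by
        rw [integral_indicator_const _ (mem_cf_meas x), tauf_eq', smul_eq_mul, mul_one]
        rfl

theorem meas_joint' : Measurable
    (fun z : ((Fin d → ℤ) × Fin d → Bool) × (Fin d → ℝ) => FF (cf z.1) z.2) := by
  have h1 : Measurable ((fun z : Finset (Fin d → ℤ) × (Fin d → ℝ) => FF z.1 z.2) ∘
    (fun z : ((Fin d → ℤ) × Fin d → Bool) × (Fin d → ℝ) =>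
      ((cf z.1, z.2) : Finset (Fin d → ℤ) × (Fin d → ℝ)))) := by
    refine Measurable.comp mj1 (Measurable.prodMk ?_ measurable_snd)
    exact meas_cf.comp measurable_fst
  have e : (fun z : ((Fin d → ℤ) × Fin d → Bool) × (Fin d → ℝ) => FF (cf z.1) z.2)
    = ((fun z : Finset (Fin d → ℤ) × (Fin d → ℝ) => FF z.1 z.2) ∘
    (fun z : ((Fin d → ℤ) × Fin d → Bool) × (Fin d → ℝ) =>
      ((cf z.1, z.2) : Finset (Fin d → ℤ) × (Fin d → ℝ)))) := by
    funext z
    rfl
  rw [e]
  exact h1

/-- the spectral density of the two-point function restricted to finite clusters -/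
theorem fourier (p : NNReal) (hp : p ≤ 1) (x : Fin d → ℤ) :
    ∫ k in cube d, (dens d p hp k).toReal * Real.cos (dot k x) = (2 * Real.pi) ^ d * tauf d p hp x := by
  classical
  set μ := P d p hp with hμ
  set ν : Measure (Fin d → ℝ) := volume.restrict (cube d) with hν
  have hfm : IsFiniteMeasure ν := ⟨by simpa [hν] using cube_fin⟩
  -- the function of two variables
  set g : ((Fin d → ℤ) × Fin d → Bool) → (Fin d → ℝ) → ℝ := fun ω k =>
    ps (cf ω) k / (cf ω).card * Real.cos (dot k x) with hg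
  have hFF : Measurable (fun z : ((Fin d → ℤ) × Fin d → Bool) × (Fin d → ℝ) =>
      (FF (cf z.1) z.2).toReal) := meas_joint'.ennreal_toReal
  have hgm : Measurable (Function.uncurry g) := by
    have h1 : Function.uncurry g = fun z : ((Fin d → ℤ) × Fin d → Bool) × (Fin d → ℝ) =>
        (FF (cf z.1) z.2).toReal * Real.cos (dot z.2 x) := by
      funext z
      show ps (cf z.1) z.2 / (cf z.1).card * Real.cos (dot z.2 x) = _
      unfold FF
      rw [ENNReal.toReal_ofReal (ps_div_nonneg _ _)]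
    rw [h1]
    refine hFF.mul ?_
    have h2 : Continuous fun k : Fin d → ℝ => Real.cos (dot k x) := by unfold dot; fun_prop
    exact h2.measurable.comp measurable_snd
  have hle : ∀ z : ((Fin d → ℤ) × Fin d → Bool) × (Fin d → ℝ), ‖Function.uncurry g z‖ₑ ≤
      FF (cf z.1) z.2 := by
    intro z
    show ‖ps (cf z.1) z.2 / (cf z.1).card * Real.cos (dot z.2 x)‖ₑ ≤ _
    rw [Real.enorm_eq_ofReal_abs, abs_mul, abs_of_nonneg (ps_div_nonneg _ _)]
    exact ENNReal.ofReal_le_ofReal (mul_le_of_le_one_right (ps_div_nonneg _ _)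
      (Real.abs_cos_le_one _))
  have hgi : Integrable (Function.uncurry g) (μ.prod ν) := by
    refine ⟨hgm.aestronglyMeasurable, ?_⟩
    refine lt_of_le_of_lt (lintegral_mono hle) ?_
    rw [lintegral_prod _ meas_joint'.aemeasurable]
    refine lt_of_le_of_lt (lintegral_mono fun ω => int_FF_le (cf ω)) ?_
    simp
  have h1 : ∫ k, (dens d p hp k).toReal * Real.cos (dot k x) ∂ν = ∫ k, ∫ ω, g ω k ∂μ ∂ν := by
    refine integral_congr_ae (Eventually.of_forall fun k => ?_)
    show (dens d p hp k).toReal * Real.cos (dot k x) = ∫ ω, g ω k ∂μ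
    simp only [hg]
    rw [integral_mul_const]
    congr 1
    rw [integral_eq_lintegral_of_nonneg_ae (Eventually.of_forall fun ω => ps_div_nonneg _ _)
      (ps_div_meas k).aestronglyMeasurable]
    rfl
  rw [h1, ← integral_integral_swap hgi]
  have h2 : ∀ ω : (Fin d → ℤ) × Fin d → Bool, ∫ k, g ω k ∂ν = (2 * Real.pi) ^ d *
      ((∑ u ∈ cf ω, ∑ v ∈ cf ω, (if v = u + x then (1 : ℝ) else 0)) / (cf ω).card) := by
    intro ω
    have h3 : ∀ k, g ω k = (ps (cf ω) k * Real.cos (dot k x)) / (cf ω).card := by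
      intro k
      simp only [hg]; ring
    simp_rw [h3]
    rw [integral_div, hν, int_ps_cos]
    ring
  simp_rw [h2]
  rw [integral_const_mul, hμ, transport_one]

end Pool.Agent.J4.H67.PC
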