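import Pool.Agent.J4.H67.PC.Cp

/-!
The maximal inequality in terms of the susceptibility, and for almost every wave vector.
-/

set_option autoImplicit false
set_option linter.deprecated false

namespace Pool.Agent.J4.H67.PC

open MeasureTheory Filter Topology
open Pool.Agent.Results.MP_54f242_pr.InfraredMean

variable {d : ℕ}

/-- the elementary inequality -/
theorem log_ineq (n : ℕ) (X : ℝ) (hX : 1 ≤ X) : ((Nat.log 2 n + 1 : ℕ) : ℝ) ^ 3 ≤
    14 * (1 + Real.log X) ^ 3 + 81 * (1 + n / X) := by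
  have hX0 : 0 < X := by linarith
  have hu : 0 ≤ Real.log X := Real.log_nonneg hX
  set u := Real.log X with hu'
  set y : ℝ := n / X with hy
  have hy0 : 0 ≤ y := by positivity
  set v := max 0 (Real.log y) with hv'
  have hv : 0 ≤ v := le_max_left _ _
  have hv3 : v ^ 3 ≤ 6 * (1 + y) := by
    have h1 := Real.pow_div_factorial_le_exp v hv 3
    have h2 : Real.exp v ≤ 1 + y := by
      rw [hv']
      rcases le_total (Real.log y) 0 with h | h
      · rw [max_eq_left h, Real.exp_zero]; linarith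
      · rw [max_eq_right h]
        rcases eq_or_lt_of_le hy0 with h3 | h3
        · rw [← h3]; simp
        · rw [Real.exp_log h3]; linarith
    have h3 : ((3 : ℕ).factorial : ℝ) = 6 := by norm_num [Nat.factorial]
    rw [h3, div_le_iff₀ (by norm_num)] at h1
    linarith
  have hm : (Nat.log 2 n : ℝ) ≤ 3 / 2 * (u + v) := by
    rcases Nat.eq_zero_or_pos n with h0 | h0
    · rw [h0, Nat.log_zero_right, Nat.cast_zero]; positivity
    · have hn : (0 : ℝ) < n := by exact_mod_cast h0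
      have h1 : (2 : ℝ) ^ Nat.log 2 n ≤ n := by exact_mod_cast Nat.pow_log_le_self 2 h0.ne'
      have h2 := Real.log_le_log (by positivity) h1
      rw [Real.log_pow] at h2
      have h3 : Real.log n = u + Real.log y := by
        rw [hy, Real.log_div hn.ne' hX0.ne']; ring
      have h4 : Real.log y ≤ v := le_max_right _ _
      have h5 : (2 : ℝ) / 3 ≤ Real.log 2 := by linarith [Real.log_two_gt_d9]
      have h6 : (0 : ℝ) ≤ Nat.log 2 n := Nat.cast_nonneg _
      nlinarith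
  have h1 : ((Nat.log 2 n + 1 : ℕ) : ℝ) ≤ 3 / 2 * (1 + u) + 3 / 2 * v := by
    push_cast; linarith
  have h2 : ((Nat.log 2 n + 1 : ℕ) : ℝ) ^ 3 ≤ (3 / 2 * (1 + u) + 3 / 2 * v) ^ 3 :=
    pow_le_pow_left₀ (Nat.cast_nonneg _) h1 3
  refine h2.trans ?_
  have h3 : ∀ a b : ℝ, 0 ≤ a → 0 ≤ b → (a + b) ^ 3 ≤ 4 * (a ^ 3 + b ^ 3) := by
    intro a b ha hb
    nlinarith [mul_nonneg (add_nonneg ha hb) (sq_nonneg (a - b))]
  refine (h3 _ _ (by positivity) (by positivity)).trans ?_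
  have h4 : 0 ≤ (1 + u) ^ 3 := by positivity
  nlinarith

/-- the moment of the logarithm of the size of the cluster -/
theorem lint_lg (p : NNReal) (hp : p ≤ 1) (hs : Summable (tau d p hp)) :
    ∫⁻ ω, lg ω ^ 3 ∂(P d p hp) ≤ ENNReal.ofReal (176 * (1 + Real.log (chi d p hp)) ^ 3) := by
  classical
  have hfin := ae_fin p hp hs
  have htau : tauf d p hp = tau d p hp := funext (tauf_eq p hp hfin)
  have hχ := chi_ge p hp hs
  set X := chi d p hp with hX
  have hX0 : 0 < X := by linarith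
  obtain ⟨hi, hI⟩ := card_int p hp (by rw [htau]; exact hs)
  rw [htau] at hI
  have h1 : ∫⁻ ω, lg ω ^ 3 ∂(P d p hp) ≤ ∫⁻ ω, ENNReal.ofReal (14 * (1 + Real.log X) ^ 3 +
      81 * (1 + (cf ω).card / X)) ∂(P d p hp) := by
    refine lintegral_mono_ae ?_
    filter_upwards [hfin] with ω hω
    unfold lg
    rw [if_pos hω, ← ENNReal.ofReal_natCast, ← ENNReal.ofReal_pow (Nat.cast_nonneg _)]
    exact ENNReal.ofReal_le_ofReal (log_ineq _ X hχ)
  refine h1.trans ?_
  have hl : 0 ≤ Real.log X := Real.log_nonneg hχ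
  have hi3 : Integrable (fun ω => ((cf ω).card : ℝ) / X) (P d p hp) := hi.div_const X
  have hi4 : Integrable (fun ω => 1 + ((cf ω).card : ℝ) / X) (P d p hp) :=
    (integrable_const _).add hi3
  have hi5 : Integrable (fun ω => 81 * (1 + ((cf ω).card : ℝ) / X)) (P d p hp) := hi4.const_mul 81
  have hi2 : Integrable (fun ω => 14 * (1 + Real.log X) ^ 3 + 81 * (1 + ((cf ω).card : ℝ) / X))
      (P d p hp) := (integrable_const _).add hi5
  rw [← ofReal_integral_eq_lintegral_ofReal hi2 (Eventually.of_forall fun ω => by positivity)]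
  refine ENNReal.ofReal_le_ofReal ?_
  rw [integral_add (integrable_const _) hi5, integral_const_mul 81,
    integral_add (integrable_const _) hi3, integral_div, hI]
  have h2 : (∑' x, tau d p hp x) / X = 1 := by rw [hX, chi]; exact div_self (by rw [← chi, ← hX]; exact hX0.ne')
  rw [h2]
  simp only [integral_const, probReal_univ, smul_eq_mul, one_mul]
  have h3 : 1 ≤ (1 + Real.log X) ^ 3 := one_le_pow₀ (by linarith)
  linarith

theorem MM_mono {p q : ℝ} (h : p ≤ q) (k : Fin d → ℝ) : MM d p k ≤ MM d q k := by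
  unfold MM
  refine lintegral_mono fun U => ?_
  unfold SM
  exact iSup₂_le fun r hr => le_iSup₂_of_le r (hr.trans h) le_rfl

theorem int_MM_chi (p : NNReal) (hp : p ≤ 1) (hs : Summable (tau d p hp)) :
    ∫⁻ k in cube d, MM d p k ≤
      ENNReal.ofReal (352 * (2 * Real.pi) ^ d * (1 + Real.log (chi d p hp)) ^ 3) := by
  refine (int_MM p hp).trans ?_
  refine (mul_le_mul_right (lint_lg p hp hs) _).trans ?_
  rw [← ENNReal.ofReal_mul (by positivity)]
  exact ENNReal.ofReal_le_ofReal (le_of_eq (by ring))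

theorem exhaust (S : Set ℝ) (hne : S.Nonempty) (hb : BddAbove S) :
    ∃ u : ℕ → ℝ, Monotone u ∧ (∀ n, u n ∈ S) ∧ ∀ r ∈ S, ∃ n, r ≤ u n := by
  have hl := isLUB_csSup hne hb
  by_cases h : sSup S ∈ S
  · exact ⟨fun _ => sSup S, fun _ _ _ => le_rfl, fun _ => h, fun r hr => ⟨0, hl.1 hr⟩⟩
  · obtain ⟨u, h1, -, h3, h4⟩ := hl.exists_seq_monotone_tendsto hne
    refine ⟨u, h1, h4, fun r hr => ?_⟩
    have h5 : r < sSup S := lt_of_le_of_ne (hl.1 hr) fun h6 => h (h6 ▸ hr)
    obtain ⟨n, hn⟩ := (h3.eventually_const_lt h5).exists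
    exact ⟨n, hn.le⟩

/-- the maximal function over the parameters of susceptibility at most `X` -/
theorem sup_chi (X : ℝ) (hX : 1 ≤ X) : ∃ M : (Fin d → ℝ) → ENNReal, Measurable M ∧
    (∀ (q : NNReal) (hq : q ≤ 1), Summable (tau d q hq) → chi d q hq ≤ X →
      ∀ k, dens d q hq k ≤ M k) ∧
    ∫⁻ k in cube d, M k ≤ ENNReal.ofReal (352 * (2 * Real.pi) ^ d * (1 + Real.log X) ^ 3) := by
  set S : Set ℝ := {r | ∃ (q : NNReal) (hq : q ≤ 1), Summable (tau d q hq) ∧ chi d q hq ≤ X ∧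
    (q : ℝ) = r} with hS
  have hne : S.Nonempty := ⟨0, 0, zero_le_one, (p0 d).2.choose_spec, by
    have := ch_p0 (d := d)
    unfold ch at this
    exact le_of_eq_of_le this hX, by simp⟩
  have hb : BddAbove S := ⟨1, by
    rintro r ⟨q, hq, -, -, rfl⟩
    exact_mod_cast hq⟩
  obtain ⟨u, hu1, hu2, hu3⟩ := exhaust S hne hb
  refine ⟨fun k => ⨆ n, MM d (u n) k, Measurable.iSup fun n => MM_meas _, ?_, ?_⟩
  · intro q hq hs hχ k
    obtain ⟨n, hn⟩ := hu3 q ⟨q, hq, hs, hχ, rfl⟩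
    exact (dens_le_MM q hq (u n) hn k).trans (le_iSup (fun n => MM d (u n) k) n)
  · rw [lintegral_iSup (fun n => MM_meas _) (fun i j hij k => MM_mono (hu1 hij) k)]
    refine iSup_le fun n => ?_
    obtain ⟨q, hq, hs, hχ, h⟩ := hu2 n
    rw [← h]
    refine (int_MM_chi q hq hs).trans (ENNReal.ofReal_le_ofReal ?_)
    have h1 := chi_ge q hq hs
    have h2 := Real.log_nonneg h1
    have h3 := Real.log_le_log (by linarith) hχ
    gcongr

/-- the bound for almost every wave vector -/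
theorem ae_log : ∀ᵐ k : Fin d → ℝ ∂(volume.restrict (cube d)), ∃ C : ℝ,
    ∀ (q : NNReal) (hq : q ≤ 1), Summable (tau d q hq) →
      ∑' x, tau d q hq x * Real.cos (dot k x) ≤ C * ((1 + Real.log (chi d q hq)) ^ 3 *
        (1 + Real.log (1 + Real.log (chi d q hq))) ^ 2) := by
  have hXj : ∀ j : ℕ, 1 ≤ Real.exp (2 ^ j) := fun j => Real.one_le_exp (by positivity)
  choose M hM1 hM2 hM3 using fun j : ℕ => sup_chi (d := d) (Real.exp (2 ^ j)) (hXj j)
  set w : ℕ → ENNReal := fun j => ENNReal.ofReal (1 / (8 ^ j * ((j : ℝ) + 1) ^ 2)) with hw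
  have h1 : ∫⁻ k in cube d, ∑' j, w j * M j k ≠ ⊤ := by
    rw [lintegral_tsum (fun j => ((hM1 j).const_mul _).aemeasurable)]
    have h2 : ∀ j, ∫⁻ k in cube d, w j * M j k ≤
        ENNReal.ofReal (2816 * (2 * Real.pi) ^ d * (1 / ((j : ℝ) + 1) ^ 2)) := by
      intro j
      rw [lintegral_const_mul _ (hM1 j)]
      refine (mul_le_mul_right (hM3 j) _).trans ?_
      rw [hw, ← ENNReal.ofReal_mul (by positivity)]
      refine ENNReal.ofReal_le_ofReal ?_
      rw [Real.log_exp]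
      have h3 : (1 : ℝ) + 2 ^ j ≤ 2 * 2 ^ j := by
        have : (1 : ℝ) ≤ 2 ^ j := one_le_pow₀ (by norm_num)
        linarith
      have h4 : ((1 : ℝ) + 2 ^ j) ^ 3 ≤ 8 * 8 ^ j := by
        refine (pow_le_pow_left₀ (by positivity) h3 3).trans (le_of_eq ?_)
        rw [mul_pow, ← pow_mul, mul_comm j 3, pow_mul]; norm_num
      calc 1 / (8 ^ j * ((j : ℝ) + 1) ^ 2) * (352 * (2 * Real.pi) ^ d * (1 + 2 ^ j) ^ 3)
          ≤ 1 / (8 ^ j * ((j : ℝ) + 1) ^ 2) * (352 * (2 * Real.pi) ^ d * (8 * 8 ^ j)) := by gcongr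
        _ = 2816 * (2 * Real.pi) ^ d * (1 / ((j : ℝ) + 1) ^ 2) := by field_simp; ring
    have hsum : Summable fun j : ℕ => 2816 * (2 * Real.pi) ^ d * (1 / ((j : ℝ) + 1) ^ 2) := by
      refine Summable.mul_left _ ?_
      have := (summable_nat_add_iff 1).2 (Real.summable_one_div_nat_pow.2 (by norm_num : 1 < 2))
      simpa using this
    refine ne_top_of_le_ne_top ?_ (ENNReal.tsum_le_tsum h2)
    rw [← ENNReal.ofReal_tsum_of_nonneg (fun j => by positivity) hsum]
    exact ENNReal.ofReal_ne_top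
  have h2 := ae_lt_top (Measurable.ennreal_tsum fun j => (hM1 j).const_mul (w j)) h1
  filter_upwards [h2] with k hk
  set C := (∑' j, w j * M j k).toReal with hC
  have hC0 : 0 ≤ C := ENNReal.toReal_nonneg
  -- the maximal functions at this wave vector
  have h3 : ∀ j, M j k ≤ ENNReal.ofReal (C * (8 ^ j * ((j : ℝ) + 1) ^ 2)) := by
    intro j
    have h4 : w j * M j k ≤ ENNReal.ofReal C := by
      rw [hC, ENNReal.ofReal_toReal hk.ne]
      exact ENNReal.le_tsum j
    have h5 : w j ≠ 0 := by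
      rw [hw]
      simp only [ne_eq, ENNReal.ofReal_eq_zero, not_le]
      positivity
    have h6 : w j ≠ ⊤ := ENNReal.ofReal_ne_top
    have h7 : M j k ≤ ENNReal.ofReal C / w j := by
      rw [ENNReal.le_div_iff_mul_le (Or.inl h5) (Or.inl h6), mul_comm]
      exact h4
    refine h7.trans ?_
    rw [hw, ← ENNReal.ofReal_div_of_pos (by positivity)]
    exact ENNReal.ofReal_le_ofReal (le_of_eq (by field_simp))
  refine ⟨C * 32, fun q hq hs => ?_⟩
  have hχ := chi_ge q hq hs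
  set ℓ := Real.log (chi d q hq) with hℓ
  have hℓ0 : 0 ≤ ℓ := Real.log_nonneg hχ
  have hl2 : 0 ≤ Real.log (1 + ℓ) := Real.log_nonneg (by linarith)
  classical
  have hex : ∃ j : ℕ, ℓ ≤ (2 : ℝ) ^ j := by
    obtain ⟨j, hj⟩ := pow_unbounded_of_one_lt ℓ (by norm_num : (1 : ℝ) < 2)
    exact ⟨j, hj.le⟩
  set j := Nat.find hex with hj
  have hj1 : ℓ ≤ (2 : ℝ) ^ j := Nat.find_spec hex
  have hχj : chi d q hq ≤ Real.exp (2 ^ j) := by
    rw [← Real.log_le_iff_le_exp (by linarith)]; exact hj1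
  have h4 := (hM2 j q hq hs hχj k).trans (h3 j)
  rw [dens_eq q hq hs] at h4
  have h5 : ∑' x, tau d q hq x * Real.cos (dot k x) ≤ C * (8 ^ j * ((j : ℝ) + 1) ^ 2) :=
    (ENNReal.ofReal_le_ofReal_iff (by positivity)).1 h4
  refine h5.trans ?_
  rw [mul_assoc C 32]
  refine mul_le_mul_of_nonneg_left ?_ hC0
  rcases Nat.eq_zero_or_pos j with h0 | h0
  · rw [h0]
    have h6 : 1 ≤ (1 + ℓ) ^ 3 := one_le_pow₀ (by linarith)
    have h7 : 1 ≤ (1 + Real.log (1 + ℓ)) ^ 2 := one_le_pow₀ (by linarith)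
    have h8 : 1 ≤ (1 + ℓ) ^ 3 * (1 + Real.log (1 + ℓ)) ^ 2 := by nlinarith
    simp only [pow_zero, Nat.cast_zero, zero_add, one_pow, mul_one]
    linarith
  · obtain ⟨i, hi⟩ : ∃ i, j = i + 1 := ⟨j - 1, by omega⟩
    have hlt : (2 : ℝ) ^ i < ℓ := by
      have := Nat.find_min hex (m := i) (by omega)
      exact not_le.1 this
    have h6 : (8 : ℝ) ^ j ≤ 8 * (1 + ℓ) ^ 3 := by
      rw [hi, pow_succ]
      have h7 : (8 : ℝ) ^ i = (2 ^ i) ^ 3 := by rw [← pow_mul, mul_comm, pow_mul]; norm_num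
      rw [h7]
      have h8 : ((2 : ℝ) ^ i) ^ 3 ≤ (1 + ℓ) ^ 3 := pow_le_pow_left₀ (by positivity) (by linarith) 3
      linarith
    have h7 : (j : ℝ) + 1 ≤ 2 * (1 + Real.log (1 + ℓ)) := by
      have h8 : Real.log ((2 : ℝ) ^ i) ≤ Real.log (1 + ℓ) :=
        Real.log_le_log (by positivity) (by linarith)
      rw [Real.log_pow] at h8
      have h9 : (1 : ℝ) / 2 ≤ Real.log 2 := by linarith [Real.log_two_gt_d9]
      have h10 : (0 : ℝ) ≤ i := Nat.cast_nonneg i
      rw [hi]; push_cast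
      nlinarith
    have h8 : ((j : ℝ) + 1) ^ 2 ≤ (2 * (1 + Real.log (1 + ℓ))) ^ 2 :=
      pow_le_pow_left₀ (by positivity) h7 2
    calc (8 : ℝ) ^ j * ((j : ℝ) + 1) ^ 2 ≤ (8 * (1 + ℓ) ^ 3) * (2 * (1 + Real.log (1 + ℓ))) ^ 2 := by
          gcongr
      _ = 32 * ((1 + ℓ) ^ 3 * (1 + Real.log (1 + ℓ)) ^ 2) := by ring

end Pool.Agent.J4.H67.PC
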