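import Pool.Agent.J4.H67.PC.Crit

/-!
Convergence in mean of the spectral densities as the parameter increases.
-/

set_option autoImplicit false
set_option linter.deprecated false

namespace Pool.Agent.J4.H67.PC

open MeasureTheory Filter Topology
open Pool.Agent.Results.MP_54f242_pr.InfraredMean

variable {d : ℕ}

/-- the labels at which the cluster of the origin changes between the parameters -/
def chg (r p : ℝ) : Set ((Fin d → ℤ) × Fin d → unitInterval) :=
  {U | cl (conf r U) ≠ cl (conf p U)}

theorem chg_meas (r p : ℝ) : MeasurableSet (chg (d := d) r p) := by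
  have : chg (d := d) r p = (⋂ x : Fin d → ℤ,
      {U | x ∈ cl (conf r U) ↔ x ∈ cl (conf p U)})ᶜ := by
    ext U
    simp only [chg, Set.mem_ofPred_eq, Set.mem_compl_iff, Set.mem_iInter, ne_eq, Set.ext_iff]
  rw [this]
  refine (MeasurableSet.iInter fun x => ?_).compl
  have h1 : ∀ s : ℝ, Measurable fun U : (Fin d → ℤ) × Fin d → unitInterval => x ∈ cl (conf s U) :=
    fun s => (measurableSet_setOfPred.1 (meas_reach 0 x)).comp (meas_conf s)
  exact measurableSet_setOfPred.2 ((h1 r).iff (h1 p))

open Classical in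
/-- the error term -/
noncomputable def EE (r p : ℝ) (U : (Fin d → ℤ) × Fin d → unitInterval) (k : Fin d → ℝ) : ENNReal :=
  (chg r p).indicator (fun _ => (1 : ENNReal)) U * (FF (cf (conf r U)) k + FF (cf (conf p U)) k)

theorem EE_meas (r p : ℝ) : Measurable
    (fun z : ((Fin d → ℤ) × Fin d → unitInterval) × (Fin d → ℝ) => EE r p z.1 z.2) := by
  unfold EE
  refine Measurable.mul ?_ ((meas_joint r).add (meas_joint p))
  exact (measurable_const.indicator (chg_meas r p)).comp measurable_fst

theorem FF_le_EE (r p : ℝ) (U : (Fin d → ℤ) × Fin d → unitInterval) (k : Fin d → ℝ) :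
    FF (cf (conf r U)) k ≤ FF (cf (conf p U)) k + EE r p U k ∧
      FF (cf (conf p U)) k ≤ FF (cf (conf r U)) k + EE r p U k := by
  unfold EE
  by_cases h : U ∈ chg r p
  · rw [Set.indicator_of_mem h, one_mul]
    exact ⟨le_trans le_self_add le_add_self, le_trans le_add_self le_add_self⟩
  · have h1 : cl (conf r U) = cl (conf p U) := by
      by_contra hc; exact h hc
    rw [Set.indicator_of_notMem h, zero_mul, add_zero, add_zero, cf_congr h1]
    exact ⟨le_rfl, le_rfl⟩

theorem int_EE (r p : ℝ) : ∫⁻ k in cube d, ∫⁻ U, EE r p U k ∂(LU d) ≤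
    ENNReal.ofReal (2 * (2 * Real.pi) ^ d) * LU d (chg r p) := by
  have hsw : ∫⁻ k in cube d, ∫⁻ U, EE r p U k ∂(LU d) =
      ∫⁻ U, (∫⁻ k in cube d, EE r p U k) ∂(LU d) := by
    refine lintegral_lintegral_swap (f := fun (k : Fin d → ℝ)
      (U : (Fin d → ℤ) × Fin d → unitInterval) => EE r p U k) ?_
    exact ((EE_meas (d := d) r p).comp measurable_swap).aemeasurable
  rw [hsw]
  have hm : ∀ (s : ℝ) (U : (Fin d → ℤ) × Fin d → unitInterval), Measurable (FF (cf (conf s U))) :=
    fun s U => FF_meas _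
  have h1 : ∀ U : (Fin d → ℤ) × Fin d → unitInterval, ∫⁻ k in cube d, EE r p U k ≤
      ENNReal.ofReal (2 * (2 * Real.pi) ^ d) * (chg r p).indicator (fun _ => (1 : ENNReal)) U := by
    intro U
    unfold EE
    have hadd : Measurable fun k => FF (cf (conf r U)) k + FF (cf (conf p U)) k :=
      (hm r U).add (hm p U)
    rw [lintegral_const_mul _ hadd, mul_comm]
    refine mul_le_mul_left ?_ _
    rw [lintegral_add_left (hm r U)]
    refine (add_le_add (int_FF_le _) (int_FF_le _)).trans (le_of_eq ?_)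
    rw [← ENNReal.ofReal_add (by positivity) (by positivity)]
    congr 1; ring
  refine (lintegral_mono h1).trans (le_of_eq ?_)
  rw [lintegral_const_mul _ (measurable_const.indicator (chg_meas r p)),
    lintegral_indicator (chg_meas r p)]
  simp

theorem chg_tendsto (p : NNReal) (hp : p ≤ 1) (hf : ∀ᵐ ω ∂(P d p hp), (cl ω).Finite)
    (q : ℕ → NNReal) (hqp : ∀ n, q n < p) (hlim : Tendsto q atTop (𝓝 p)) :
    Tendsto (fun n => LU d (chg (q n) p)) atTop (𝓝 0) := by
  have h0 : ∀ n, LU d (chg (q n) p) =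
      ∫⁻ U, (chg (q n : ℝ) p).indicator (fun _ => (1 : ENNReal)) U ∂(LU d) := by
    intro n
    rw [lintegral_indicator (chg_meas _ _)]; simp
  simp_rw [h0]
  have h1 : (0 : ENNReal) = ∫⁻ _U : (Fin d → ℤ) × Fin d → unitInterval, 0 ∂(LU d) := by simp
  rw [h1]
  refine tendsto_lintegral_of_dominated_convergence (fun _ => 1)
    (fun n => measurable_const.indicator (chg_meas _ _))
    (fun n => Eventually.of_forall fun U => Set.indicator_le_self' (fun _ _ => zero_le) U)
    (by simp) ?_
  filter_upwards [fin_U p hp hf] with U hU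
  have h2 := cl_left hU
  have h3 : Tendsto (fun n => (q n : ℝ)) atTop (𝓝[<] (p : ℝ)) := by
    refine tendsto_nhdsWithin_iff.2 ⟨NNReal.tendsto_coe.2 hlim, Eventually.of_forall fun n => ?_⟩
    exact_mod_cast hqp n
  refine tendsto_const_nhds.congr' ?_
  filter_upwards [h3.eventually h2] with n hn
  rw [Set.indicator_of_notMem]
  intro h; exact h hn

/-- convergence in mean -/
theorem conv_mean (p : NNReal) (hp : p ≤ 1) (hf : ∀ᵐ ω ∂(P d p hp), (cl ω).Finite)
    (q : ℕ → NNReal) (hq : ∀ n, q n ≤ 1) (hqp : ∀ n, q n < p) (hlim : Tendsto q atTop (𝓝 p)) :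
    Tendsto (fun n => ∫ k in cube d, |(dens d (q n) (hq n) k).toReal - (dens d p hp k).toReal|)
      atTop (𝓝 0) := by
  have hE : ∀ n, ∫ k in cube d, |(dens d (q n) (hq n) k).toReal - (dens d p hp k).toReal| ≤
      (ENNReal.ofReal (2 * (2 * Real.pi) ^ d) * LU d (chg (q n) p)).toReal := by
    intro n
    have hfin : ENNReal.ofReal (2 * (2 * Real.pi) ^ d) * LU d (chg (q n) p) ≠ ⊤ :=
      ENNReal.mul_ne_top ENNReal.ofReal_ne_top (measure_ne_top _ _)
    have hEm : Measurable fun k : Fin d → ℝ => ∫⁻ U, EE (q n) p U k ∂(LU d) :=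
      (EE_meas (d := d) (q n) p).lintegral_prod_left'
    have hEfin := ae_lt_top hEm (ne_top_of_le_ne_top hfin (int_EE (d := d) (q n) p))
    have hm : ∀ s : ℝ, ∀ k : Fin d → ℝ, Measurable
        fun U : (Fin d → ℤ) × Fin d → unitInterval => FF (cf (conf s U)) k := by
      intro s k
      exact (measurable_of_countable (fun A : Finset (Fin d → ℤ) => FF A k)).comp
        (meas_cf.comp (meas_conf s))
    have hsm : AEStronglyMeasurable (fun k => |(dens d (q n) (hq n) k).toReal -
        (dens d p hp k).toReal|) (volume.restrict (cube d)) := by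
      have h1 : Measurable fun k => (dens d (q n) (hq n) k).toReal - (dens d p hp k).toReal :=
        (dens_meas _ _).ennreal_toReal.sub (dens_meas _ _).ennreal_toReal
      exact (continuous_abs.measurable.comp h1).aestronglyMeasurable
    rw [integral_eq_lintegral_of_nonneg_ae (Eventually.of_forall fun k => abs_nonneg _) hsm]
    refine ENNReal.toReal_mono hfin (le_trans (lintegral_mono_ae ?_) (int_EE (d := d) (q n) p))
    filter_upwards [hEfin, dens_fin (d := d) p hp, dens_fin (d := d) (q n) (hq n)] with k h1 h2 h3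
    have h4 : dens d (q n) (hq n) k ≤ dens d p hp k + ∫⁻ U, EE (q n) p U k ∂(LU d) := by
      rw [dens_U, dens_U, ← lintegral_add_left (hm p k)]
      exact lintegral_mono fun U => (FF_le_EE _ _ U k).1
    have h5 : dens d p hp k ≤ dens d (q n) (hq n) k + ∫⁻ U, EE (q n) p U k ∂(LU d) := by
      rw [dens_U, dens_U, ← lintegral_add_left (hm (q n) k)]
      exact lintegral_mono fun U => (FF_le_EE _ _ U k).2
    have h6 := ENNReal.toReal_mono (ENNReal.add_ne_top.2 ⟨h2.ne, h1.ne⟩) h4
    have h7 := ENNReal.toReal_mono (ENNReal.add_ne_top.2 ⟨h3.ne, h1.ne⟩) h5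
    rw [ENNReal.toReal_add h2.ne h1.ne] at h6
    rw [ENNReal.toReal_add h3.ne h1.ne] at h7
    rw [ENNReal.ofReal_le_iff_le_toReal h1.ne, abs_le]
    constructor <;> linarith
  have hT : Tendsto (fun n => (ENNReal.ofReal (2 * (2 * Real.pi) ^ d) *
      LU d (chg (q n) p)).toReal) atTop (𝓝 0) := by
    have h1 := ENNReal.Tendsto.const_mul (a := ENNReal.ofReal (2 * (2 * Real.pi) ^ d))
      (chg_tendsto p hp hf q hqp hlim) (Or.inr ENNReal.ofReal_ne_top)
    rw [mul_zero] at h1
    have h2 := (ENNReal.tendsto_toReal ENNReal.zero_ne_top).comp h1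
    rw [ENNReal.toReal_zero] at h2
    exact h2
  exact squeeze_zero (fun n => integral_nonneg fun k => abs_nonneg _) hE hT

end Pool.Agent.J4.H67.PC
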