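import Pool.Agent.J4.H67.PC.Pv

/-!
The partition of a cluster into the clusters at a smaller parameter; mass transport in the coupling.
-/

set_option autoImplicit false
set_option linter.deprecated false

namespace Pool.Agent.J4.H67.PC

open MeasureTheory Filter Topology
open Pool.Agent.Results.MP_54f242_pr.InfraredMean

variable {d : ℕ}

/-- the entropy of a partition and its largest part -/
theorem entropy (W : Finset (Finset (Fin d → ℤ))) (hdis : (W : Set (Finset (Fin d → ℤ))).PairwiseDisjoint id)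
    (M : Finset (Fin d → ℤ)) (hM : M ∈ W)
    (hmax : ∀ A ∈ W, A.card ≤ M.card) :
    Real.log 2 * (((W.biUnion id).card : ℝ) - M.card) ≤
      (W.biUnion id).card * Real.log (W.biUnion id).card - ∑ A ∈ W, (A.card : ℝ) * Real.log A.card := by
  classical
  have hcard : ((W.biUnion id).card : ℝ) = ∑ A ∈ W, (A.card : ℝ) := by
    rw [Finset.card_biUnion (fun A hA B hB h => hdis hA hB h)]
    push_cast; rfl
  set n : ℝ := ((W.biUnion id).card : ℝ) with hn
  have h1 : n * Real.log n - ∑ A ∈ W, (A.card : ℝ) * Real.log A.card =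
      ∑ A ∈ W, (A.card : ℝ) * (Real.log n - Real.log A.card) := by
    simp_rw [mul_sub]
    rw [Finset.sum_sub_distrib, ← Finset.sum_mul, ← hcard]
  rw [h1]
  have h2 : Real.log 2 * (n - M.card) = ∑ A ∈ W.erase M, (A.card : ℝ) * Real.log 2 := by
    rw [← Finset.sum_mul, hcard, ← Finset.add_sum_erase W _ hM]
    ring
  rw [h2, ← Finset.add_sum_erase W _ hM]
  have hle : ∀ A ∈ W, (A.card : ℝ) ≤ n := by
    intro A hA
    rw [hcard]
    exact Finset.single_le_sum (f := fun A : Finset (Fin d → ℤ) => (A.card : ℝ))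
      (fun _ _ => Nat.cast_nonneg _) hA
  have h3 : 0 ≤ (M.card : ℝ) * (Real.log n - Real.log M.card) := by
    rcases Nat.eq_zero_or_pos M.card with h0 | h0
    · rw [h0]; simp
    · have hm : (0 : ℝ) < M.card := by exact_mod_cast h0
      have := Real.log_le_log hm (hle M hM)
      have h4 : 0 ≤ Real.log n - Real.log M.card := by linarith
      positivity
  have h4 : ∑ A ∈ W.erase M, (A.card : ℝ) * Real.log 2 ≤
      ∑ A ∈ W.erase M, (A.card : ℝ) * (Real.log n - Real.log A.card) := by
    refine Finset.sum_le_sum fun A hA => ?_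
    rcases Nat.eq_zero_or_pos A.card with h0 | h0
    · rw [h0]; simp
    · have ha : (0 : ℝ) < A.card := by exact_mod_cast h0
      refine mul_le_mul_of_nonneg_left ?_ ha.le
      have hAW := Finset.mem_of_mem_erase hA
      have h5 : (A.card : ℝ) + M.card ≤ n := by
        rw [hcard, ← Finset.add_sum_erase W _ hM]
        have := Finset.single_le_sum (f := fun A : Finset (Fin d → ℤ) => (A.card : ℝ))
          (fun _ _ => Nat.cast_nonneg _) hA
        linarith
      have h6 : (A.card : ℝ) ≤ M.card := by exact_mod_cast hmax A hAW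
      have h7 : 2 * (A.card : ℝ) ≤ n := by linarith
      have h8 := Real.log_le_log (by positivity) h7
      rw [Real.log_mul (by norm_num) ha.ne'] at h8
      linarith
  linarith

open Classical in
/-- the part of `x` in the finite set `C` for the clusters of `ω` -/
noncomputable def part (ω : (Fin d → ℤ) × Fin d → Bool) (C : Finset (Fin d → ℤ)) (x : Fin d → ℤ) :
    Finset (Fin d → ℤ) := C.filter (fun y => (opn ω).Reachable x y)

open Classical in
/-- the parts of `C` -/
noncomputable def parts (ω : (Fin d → ℤ) × Fin d → Bool) (C : Finset (Fin d → ℤ)) :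
    Finset (Finset (Fin d → ℤ)) := C.image (part ω C)

theorem mem_part (ω : (Fin d → ℤ) × Fin d → Bool) (C : Finset (Fin d → ℤ)) (x y : Fin d → ℤ) :
    y ∈ part ω C x ↔ y ∈ C ∧ (opn ω).Reachable x y := by
  classical
  unfold part; rw [Finset.mem_filter]

theorem part_eq (ω : (Fin d → ℤ) × Fin d → Bool) (C : Finset (Fin d → ℤ)) {x y : Fin d → ℤ}
    (h : (opn ω).Reachable x y) : part ω C x = part ω C y := by
  ext z
  rw [mem_part, mem_part]
  exact ⟨fun h1 => ⟨h1.1, h.symm.trans h1.2⟩, fun h1 => ⟨h1.1, h.trans h1.2⟩⟩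

theorem parts_disjoint (ω : (Fin d → ℤ) × Fin d → Bool) (C : Finset (Fin d → ℤ)) :
    (parts ω C : Set (Finset (Fin d → ℤ))).PairwiseDisjoint id := by
  classical
  intro A hA B hB hne
  rw [Finset.mem_coe] at hA hB
  unfold parts at hA hB
  rw [Finset.mem_image] at hA hB
  obtain ⟨x, hx, rfl⟩ := hA
  obtain ⟨y, hy, rfl⟩ := hB
  show Disjoint (part ω C x) (part ω C y)
  rw [Finset.disjoint_left]
  intro z hz1 hz2
  rw [mem_part] at hz1 hz2
  exact hne (part_eq ω C (hz1.2.trans hz2.2.symm))

theorem parts_union (ω : (Fin d → ℤ) × Fin d → Bool) (C : Finset (Fin d → ℤ)) :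
    (parts ω C).biUnion id = C := by
  classical
  ext x
  rw [Finset.mem_biUnion]
  constructor
  · rintro ⟨A, hA, hx⟩
    unfold parts at hA
    rw [Finset.mem_image] at hA
    obtain ⟨y, -, rfl⟩ := hA
    exact ((mem_part _ _ _ _).1 hx).1
  · intro hx
    exact ⟨part ω C x, Finset.mem_image_of_mem _ hx, (mem_part _ _ _ _).2 ⟨hx, SimpleGraph.Reachable.refl _⟩⟩

theorem sum_parts (ω : (Fin d → ℤ) × Fin d → Bool) (C : Finset (Fin d → ℤ))
    (g : Finset (Fin d → ℤ) → ℝ) :
    ∑ x ∈ C, g (part ω C x) = ∑ A ∈ parts ω C, (A.card : ℝ) * g A := by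
  classical
  rw [Finset.sum_comp g (part ω C)]
  refine Finset.sum_congr rfl fun A hA => ?_
  obtain ⟨x, hx, rfl⟩ := Finset.mem_image.1 hA
  rw [nsmul_eq_mul]
  congr 2
  have : (C.filter fun a => part ω C a = part ω C x) = part ω C x := by
    ext y
    rw [Finset.mem_filter, mem_part]
    constructor
    · rintro ⟨h1, h2⟩
      refine ⟨h1, ?_⟩
      have h3 : y ∈ part ω C y := (mem_part _ _ _ _).2 ⟨h1, SimpleGraph.Reachable.refl _⟩
      rw [h2] at h3
      exact ((mem_part _ _ _ _).1 h3).2
    · rintro ⟨h1, h2⟩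
      exact ⟨h1, (part_eq ω C h2).symm⟩
  rw [this]

/-- translation of the exponential sum -/
theorem ps_map (A : Finset (Fin d → ℤ)) (u : Fin d → ℤ) (k : Fin d → ℝ) :
    ps (A.map (addRightEmbedding u)) k = ps A k := by
  rw [ps_eq, ps_eq, Finset.sum_map]
  refine Finset.sum_congr rfl fun x _ => ?_
  rw [Finset.sum_map]
  refine Finset.sum_congr rfl fun y _ => ?_
  simp only [addRightEmbedding_apply]
  congr 2
  abel

/-- the shift of the labels -/
def shU (u : Fin d → ℤ) (U : (Fin d → ℤ) × Fin d → unitInterval) : (Fin d → ℤ) × Fin d → unitInterval :=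
  fun e => U (sh u e)

theorem meas_shU (u : Fin d → ℤ) : Measurable (shU u) :=
  measurable_pi_iff.2 fun _ => measurable_pi_apply _

theorem map_shU (u : Fin d → ℤ) : (LU d).map (shU u) = LU d :=
  MeasureTheory.Measure.map_infinitePi_infinitePi_of_inj (sh u).injective

theorem conf_shU (r : ℝ) (u : Fin d → ℤ) (U : (Fin d → ℤ) × Fin d → unitInterval) :
    conf r (shU u U) = shift u (conf r U) := rfl

/-- the cluster of a point of the cluster at a larger parameter -/
theorem part_shift {p q : ℝ} (h : p ≤ q) (U : (Fin d → ℤ) × Fin d → unitInterval)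
    {x : Fin d → ℤ} (hx : x ∈ cf (conf q U)) :
    part (conf p U) (cf (conf q U)) x = (cf (conf p (shU x U))).map (addRightEmbedding x) := by
  have hx' := (mem_cf _ _).1 hx
  have hsub : cl (conf p (shU x U)) ⊆ (fun y => y - x) '' (cl (conf q U)) := by
    intro y hy
    refine ⟨y + x, ?_, by simp⟩
    have h1 : (opn (conf p U)).Reachable (0 + x) (y + x) := (shift_reach x _ 0 y).1 hy
    rw [zero_add] at h1
    exact SimpleGraph.Reachable.trans hx'.2 (h1.mono (conf_mono h U))
  have hfin : (cl (conf p (shU x U))).Finite := (hx'.1.image _).subset hsub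
  ext y
  rw [mem_part, Finset.mem_map]
  simp only [addRightEmbedding_apply]
  constructor
  · rintro ⟨h1, h2⟩
    refine ⟨y - x, (mem_cf _ _).2 ⟨hfin, ?_⟩, by simp⟩
    show (opn (shift x (conf p U))).Reachable 0 (y - x)
    rw [shift_reach]
    simpa using h2
  · rintro ⟨z, hz, rfl⟩
    have h1 : (opn (conf p U)).Reachable (0 + x) (z + x) :=
      (shift_reach x _ 0 z).1 ((mem_cf _ _).1 hz).2
    rw [zero_add] at h1
    refine ⟨(mem_cf _ _).2 ⟨hx'.1, ?_⟩, h1⟩
    exact SimpleGraph.Reachable.trans hx'.2 (h1.mono (conf_mono h U))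

/-- sums over the cluster of translation invariant functions of the smaller clusters -/
theorem sum_shift {p q : ℝ} (h : p ≤ q) (U : (Fin d → ℤ) × Fin d → unitInterval)
    (g : Finset (Fin d → ℤ) → ℝ) (hg : ∀ A u, g (A.map (addRightEmbedding u)) = g A) :
    ∑ x ∈ cf (conf q U), g (cf (conf p (shU x U))) =
      ∑ A ∈ parts (conf p U) (cf (conf q U)), (A.card : ℝ) * g A := by
  rw [← sum_parts]
  refine Finset.sum_congr rfl fun x hx => ?_
  rw [part_shift h U hx, hg]

open Classical in
/-- the mass sent to `x` -/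
noncomputable def wt (x : Fin d → ℤ) (ω : (Fin d → ℤ) × Fin d → Bool) : ENNReal :=
  if x ∈ cf ω then ((cf ω).card : ENNReal)⁻¹ else 0

theorem wt_shift (x : Fin d → ℤ) (ω : (Fin d → ℤ) × Fin d → Bool) :
    wt x ω = wt (-x) (shift x ω) := by
  classical
  by_cases hx : x ∈ cl ω
  · have h1 := cf_shift hx
    have h2 : (cf ω).card = (cf (shift x ω)).card := by rw [h1, Finset.card_map]
    have h3 : (0 : Fin d → ℤ) ∈ cf ω ↔ -x ∈ cf (shift x ω) := by
      rw [h1, Finset.mem_map]
      simp only [addRightEmbedding_apply]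
      constructor
      · rintro ⟨w, hw, h⟩
        have : w = -x := by rw [eq_neg_iff_add_eq_zero]; exact h
        rw [← this]; exact hw
      · intro h; exact ⟨-x, h, by simp⟩
    have h4 : x ∈ cf ω ↔ (0 : Fin d → ℤ) ∈ cf ω := by
      rw [mem_cf, mem_cf]
      exact ⟨fun h => ⟨h.1, zero_mem_cl ω⟩, fun h => ⟨h.1, hx⟩⟩
    unfold wt
    rw [h2]
    simp only [h4, h3]
  · have h1 : x ∉ cf ω := fun h => hx ((mem_cf _ _).1 h).2
    have h2 : -x ∉ cf (shift x ω) := by
      intro h
      have h3 := ((mem_cf _ _).1 h).2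
      have h4 : (opn ω).Reachable (0 + x) (-x + x) := (shift_reach x ω 0 (-x)).1 h3
      rw [zero_add, neg_add_cancel] at h4
      exact hx h4.symm
    unfold wt
    rw [if_neg h1, if_neg h2]

open Classical in
theorem wt_meas (x : Fin d → ℤ) : Measurable (wt x) := by
  have : wt x = (fun A : Finset (Fin d → ℤ) => if x ∈ A then ((A.card : ENNReal))⁻¹ else 0) ∘ cf :=
    rfl
  rw [this]
  exact (measurable_of_countable _).comp meas_cf

theorem tsum_wt (ω : (Fin d → ℤ) × Fin d → Bool) (G : (Fin d → ℤ) → ENNReal) :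
    ∑' x, wt x ω * G x = (∑ x ∈ cf ω, G x) / (cf ω).card := by
  classical
  rw [tsum_eq_sum (s := cf ω)]
  · rw [div_eq_mul_inv, Finset.sum_mul]
    refine Finset.sum_congr rfl fun x hx => ?_
    unfold wt
    rw [if_pos hx, mul_comm]
  · intro x hx
    unfold wt
    rw [if_neg hx, zero_mul]

theorem tsum_wt_neg (ω : (Fin d → ℤ) × Fin d → Bool) (h : (cl ω).Finite) (c : ENNReal) :
    ∑' x, wt (-x) ω * c = c := by
  classical
  have h1 := Equiv.tsum_eq (Equiv.neg (Fin d → ℤ)) (fun x => wt x ω * c)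
  simp only [Equiv.neg_apply] at h1
  rw [h1, tsum_wt, Finset.sum_const, nsmul_eq_mul]
  have h0 : (cf ω).card ≠ 0 :=
    Finset.card_ne_zero_of_mem ((mem_cf _ _).2 ⟨h, zero_mem_cl ω⟩)
  rw [mul_comm, mul_div_assoc, ENNReal.div_self (by exact_mod_cast h0) (ENNReal.natCast_ne_top _),
    mul_one]

/-- the average over the cluster at the parameter `q` -/
noncomputable def avg (q : ℝ) (G : ((Fin d → ℤ) × Fin d → unitInterval) → ENNReal)
    (U : (Fin d → ℤ) × Fin d → unitInterval) : ENNReal :=
  (∑ x ∈ cf (conf q U), G (shU x U)) / (cf (conf q U)).card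

/-- mass transport in the coupling -/
theorem lint_avg (q : ℝ) (G : ((Fin d → ℤ) × Fin d → unitInterval) → ENNReal) (hG : Measurable G)
    (hf : ∀ᵐ U ∂(LU d), (cl (conf q U)).Finite) :
    ∫⁻ U, avg q G U ∂(LU d) = ∫⁻ U, G U ∂(LU d) := by
  have h1 : ∀ U, avg q G U = ∑' x, wt x (conf q U) * G (shU x U) := fun U => (tsum_wt _ _).symm
  simp_rw [h1]
  have hm : ∀ x y : Fin d → ℤ, Measurable fun U => wt x (conf q U) * G (shU y U) := fun x y =>
    ((wt_meas x).comp (meas_conf q)).mul (hG.comp (meas_shU y))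
  rw [lintegral_tsum (fun x => (hm x x).aemeasurable)]
  have h2 : ∀ x : Fin d → ℤ, ∫⁻ U, wt x (conf q U) * G (shU x U) ∂(LU d) =
      ∫⁻ U, wt (-x) (conf q U) * G U ∂(LU d) := by
    intro x
    have h3 : Measurable fun U => wt (-x) (conf q U) * G U :=
      ((wt_meas (-x)).comp (meas_conf q)).mul hG
    conv_rhs => rw [← map_shU x]
    rw [lintegral_map h3 (meas_shU x)]
    refine lintegral_congr fun U => ?_
    rw [conf_shU, ← wt_shift]
  simp_rw [h2]
  have hm2 : ∀ x : Fin d → ℤ, Measurable fun U => wt (-x) (conf q U) * G U := fun x =>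
    ((wt_meas (-x)).comp (meas_conf q)).mul hG
  rw [← lintegral_tsum (fun x => (hm2 x).aemeasurable)]
  refine lintegral_congr_ae ?_
  filter_upwards [hf] with U hU
  exact tsum_wt_neg _ hU _

end Pool.Agent.J4.H67.PC
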