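import Pool.Agent.J4.H67.PC.Lone

/-!
The change of the exponential sums when the parts of a partition are merged.
-/

set_option autoImplicit false
set_option linter.deprecated false

namespace Pool.Agent.J4.H67.PC

open MeasureTheory Filter Topology
open Pool.Agent.Results.MP_54f242_pr.InfraredMean

variable {d : ℕ}

/-- the cross term of two disjoint sets -/
theorem ps_union {A B : Finset (Fin d → ℤ)} (h : Disjoint A B)
    (k : Fin d → ℝ) :
    ps (A ∪ B) k = ps A k + ps B k + 2 * (cS k A * cS k B + sS k A * sS k B) := by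
  unfold ps
  have h1 : cS k (A ∪ B) = cS k A + cS k B := by unfold cS; exact Finset.sum_union h
  have h2 : sS k (A ∪ B) = sS k A + sS k B := by unfold sS; exact Finset.sum_union h
  rw [h1, h2]; ring

theorem cross_le (A B : Finset (Fin d → ℤ)) (k : Fin d → ℝ) (t : ℝ) (ht : 0 < t) :
    |2 * (cS k A * cS k B + sS k A * sS k B)| ≤ t * ps A k + t⁻¹ * ps B k := by
  unfold ps
  have h1 : t⁻¹ * t = 1 := inv_mul_cancel₀ ht.ne'
  have h2 : ∀ a b : ℝ, |2 * (a * b)| ≤ t * a ^ 2 + t⁻¹ * b ^ 2 := by
    intro a b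
    have h3 : t * a ^ 2 + t⁻¹ * b ^ 2 - 2 * (a * b) = t⁻¹ * (t * a - b) ^ 2 := by
      field_simp
      ring
    have h4 : t * a ^ 2 + t⁻¹ * b ^ 2 + 2 * (a * b) = t⁻¹ * (t * a + b) ^ 2 := by
      field_simp
      ring
    have h5 : 0 ≤ t⁻¹ * (t * a - b) ^ 2 := by positivity
    have h6 : 0 ≤ t⁻¹ * (t * a + b) ^ 2 := by positivity
    rw [abs_le]
    constructor <;> linarith
  have h3 := h2 (cS k A) (cS k B)
  have h4 := h2 (sS k A) (sS k B)
  calc |2 * (cS k A * cS k B + sS k A * sS k B)|
      = |2 * (cS k A * cS k B) + 2 * (sS k A * sS k B)| := by congr 1; ring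
    _ ≤ |2 * (cS k A * cS k B)| + |2 * (sS k A * sS k B)| := abs_add_le _ _
    _ ≤ _ := by linarith

/-- the mean of the cross term -/
theorem int_cross (A B : Finset (Fin d → ℤ)) :
    ∫ k in cube d, |2 * (cS k A * cS k B + sS k A * sS k B)| ≤
      2 * (2 * Real.pi) ^ d * Real.sqrt (A.card * B.card) := by
  have hcont : Continuous fun k : Fin d → ℝ => |2 * (cS k A * cS k B + sS k A * sS k B)| := by
    unfold cS sS dot; fun_prop
  rcases Nat.eq_zero_or_pos A.card with h0 | ha
  · rw [Finset.card_eq_zero] at h0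
    subst h0
    have : ∀ k : Fin d → ℝ, |2 * (cS k (∅ : Finset (Fin d → ℤ)) * cS k B +
        sS k (∅ : Finset (Fin d → ℤ)) * sS k B)| = 0 := by
      intro k; simp [cS, sS]
    simp_rw [this]; simp
  rcases Nat.eq_zero_or_pos B.card with h0 | hb
  · rw [Finset.card_eq_zero] at h0
    subst h0
    have : ∀ k : Fin d → ℝ, |2 * (cS k A * cS k (∅ : Finset (Fin d → ℤ)) +
        sS k A * sS k (∅ : Finset (Fin d → ℤ)))| = 0 := by
      intro k; simp [cS, sS]
    simp_rw [this]; simp
  have ha' : (0 : ℝ) < A.card := by exact_mod_cast ha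
  have hb' : (0 : ℝ) < B.card := by exact_mod_cast hb
  set t : ℝ := Real.sqrt (B.card / A.card) with ht
  have ht0 : 0 < t := Real.sqrt_pos.2 (by positivity)
  have h1 : ∫ k in cube d, |2 * (cS k A * cS k B + sS k A * sS k B)| ≤
      ∫ k in cube d, (t * ps A k + t⁻¹ * ps B k) :=
    integral_mono (integrable_of_cont hcont)
      (((ps_int A).const_mul t).add ((ps_int B).const_mul t⁻¹)) fun k => cross_le A B k t ht0
  rw [integral_add ((ps_int A).const_mul t) ((ps_int B).const_mul t⁻¹), integral_const_mul,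
    integral_const_mul, int_ps, int_ps] at h1
  have h2 : t * A.card = Real.sqrt (A.card * B.card) := by
    rw [ht, Real.sqrt_div hb'.le, Real.sqrt_mul ha'.le]
    have h3 := Real.mul_self_sqrt ha'.le
    have h4 : Real.sqrt A.card ≠ 0 := (Real.sqrt_pos.2 ha').ne'
    field_simp
    nlinarith
  have h3 : t⁻¹ * B.card = Real.sqrt (A.card * B.card) := by
    rw [ht, Real.sqrt_div hb'.le, Real.sqrt_mul ha'.le, inv_div]
    have h3 := Real.mul_self_sqrt hb'.le
    have h4 : Real.sqrt B.card ≠ 0 := (Real.sqrt_pos.2 hb').ne'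
    field_simp
    nlinarith
  calc _ ≤ _ := h1
    _ = (2 * Real.pi) ^ d * (t * A.card) + (2 * Real.pi) ^ d * (t⁻¹ * B.card) := by ring
    _ = _ := by rw [h2, h3]; ring

/-- `n^{3/2}` -/
noncomputable def th (n : ℕ) : ℝ := n * Real.sqrt n

theorem th_add (a b : ℕ) : Real.sqrt (a * b) ≤ 2 * (th (a + b) - th a - th b) := by
  unfold th
  -- we may assume `b ≤ a`
  wlog hab : b ≤ a generalizing a b
  · have := this b a (by omega)
    rw [mul_comm (b : ℝ) a, add_comm b a] at this
    linarith
  rcases Nat.eq_zero_or_pos b with h0 | hb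
  · subst h0; simp
  have ha : 1 ≤ a := by omega
  have hb' : (1 : ℝ) ≤ b := by exact_mod_cast hb
  have ha' : (1 : ℝ) ≤ a := by exact_mod_cast ha
  have hab' : (b : ℝ) ≤ a := by exact_mod_cast hab
  set x := Real.sqrt a with hx
  set y := Real.sqrt b with hy
  set z := Real.sqrt ((a + b : ℕ) : ℝ) with hz
  have hx2 : x ^ 2 = a := Real.sq_sqrt (by positivity)
  have hy2 : y ^ 2 = b := Real.sq_sqrt (by positivity)
  have hz2 : z ^ 2 = a + b := by rw [hz, Real.sq_sqrt (by positivity)]; push_cast; ring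
  have hy1 : 1 ≤ y := by rw [hy]; exact Real.one_le_sqrt.2 hb'
  have hyx : y ≤ x := Real.sqrt_le_sqrt hab'
  have hz0 : 0 ≤ z := Real.sqrt_nonneg _
  have hs : Real.sqrt (a * b) = x * y := Real.sqrt_mul (by positivity) _
  rw [hs]
  push_cast
  rw [← hx2, ← hy2]
  have hz3 : z ^ 2 = x ^ 2 + y ^ 2 := by rw [hz2, hx2, hy2]
  have hx0 : 0 < x := by linarith
  have h1 : z ^ 3 - x ^ 3 - 3 / 2 * x * (z ^ 2 - x ^ 2) = (z - x) ^ 2 * (z + x / 2) := by ring
  have h2 : 0 ≤ (z - x) ^ 2 * (z + x / 2) := by positivity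
  have h3 : z ^ 3 = (x ^ 2 + y ^ 2) * z := by rw [← hz3]; ring
  have h4 : 0 ≤ x * y * (y - 1) := by
    have : 0 ≤ y - 1 := by linarith
    positivity
  have h5 : 0 ≤ y ^ 2 * (x - y) := by
    have : 0 ≤ x - y := by linarith
    positivity
  rw [hz3] at h1
  nlinarith

/-- merging the parts of a partition: the first bound -/
theorem merge_th (W : Finset (Finset (Fin d → ℤ))) (hdis : (W : Set (Finset (Fin d → ℤ))).PairwiseDisjoint id) :
    ∫ k in cube d, |ps (W.biUnion id) k - ∑ A ∈ W, ps A k| ≤
      4 * (2 * Real.pi) ^ d * (th (W.biUnion id).card - ∑ A ∈ W, th A.card) := by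
  classical
  induction W using Finset.induction_on with
  | empty =>
    have h0 : ∀ k : Fin d → ℝ, ps (∅ : Finset (Fin d → ℤ)) k = 0 := by
      intro k; simp [ps, cS, sS]
    simp [h0, th]
  | @insert A W hA ih =>
    have hdis' : (W : Set (Finset (Fin d → ℤ))).PairwiseDisjoint id :=
      hdis.subset (by simp)
    have ih := ih hdis'
    have hd : Disjoint A (W.biUnion id) := by
      rw [Finset.disjoint_biUnion_right]
      intro B hB
      exact hdis (by simp) (by simp [hB]) (fun h => hA (h ▸ hB))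
    have e1 : (insert A W).biUnion id = A ∪ W.biUnion id := by
      rw [Finset.biUnion_insert]; rfl
    rw [e1, Finset.sum_insert hA]
    set R := W.biUnion id with hR
    have hc : Continuous fun k : Fin d → ℝ => |2 * (cS k A * cS k R + sS k A * sS k R)| := by
      unfold cS sS dot; fun_prop
    have hc2 : Continuous fun k : Fin d → ℝ => |ps R k - ∑ A ∈ W, ps A k| :=
      ((ps_cont R).sub (continuous_finset_sum _ fun A _ => ps_cont A)).abs
    have h1 : ∫ k in cube d, |ps (A ∪ R) k - ∑ B ∈ insert A W, ps B k| ≤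
        ∫ k in cube d, (|2 * (cS k A * cS k R + sS k A * sS k R)| +
          |ps R k - ∑ A ∈ W, ps A k|) := by
      refine integral_mono (integrable_of_cont ?_) ((integrable_of_cont hc).add
        (integrable_of_cont hc2)) fun k => ?_
      · exact ((ps_cont _).sub (continuous_finset_sum _ fun A _ => ps_cont A)).abs
      · show |ps (A ∪ R) k - ∑ B ∈ insert A W, ps B k| ≤ _
        rw [ps_union hd, Finset.sum_insert hA]
        refine le_trans (le_of_eq ?_) (abs_add_le _ _)
        congr 1; ring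
    rw [integral_add (integrable_of_cont hc) (integrable_of_cont hc2)] at h1
    have h2 := int_cross A R
    have h3 : Real.sqrt (A.card * R.card) ≤
        2 * (th (A ∪ R).card - th A.card - th R.card) := by
      rw [Finset.card_union_of_disjoint hd]
      exact th_add A.card R.card
    have hpi : (0 : ℝ) < (2 * Real.pi) ^ d := by positivity
    have h4 := mul_le_mul_of_nonneg_left h3 hpi.le
    linarith

/-- merging the parts of a partition: the second bound, in terms of the largest part -/
theorem merge_max (W : Finset (Finset (Fin d → ℤ))) (hdis : (W : Set (Finset (Fin d → ℤ))).PairwiseDisjoint id)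
    (M : Finset (Fin d → ℤ)) (hM : M ∈ W) :
    ∫ k in cube d, |ps (W.biUnion id) k - ∑ A ∈ W, ps A k| ≤
      4 * (2 * Real.pi) ^ d * Real.sqrt ((W.biUnion id).card *
        (((W.biUnion id).card : ℝ) - M.card)) := by
  classical
  obtain ⟨Q, hMQ, rfl⟩ : ∃ Q, M ∉ Q ∧ W = insert M Q :=
    ⟨W.erase M, Finset.notMem_erase _ _, (Finset.insert_erase hM).symm⟩
  have hd : Disjoint M (Q.biUnion id) := by
    rw [Finset.disjoint_biUnion_right]
    intro B hB
    exact hdis (by simp) (by simp [hB]) (fun h => hMQ (h ▸ hB))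
  have e1 : (insert M Q).biUnion id = M ∪ Q.biUnion id := by
    rw [Finset.biUnion_insert]; rfl
  rw [e1]
  set R := Q.biUnion id with hR
  have hcard : ∑ A ∈ Q, (A.card : ℝ) = R.card := by
    rw [hR, Finset.card_biUnion (fun A hA B hB h => hdis (by simp [hA]) (by simp [hB]) h)]
    push_cast; rfl
  have hc : Continuous fun k : Fin d → ℝ => |2 * (cS k M * cS k R + sS k M * sS k R)| := by
    unfold cS sS dot; fun_prop
  have hi1 : Integrable (fun k => ∑ A ∈ Q, ps A k) (volume.restrict (cube d)) :=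
    integrable_finset_sum _ fun A _ => ps_int A
  have hi2 : Integrable (fun k => ps R k + ∑ A ∈ Q, ps A k) (volume.restrict (cube d)) :=
    (ps_int R).add hi1
  have h1 : ∫ k in cube d, |ps (M ∪ R) k - ∑ B ∈ insert M Q, ps B k| ≤
      ∫ k in cube d, (|2 * (cS k M * cS k R + sS k M * sS k R)| +
        (ps R k + ∑ A ∈ Q, ps A k)) := by
    refine integral_mono (integrable_of_cont ?_) ((integrable_of_cont hc).add hi2) fun k => ?_
    · exact ((ps_cont _).sub (continuous_finset_sum _ fun A _ => ps_cont A)).abs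
    · show |ps (M ∪ R) k - ∑ B ∈ insert M Q, ps B k| ≤
        |2 * (cS k M * cS k R + sS k M * sS k R)| + (ps R k + ∑ A ∈ Q, ps A k)
      rw [ps_union hd, Finset.sum_insert hMQ]
      have h2 := ps_nonneg R k
      have h3 : 0 ≤ ∑ A ∈ Q, ps A k := Finset.sum_nonneg fun A _ => ps_nonneg A k
      have h4 := abs_le.1 (le_refl |2 * (cS k M * cS k R + sS k M * sS k R)|)
      rw [abs_le]
      constructor <;> linarith
  rw [integral_add (integrable_of_cont hc) hi2, integral_add (ps_int R) hi1,
    integral_finset_sum _ (fun A _ => ps_int A)] at h1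
  simp_rw [int_ps] at h1
  rw [← Finset.mul_sum, hcard] at h1
  have h2 := int_cross M R
  have hpi : (0 : ℝ) < (2 * Real.pi) ^ d := by positivity
  rw [Finset.card_union_of_disjoint hd]
  push_cast
  have e2 : (M.card : ℝ) + R.card - M.card = R.card := by ring
  rw [e2]
  have hm0 : (0 : ℝ) ≤ M.card := Nat.cast_nonneg _
  have hr0 : (0 : ℝ) ≤ R.card := Nat.cast_nonneg _
  have h3 : Real.sqrt (M.card * R.card) ≤ Real.sqrt ((M.card + R.card) * R.card) :=
    Real.sqrt_le_sqrt (by nlinarith)
  have h4 : (R.card : ℝ) ≤ Real.sqrt ((M.card + R.card) * R.card) :=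
    Real.le_sqrt_of_sq_le (by nlinarith)
  have h5 := mul_le_mul_of_nonneg_left h3 hpi.le
  have h6 := mul_le_mul_of_nonneg_left h4 hpi.le
  linarith

end Pool.Agent.J4.H67.PC
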