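import Pool.Agent.Results.MP_54f242_pr.InfraredMean

/-!
A maximal inequality for the exponential sums over a chain of finite subsets of `ℤ^d` (in the manner of
Rademacher and Menshov).
-/

set_option autoImplicit false
set_option linter.deprecated false

namespace Pool.Agent.J4.H67.PC

open MeasureTheory Filter Topology
open Pool.Agent.Results.MP_54f242_pr.InfraredMean

variable {d : ℕ}

/-- the cosine sum over a finite set -/
noncomputable def cS (k : Fin d → ℝ) (A : Finset (Fin d → ℤ)) : ℝ := ∑ x ∈ A, Real.cos (dot k x)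

/-- the sine sum over a finite set -/
noncomputable def sS (k : Fin d → ℝ) (A : Finset (Fin d → ℤ)) : ℝ := ∑ x ∈ A, Real.sin (dot k x)

/-- `|∑_{x ∈ A} e^{i k x}|²` -/
noncomputable def ps (A : Finset (Fin d → ℤ)) (k : Fin d → ℝ) : ℝ := (cS k A) ^ 2 + (sS k A) ^ 2

theorem ps_nonneg (A : Finset (Fin d → ℤ)) (k : Fin d → ℝ) : 0 ≤ ps A k := by
  unfold ps; positivity

theorem ps_eq (A : Finset (Fin d → ℤ)) (k : Fin d → ℝ) :
    ps A k = ∑ x ∈ A, ∑ y ∈ A, Real.cos (dot k (y - x)) := by
  unfold ps cS sS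
  rw [sq, sq, Finset.sum_mul_sum, Finset.sum_mul_sum, ← Finset.sum_add_distrib]
  refine Finset.sum_congr rfl fun x _ => ?_
  rw [← Finset.sum_add_distrib]
  refine Finset.sum_congr rfl fun y _ => ?_
  rw [dot_sub, Real.cos_sub]
  ring

theorem ps_cont (A : Finset (Fin d → ℤ)) : Continuous (ps A) := by
  unfold ps cS sS dot; fun_prop

theorem cos_int (x : Fin d → ℤ) : Integrable (fun k : Fin d → ℝ => Real.cos (dot k x))
    (volume.restrict (cube d)) := by
  refine integrable_of_cont ?_
  unfold dot; fun_prop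

theorem ps_int (A : Finset (Fin d → ℤ)) : Integrable (ps A) (volume.restrict (cube d)) :=
  integrable_of_cont (ps_cont A)

/-- Parseval -/
theorem int_ps (A : Finset (Fin d → ℤ)) :
    ∫ k in cube d, ps A k = (2 * Real.pi) ^ d * A.card := by
  simp_rw [ps_eq]
  rw [integral_finset_sum _ (fun x _ => integrable_finset_sum _ (fun y _ => cos_int _))]
  have h : ∀ x ∈ A, ∫ k in cube d, ∑ y ∈ A, Real.cos (dot k (y - x)) = (2 * Real.pi) ^ d := by
    intro x hx
    rw [integral_finset_sum _ (fun y _ => cos_int _)]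
    simp_rw [int_cos, sub_eq_zero]
    rw [Finset.sum_ite_eq' , if_pos hx]
  rw [Finset.sum_congr rfl h, Finset.sum_const, nsmul_eq_mul, mul_comm]

theorem cS_sdiff (k : Fin d → ℝ) {A B : Finset (Fin d → ℤ)} (h : A ⊆ B) :
    cS k B - cS k A = cS k (B \ A) := by
  unfold cS
  rw [← Finset.sum_sdiff h]; ring

theorem sS_sdiff (k : Fin d → ℝ) {A B : Finset (Fin d → ℤ)} (h : A ⊆ B) :
    sS k B - sS k A = sS k (B \ A) := by
  unfold sS
  rw [← Finset.sum_sdiff h]; ring

/-- the sum over the dyadic blocks -/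
noncomputable def T (L : ℕ) (B : ℕ → Finset (Fin d → ℤ)) (k : Fin d → ℝ) : ℝ :=
  SS L (fun i => cS k (B i)) + SS L (fun i => sS k (B i))

theorem T_nonneg (L : ℕ) (B : ℕ → Finset (Fin d → ℤ)) (k : Fin d → ℝ) : 0 ≤ T L B k :=
  add_nonneg (SS_nonneg _ _) (SS_nonneg _ _)

theorem T_succ (L : ℕ) (B : ℕ → Finset (Fin d → ℤ)) (hB : Monotone B) (k : Fin d → ℝ) :
    T (L + 1) B k = ∑ i ∈ Finset.range (2 ^ (L + 1)), ps (B (i + 1) \ B i) k +
      T L (fun i => B (2 * i)) k := by
  unfold T ps
  rw [SS, SS, Finset.sum_add_distrib]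
  have h1 : ∀ i, (cS k (B (i + 1)) - cS k (B i)) ^ 2 = cS k (B (i + 1) \ B i) ^ 2 := fun i => by
    rw [cS_sdiff k (hB (Nat.le_succ i))]
  have h2 : ∀ i, (sS k (B (i + 1)) - sS k (B i)) ^ 2 = sS k (B (i + 1) \ B i) ^ 2 := fun i => by
    rw [sS_sdiff k (hB (Nat.le_succ i))]
  simp_rw [h1, h2]
  ring

theorem T_cont : ∀ (L : ℕ) (B : ℕ → Finset (Fin d → ℤ)), Monotone B → Continuous (T L B)
  | 0, _, _ => by
    unfold T; simp only [SS]; exact continuous_const
  | L + 1, B, hB => by
    have : T (L + 1) B = fun k => ∑ i ∈ Finset.range (2 ^ (L + 1)), ps (B (i + 1) \ B i) k +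
      T L (fun i => B (2 * i)) k := funext (T_succ L B hB)
    rw [this]
    refine Continuous.add (continuous_finset_sum _ fun i _ => ps_cont _)
      (T_cont L _ fun i j hij => hB (by omega))

theorem int_T : ∀ (L : ℕ) (B : ℕ → Finset (Fin d → ℤ)), Monotone B →
    ∫ k in cube d, T L B k ≤ L * ((2 * Real.pi) ^ d * (B (2 ^ L)).card)
  | 0, B, _ => by unfold T; simp [SS]
  | L + 1, B, hB => by
    have hB2 : Monotone fun i => B (2 * i) := fun i j hij => hB (by omega)
    have ih := int_T L (fun i => B (2 * i)) hB2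
    simp_rw [T_succ L B hB]
    rw [integral_add (integrable_finset_sum _ fun i _ => ps_int _)
      (integrable_of_cont (T_cont L _ hB2)), integral_finset_sum _ (fun i _ => ps_int _)]
    simp_rw [int_ps]
    rw [← Finset.mul_sum]
    have h1 : ∀ n : ℕ, ∑ i ∈ Finset.range n, ((B (i + 1) \ B i).card : ℝ) =
        (B n).card - (B 0).card := by
      intro n
      rw [← Finset.sum_range_sub (fun i => ((B i).card : ℝ))]
      refine Finset.sum_congr rfl fun i _ => ?_
      rw [Finset.card_sdiff_of_subset (hB (Nat.le_succ i)),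
        Nat.cast_sub (Finset.card_le_card (hB (Nat.le_succ i)))]
    rw [h1]
    have e : 2 * 2 ^ L = 2 ^ (L + 1) := by rw [pow_succ]; ring
    rw [e] at ih
    have hpi : 0 < (2 * Real.pi) ^ d := by positivity
    have h0 : (0 : ℝ) ≤ (B 0).card := Nat.cast_nonneg _
    push_cast
    nlinarith [mul_nonneg hpi.le h0]

/-- the chain of sets, indexed by the size -/
def bySize (A : ℕ → Finset (Fin d → ℤ)) (n s : ℕ) : Finset (Fin d → ℤ) :=
  ((Finset.range (n + 1)).filter (fun i => (A i).card ≤ s)).biUnion A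

theorem bySize_mono (A : ℕ → Finset (Fin d → ℤ)) (n : ℕ) : Monotone (bySize A n) := by
  intro s t hst
  refine Finset.biUnion_subset_biUnion_of_subset_left _ fun i hi => ?_
  rw [Finset.mem_filter] at hi ⊢
  exact ⟨hi.1, hi.2.trans hst⟩

theorem bySize_card (A : ℕ → Finset (Fin d → ℤ)) (n : ℕ)
    (hA : ∀ i j, i ≤ j → j ≤ n → A i ⊆ A j) (s : ℕ) : (bySize A n s).card ≤ s := by
  rcases ((Finset.range (n + 1)).filter (fun i => (A i).card ≤ s)).eq_empty_or_nonempty with h | h
  · unfold bySize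
    rw [h]; simp
  · obtain ⟨j, hj, hmax⟩ := Finset.exists_max_image _ (fun i => i) h
    rw [Finset.mem_filter, Finset.mem_range] at hj
    refine (Finset.card_le_card (t := A j) ?_).trans hj.2
    unfold bySize
    rw [Finset.biUnion_subset]
    intro i hi
    exact hA i j (hmax i hi) (by omega)

theorem bySize_self (A : ℕ → Finset (Fin d → ℤ)) (n : ℕ)
    (hA : ∀ i j, i ≤ j → j ≤ n → A i ⊆ A j) (i : ℕ) (hi : i ≤ n) :
    bySize A n (A i).card = A i := by
  apply Finset.Subset.antisymm
  · unfold bySize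
    rw [Finset.biUnion_subset]
    intro j hj
    rw [Finset.mem_filter, Finset.mem_range] at hj
    rcases le_total j i with h | h
    · exact hA j i h hi
    · exact (Finset.eq_of_subset_of_card_le (hA i j h (by omega)) hj.2).symm.subset
  · unfold bySize
    intro x hx
    rw [Finset.mem_biUnion]
    exact ⟨i, by rw [Finset.mem_filter, Finset.mem_range]; exact ⟨by omega, le_rfl⟩, hx⟩

theorem ps_le_T (A : ℕ → Finset (Fin d → ℤ)) (n : ℕ)
    (hA : ∀ i j, i ≤ j → j ≤ n → A i ⊆ A j) (i : ℕ) (hi : i ≤ n) (L : ℕ)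
    (hL : (A i).card < 2 ^ L) (k : Fin d → ℝ) : ps (A i) k ≤ L * T L (bySize A n) k := by
  have h1 := chain L (fun s => cS k (bySize A n s)) (A i).card hL
  have h2 := chain L (fun s => sS k (bySize A n s)) (A i).card hL
  have h0 : bySize A n 0 = ∅ := by
    have := bySize_card A n hA 0
    simpa using this
  simp only [h0, bySize_self A n hA i hi] at h1 h2
  have e1 : cS k (∅ : Finset (Fin d → ℤ)) = 0 := by simp [cS]
  have e2 : sS k (∅ : Finset (Fin d → ℤ)) = 0 := by simp [sS]
  rw [e1, sub_zero] at h1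
  rw [e2, sub_zero] at h2
  unfold ps T
  linarith

/-- The maximal inequality for a chain of finite sets. -/
theorem rm (A : ℕ → Finset (Fin d → ℤ)) (n : ℕ)
    (hA : ∀ i j, i ≤ j → j ≤ n → A i ⊆ A j) :
    ∃ D : (Fin d → ℝ) → ℝ, Continuous D ∧ (∀ k, 0 ≤ D k) ∧
      (∀ i ≤ n, ∀ k, ps (A i) k / (A i).card ≤ D k) ∧
      ∫ k in cube d, D k ≤ (2 * Real.pi) ^ d * (2 * ((Nat.log 2 (A n).card + 1 : ℕ) : ℝ) ^ 3) := by
  set Λ := Nat.log 2 (A n).card + 1 with hΛ
  have hBm := bySize_mono A n
  refine ⟨fun k => ∑ L ∈ Finset.range (Λ + 1), (2 / 2 ^ L : ℝ) * (L * T L (bySize A n) k),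
    continuous_finset_sum _ fun L _ => continuous_const.mul
      (continuous_const.mul (T_cont L _ hBm)), fun k => Finset.sum_nonneg fun L _ => ?_, ?_, ?_⟩
  · have := T_nonneg L (bySize A n) k
    positivity
  · intro i hi k
    rcases Nat.eq_zero_or_pos (A i).card with h0 | h0
    · rw [h0, Nat.cast_zero, div_zero]
      refine Finset.sum_nonneg fun L _ => ?_
      have := T_nonneg L (bySize A n) k
      positivity
    · set L := Nat.log 2 (A i).card + 1 with hL
      have hlt : (A i).card < 2 ^ L := Nat.lt_pow_succ_log_self (by norm_num) _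
      have hge : 2 ^ (L - 1) ≤ (A i).card := by
        rw [hL, Nat.add_sub_cancel]
        exact Nat.pow_log_le_self 2 h0.ne'
      have hLΛ : L ≤ Λ := by
        have := Nat.log_mono_right (b := 2) (Finset.card_le_card (hA i n hi le_rfl))
        omega
      have h1 := ps_le_T A n hA i hi L hlt k
      have h2 : (2 / 2 ^ L : ℝ) * (L * T L (bySize A n) k) ≤
          ∑ L ∈ Finset.range (Λ + 1), (2 / 2 ^ L : ℝ) * (L * T L (bySize A n) k) := by
        refine Finset.single_le_sum (f := fun L => (2 / 2 ^ L : ℝ) * (L * T L (bySize A n) k))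
          (fun L _ => ?_) (Finset.mem_range.2 (Nat.lt_succ_of_le hLΛ))
        have := T_nonneg L (bySize A n) k
        positivity
      refine le_trans ?_ h2
      have hc : (0 : ℝ) < (A i).card := by exact_mod_cast h0
      have hT : 0 ≤ L * T L (bySize A n) k := by
        have := T_nonneg L (bySize A n) k
        positivity
      have hge' : (2 : ℝ) ^ L / 2 ≤ (A i).card := by
        have h3 : (2 : ℝ) ^ L / 2 = ((2 ^ (L - 1) : ℕ) : ℝ) := by
          rw [hL, Nat.add_sub_cancel, pow_succ]; push_cast; ring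
        rw [h3]; exact_mod_cast hge
      calc ps (A i) k / (A i).card ≤ (L * T L (bySize A n) k) / (A i).card :=
            div_le_div_of_nonneg_right h1 hc.le
        _ ≤ (L * T L (bySize A n) k) / ((2 : ℝ) ^ L / 2) :=
            div_le_div_of_nonneg_left hT (by positivity) hge'
        _ = (2 / 2 ^ L : ℝ) * (L * T L (bySize A n) k) := by field_simp
  · have hint : ∀ L, Integrable (fun k => (2 / 2 ^ L : ℝ) * (L * T L (bySize A n) k))
        (volume.restrict (cube d)) := fun L =>
      integrable_of_cont (continuous_const.mul (continuous_const.mul (T_cont L _ hBm)))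
    rw [integral_finset_sum _ (fun L _ => hint L)]
    have h1 : ∀ L ∈ Finset.range (Λ + 1), ∫ k in cube d,
        (2 / 2 ^ L : ℝ) * (L * T L (bySize A n) k) ≤ (2 * Real.pi) ^ d * (2 * (Λ : ℝ) ^ 2) *
          (if L = 0 then 0 else 1) := by
      intro L hL
      rw [integral_const_mul, integral_const_mul]
      split_ifs with h0
      · subst h0; simp
      have h2 := int_T L (bySize A n) hBm
      have h3 : ((bySize A n (2 ^ L)).card : ℝ) ≤ 2 ^ L := by
        exact_mod_cast bySize_card A n hA (2 ^ L)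
      have hLΛ : (L : ℝ) ≤ Λ := by
        have := Finset.mem_range.1 hL
        exact_mod_cast (by omega : L ≤ Λ)
      have hL0 : (0 : ℝ) ≤ L := Nat.cast_nonneg L
      have hpi : 0 < (2 * Real.pi) ^ d := by positivity
      have h4 : ∫ k in cube d, T L (bySize A n) k ≤ L * ((2 * Real.pi) ^ d * 2 ^ L) :=
        h2.trans (by gcongr)
      calc (2 / 2 ^ L : ℝ) * (L * ∫ k in cube d, T L (bySize A n) k)
          ≤ (2 / 2 ^ L : ℝ) * (L * (L * ((2 * Real.pi) ^ d * 2 ^ L))) := by gcongr
        _ = (2 * Real.pi) ^ d * (2 * (L : ℝ) ^ 2) := by field_simp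
        _ ≤ (2 * Real.pi) ^ d * (2 * (Λ : ℝ) ^ 2) * 1 := by rw [mul_one]; gcongr
    refine (Finset.sum_le_sum h1).trans ?_
    rw [← Finset.mul_sum]
    have h2 : ∑ L ∈ Finset.range (Λ + 1), (if L = 0 then (0 : ℝ) else 1) = Λ := by
      rw [Finset.sum_range_succ']
      simp
    rw [h2]
    exact le_of_eq (by ring)

end Pool.Agent.J4.H67.PC
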