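import Pool.Agent.J4.H67.PC.Var

/-!
The total variation of the spectral densities in the parameter.
-/

set_option autoImplicit false
set_option linter.deprecated false

namespace Pool.Agent.J4.H67.PC

open MeasureTheory Filter Topology
open Pool.Agent.Results.MP_54f242_pr.InfraredMean

variable {d : ℕ}

/-- the distance of two extended numbers -/
noncomputable def dl (a b : ENNReal) : ENNReal := (a - b) + (b - a)

theorem dl_self (a : ENNReal) : dl a a = 0 := by
  unfold dl; simp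

theorem dl_tri (a b c : ENNReal) : dl a c ≤ dl a b + dl b c := by
  unfold dl
  calc (a - c) + (c - a) ≤ ((a - b) + (b - c)) + ((c - b) + (b - a)) :=
        add_le_add tsub_le_tsub_add_tsub tsub_le_tsub_add_tsub
    _ = _ := by ring

theorem dl_ofReal {a b : ℝ} (ha : 0 ≤ a) (hb : 0 ≤ b) :
    dl (ENNReal.ofReal a) (ENNReal.ofReal b) = ENNReal.ofReal |a - b| := ofReal_abs_sub a b ha hb

theorem dl_le {a b c : ENNReal} (h1 : a ≤ b + c) (h2 : b ≤ a + c) : dl a b ≤ c := by
  unfold dl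
  rcases le_total a b with h | h
  · rw [tsub_eq_zero_of_le h, zero_add]
    exact tsub_le_iff_left.2 h2
  · rw [tsub_eq_zero_of_le h, add_zero]
    exact tsub_le_iff_left.2 h1

theorem dl_Ico (g : ℕ → ENNReal) (a b : ℕ) (h : a ≤ b) :
    dl (g a) (g b) ≤ ∑ l ∈ Finset.Ico a b, dl (g l) (g (l + 1)) := by
  induction b, h using Nat.le_induction with
  | base => rw [dl_self]; exact zero_le
  | succ b hb ih =>
    rw [Finset.sum_Ico_succ_top hb]
    exact (dl_tri _ (g b) _).trans (by gcongr)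

theorem dl_chain (g : ℕ → ENNReal) (j : ℕ → ℕ) (hj : Monotone j) (m : ℕ) :
    ∑ i ∈ Finset.range m, dl (g (j i)) (g (j (i + 1))) ≤
      ∑ l ∈ Finset.Ico (j 0) (j m), dl (g l) (g (l + 1)) := by
  induction m with
  | zero => simp
  | succ m ih =>
    rw [Finset.sum_range_succ, ← Finset.sum_Ico_consecutive _ (hj (Nat.zero_le m)) (hj (Nat.le_succ m))]
    exact add_le_add ih (dl_Ico g _ _ (hj (Nat.le_succ m)))

/-- the density as a function of a real parameter -/
noncomputable def ff (d : ℕ) (r : ℝ) (k : Fin d → ℝ) : ENNReal :=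
  ∫⁻ U, FF (cf (conf r U)) k ∂(LU d)

theorem ff_meas (r : ℝ) : Measurable (ff d r) := by
  unfold ff
  exact (meas_joint (d := d) r).lintegral_prod_left'

/-- left continuity -/
theorem ff_left (p : NNReal) (hp : p ≤ 1) (hf : ∀ᵐ ω ∂(P d p hp), (cl ω).Finite) (k : Fin d → ℝ)
    (q : ℝ) (hpq : (p : ℝ) ≤ q) (hM : MM d q k ≠ ⊤) (u : ℕ → ℝ) (hu : ∀ n, u n ≤ p)
    (hlim : Tendsto u atTop (𝓝 p)) : Tendsto (fun n => ff d (u n) k) atTop (𝓝 (ff d p k)) := by
  unfold ff
  have hm : ∀ r : ℝ, Measurable fun U : (Fin d → ℤ) × Fin d → unitInterval => FF (cf (conf r U)) k :=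
    fun r => comp_left (F := fun (U : (Fin d → ℤ) × Fin d → unitInterval) (k : Fin d → ℝ) =>
      FF (cf (conf r U)) k) (meas_joint (d := d) r) k
  refine tendsto_lintegral_of_dominated_convergence (fun U => SM q U k) (fun n => hm _)
    (fun n => Eventually.of_forall fun U => FF_le_SM ((hu n).trans hpq) U k) hM ?_
  filter_upwards [fin_U p hp hf] with U hU
  have h1 : ∀ᶠ r in 𝓝[≤] (p : ℝ), cl (conf r U) = cl (conf p U) := by
    have h2 := cl_left hU
    rw [← Set.Iio_insert, nhdsWithin_insert]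
    exact Filter.eventually_sup.2 ⟨by simp, h2⟩
  have h2 : Tendsto u atTop (𝓝[≤] (p : ℝ)) :=
    tendsto_nhdsWithin_iff.2 ⟨hlim, Eventually.of_forall hu⟩
  refine tendsto_const_nhds.congr' ?_
  filter_upwards [h2.eventually h1] with n hn
  rw [cf_congr hn]

/-- the points of the dyadic grid -/
noncomputable def gr (q : ℝ) (n l : ℕ) : ℝ := (l : ℝ) / 2 ^ n * q

/-- the variation along the grid -/
noncomputable def VN (d : ℕ) (q : ℝ) (n : ℕ) (k : Fin d → ℝ) : ENNReal :=
  ∑ l ∈ Finset.range (2 ^ n), dl (ff d (gr q n l) k) (ff d (gr q n (l + 1)) k)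

/-- the variation along all grids -/
noncomputable def VV (d : ℕ) (q : ℝ) (k : Fin d → ℝ) : ENNReal := ⨆ n, VN d q n k

theorem VN_meas (q : ℝ) (n : ℕ) : Measurable (VN d q n) := by
  unfold VN dl
  refine Finset.measurable_sum _ fun l _ => ?_
  exact ((ff_meas _).sub (ff_meas _)).add ((ff_meas _).sub (ff_meas _))

theorem VV_meas (q : ℝ) : Measurable (VV d q) := by
  unfold VV
  exact Measurable.iSup fun n => VN_meas q n

theorem gr_double (q : ℝ) (n l : ℕ) : gr q (n + 1) (2 * l) = gr q n l := by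
  unfold gr
  push_cast
  rw [pow_succ]
  field_simp

theorem VN_mono (q : ℝ) (k : Fin d → ℝ) : Monotone fun n => VN d q n k := by
  refine monotone_nat_of_le_succ fun n => ?_
  have h := dl_chain (fun l => ff d (gr q (n + 1) l) k) (fun i => 2 * i)
    (fun i j hij => by simpa using hij) (2 ^ n)
  simp only [gr_double, mul_zero] at h
  have e : 2 * 2 ^ n = 2 ^ (n + 1) := by rw [pow_succ]; ring
  rw [e, ← Finset.range_eq_Ico] at h
  exact h

/-- the parameters of the grid -/
noncomputable def grN (q : NNReal) (n l : ℕ) : NNReal := (l : NNReal) / 2 ^ n * q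

theorem gr_coe (q : NNReal) (n l : ℕ) : ((grN q n l : NNReal) : ℝ) = gr q n l := by
  unfold grN gr; push_cast; rfl

theorem grN_le (q : NNReal) (n l : ℕ) (hl : l ≤ 2 ^ n) : grN q n l ≤ q := by
  unfold grN
  refine mul_le_of_le_one_left zero_le ?_
  rw [div_le_one (by positivity)]
  exact_mod_cast hl

theorem grN_mono (q : NNReal) (n : ℕ) {l m : ℕ} (h : l ≤ m) : grN q n l ≤ grN q n m := by
  unfold grN
  gcongr

theorem ff_dens (q : NNReal) (hq : q ≤ 1) (k : Fin d → ℝ) : ff d q k = dens d q hq k :=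
  (dens_U q hq k).symm

theorem fin_mono (p q : NNReal) (hp : p ≤ 1) (hq : q ≤ 1) (h : p ≤ q)
    (hf : ∀ᵐ ω ∂(P d q hq), (cl ω).Finite) : ∀ᵐ ω ∂(P d p hp), (cl ω).Finite := by
  have h1 := fin_U q hq hf
  have h2 : ∀ᵐ U ∂(LU d), (cl (conf (p : ℝ) U)).Finite := by
    filter_upwards [h1] with U hU
    exact hU.subset (cl_mono (by exact_mod_cast h) U)
  rw [← map_conf p hp]
  exact (ae_map_iff (meas_conf p).aemeasurable meas_fin).2 h2

/-- the variation along the grid in mean -/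
theorem int_VN (q : NNReal) (hq : q ≤ 1) (hf : ∀ᵐ ω ∂(P d q hq), (cl ω).Finite) (n : ℕ) :
    ∫⁻ k in cube d, VN d q n k ≤
      ENNReal.ofReal (4 * (2 * Real.pi) ^ d) * ∫⁻ ω, sq ω ∂(P d q hq) := by
  have key : ∀ m : ℕ, (hm : m ≤ 2 ^ n) →
      (∫⁻ k in cube d, ∑ l ∈ Finset.range m, dl (ff d (gr q n l) k) (ff d (gr q n (l + 1)) k)) ≤
      ENNReal.ofReal (4 * (2 * Real.pi) ^ d) *
        ∫⁻ ω, sq ω ∂(P d (grN q n m) ((grN_le q n m hm).trans hq)) := by
    intro m
    induction m with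
    | zero => intro hm; simp
    | succ m ih =>
      intro hm
      have hm' : m ≤ 2 ^ n := by omega
      have h1 := ih hm'
      have hms : ∀ l, Measurable fun k : Fin d → ℝ =>
          dl (ff d (gr q n l) k) (ff d (gr q n (l + 1)) k) := by
        intro l
        unfold dl
        exact ((ff_meas _).sub (ff_meas _)).add ((ff_meas _).sub (ff_meas _))
      simp_rw [Finset.sum_range_succ]
      rw [lintegral_add_left (Finset.measurable_sum _ fun l _ => hms l)]
      have hfm : ∀ᵐ ω ∂(P d (grN q n (m + 1)) ((grN_le q n (m + 1) hm).trans hq)), (cl ω).Finite :=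
        fin_mono _ q _ hq (grN_le q n (m + 1) hm) hf
      have h2 := modulus_sq (d := d) (grN q n m) (grN q n (m + 1)) ((grN_le q n m hm').trans hq)
        ((grN_le q n (m + 1) hm).trans hq) (grN_mono q n (Nat.le_succ m)) hfm
      have h3 : ∫⁻ k in cube d, dl (ff d (gr q n m) k) (ff d (gr q n (m + 1)) k) ≤
          ∫⁻ k in cube d, DD d (grN q n m) (grN q n (m + 1)) k := by
        refine lintegral_mono fun k => ?_
        have h4 := dens_DD (d := d) (grN q n m) (grN q n (m + 1)) ((grN_le q n m hm').trans hq)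
          ((grN_le q n (m + 1) hm).trans hq) hfm k
        rw [← gr_coe, ← gr_coe, ff_dens _ ((grN_le q n m hm').trans hq),
          ff_dens _ ((grN_le q n (m + 1) hm).trans hq)]
        exact dl_le h4.2 h4.1
      calc _ ≤ ENNReal.ofReal (4 * (2 * Real.pi) ^ d) *
            ∫⁻ ω, sq ω ∂(P d (grN q n m) ((grN_le q n m hm').trans hq)) +
            ∫⁻ k in cube d, DD d (grN q n m) (grN q n (m + 1)) k := add_le_add h1 h3
        _ ≤ _ := by rw [add_comm]; exact h2
  have h := key (2 ^ n) le_rfl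
  have e : grN q n (2 ^ n) = q := by
    unfold grN
    push_cast
    rw [div_self (by positivity), one_mul]
  unfold VN
  refine h.trans (le_of_eq ?_)
  congr 1
  simp only [e]

theorem int_VV (q : NNReal) (hq : q ≤ 1) (hf : ∀ᵐ ω ∂(P d q hq), (cl ω).Finite) :
    ∫⁻ k in cube d, VV d q k ≤
      ENNReal.ofReal (4 * (2 * Real.pi) ^ d) * ∫⁻ ω, sq ω ∂(P d q hq) := by
  unfold VV
  rw [lintegral_iSup (fun n => VN_meas _ n) (fun i j hij k => VN_mono (q : ℝ) k hij)]
  exact iSup_le fun n => int_VN q hq hf n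

/-- the grid point below `r` -/
noncomputable def fl (q : NNReal) (n : ℕ) (r : NNReal) : ℕ := ⌊(r : ℝ) / q * 2 ^ n⌋₊

theorem dl_cont : ∀ a b : ENNReal, a ≠ ⊤ → b ≠ ⊤ → Tendsto (fun z : ENNReal × ENNReal => dl z.1 z.2)
    (𝓝 (a, b)) (𝓝 (dl a b)) := by
  intro a b ha hb
  unfold dl
  have h1 : Tendsto (fun z : ENNReal × ENNReal => z.1 - z.2) (𝓝 (a, b)) (𝓝 (a - b)) :=
    ENNReal.Tendsto.sub (continuous_fst.tendsto _) (continuous_snd.tendsto _) (Or.inl ha)
  have h2 : Tendsto (fun z : ENNReal × ENNReal => z.2 - z.1) (𝓝 (a, b)) (𝓝 (b - a)) :=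
    ENNReal.Tendsto.sub (continuous_snd.tendsto _) (continuous_fst.tendsto _) (Or.inl hb)
  exact h1.add h2

/-- the variation along all sequences -/
theorem var_le (q : NNReal) (hq : q ≤ 1) (hf : ∀ᵐ ω ∂(P d q hq), (cl ω).Finite) (k : Fin d → ℝ)
    (hM : MM d q k ≠ ⊤) (m : ℕ) (p : ℕ → NNReal) (hmono : Monotone p) (hpq : ∀ i, p i ≤ q) :
    ∑ i ∈ Finset.range m, dl (ff d (p i) k) (ff d (p (i + 1)) k) ≤ VV d q k := by
  rcases eq_or_ne q 0 with h0 | h0
  · subst h0
    have h1 : ∀ i, p i = 0 := fun i => le_antisymm (hpq i) zero_le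
    simp only [h1, dl_self, Finset.sum_const_zero]
    exact zero_le
  have hq0 : (0 : ℝ) < q := by
    have : 0 < q := pos_iff_ne_zero.2 h0
    exact_mod_cast this
  -- approximation by the grid points
  have hfl : ∀ n r, r ≤ q → gr q n (fl q n r) ≤ r := by
    intro n r hr
    unfold gr fl
    have h1 : ((⌊(r : ℝ) / q * 2 ^ n⌋₊ : ℕ) : ℝ) ≤ (r : ℝ) / q * 2 ^ n := Nat.floor_le (by positivity)
    calc ((⌊(r : ℝ) / q * 2 ^ n⌋₊ : ℕ) : ℝ) / 2 ^ n * q ≤ ((r : ℝ) / q * 2 ^ n) / 2 ^ n * q := by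
          gcongr
      _ = r := by field_simp
  have hfl2 : ∀ (n : ℕ) (r : NNReal), (r : ℝ) - q / 2 ^ n ≤ gr q n (fl q n r) := by
    intro n r
    unfold gr fl
    have h1 : (r : ℝ) / q * 2 ^ n - 1 ≤ ((⌊(r : ℝ) / q * 2 ^ n⌋₊ : ℕ) : ℝ) := (Nat.sub_one_lt_floor _).le
    calc (r : ℝ) - q / 2 ^ n = ((r : ℝ) / q * 2 ^ n - 1) / 2 ^ n * q := by field_simp
      _ ≤ _ := by gcongr
  have hlim : ∀ r, r ≤ q → Tendsto (fun n => gr q n (fl q n r)) atTop (𝓝 (r : ℝ)) := by
    intro r hr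
    refine tendsto_of_tendsto_of_tendsto_of_le_of_le (g := fun n : ℕ => (r : ℝ) - q / 2 ^ n)
      (h := fun _ => (r : ℝ)) ?_ tendsto_const_nhds (fun n => hfl2 n r) (fun n => hfl n r hr)
    have h1 : Tendsto (fun n : ℕ => (q : ℝ) * (1 / 2) ^ n) atTop (𝓝 (q * 0)) :=
      (tendsto_pow_atTop_nhds_zero_of_lt_one (by norm_num) (by norm_num)).const_mul _
    have h2 : Tendsto (fun n : ℕ => (r : ℝ) - (q : ℝ) * (1 / 2) ^ n) atTop (𝓝 (r - q * 0)) :=
      tendsto_const_nhds.sub h1
    rw [mul_zero, sub_zero] at h2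
    refine h2.congr fun n => ?_
    rw [one_div, inv_pow, div_eq_mul_inv]
  have hff : ∀ r (hr : r ≤ q), Tendsto (fun n => ff d (gr q n (fl q n r)) k) atTop (𝓝 (ff d r k)) :=
    fun r hr => ff_left r (hr.trans hq) (fin_mono r q _ hq hr hf) k q (by exact_mod_cast hr) hM _
      (fun n => hfl n r hr) (hlim r hr)
  have hfin : ∀ r, r ≤ q → ff d r k ≠ ⊤ := by
    intro r hr
    refine ne_top_of_le_ne_top hM ?_
    rw [ff_dens r (hr.trans hq)]
    exact dens_le_MM r (hr.trans hq) q (by exact_mod_cast hr) k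
  have hT : Tendsto (fun n => ∑ i ∈ Finset.range m, dl (ff d (gr q n (fl q n (p i))) k)
      (ff d (gr q n (fl q n (p (i + 1)))) k)) atTop
      (𝓝 (∑ i ∈ Finset.range m, dl (ff d (p i) k) (ff d (p (i + 1)) k))) := by
    refine tendsto_finset_sum _ fun i _ => ?_
    exact (dl_cont _ _ (hfin _ (hpq i)) (hfin _ (hpq (i + 1)))).comp
      ((hff _ (hpq i)).prodMk_nhds (hff _ (hpq (i + 1))))
  refine le_of_tendsto' hT fun n => ?_
  have hj : Monotone fun i => fl q n (p i) := by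
    intro i j hij
    unfold fl
    refine Nat.floor_le_floor ?_
    have : (p i : ℝ) ≤ p j := by exact_mod_cast hmono hij
    gcongr
  have h1 := dl_chain (fun l => ff d (gr q n l) k) (fun i => fl q n (p i)) hj m
  refine h1.trans (le_trans ?_ (le_iSup (fun n => VN d q n k) n))
  unfold VN
  refine Finset.sum_le_sum_of_subset fun l hl => ?_
  rw [Finset.mem_Ico] at hl
  rw [Finset.mem_range]
  refine lt_of_lt_of_le hl.2 ?_
  unfold fl
  refine Nat.floor_le_of_le ?_
  have : (p m : ℝ) / q ≤ 1 := by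
    rw [div_le_one hq0]; exact_mod_cast hpq m
  push_cast
  have h2 : (0 : ℝ) < 2 ^ n := by positivity
  nlinarith

end Pool.Agent.J4.H67.PC
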