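import Pool.Agent.J4.H67.PC.Tv

/-!
The total variation of the two-point function in the parameter, for almost every wave vector.
-/

set_option autoImplicit false
set_option linter.deprecated false

namespace Pool.Agent.J4.H67.PC

open MeasureTheory Filter Topology
open Pool.Agent.Results.MP_54f242_pr.InfraredMean

variable {d : ℕ}

theorem MM_fin (q : NNReal) (hq : q ≤ 1) (hs : Summable (tau d q hq)) :
    ∀ᵐ k ∂(volume.restrict (cube d)), MM d q k < ⊤ :=
  ae_lt_top (MM_meas _) (ne_top_of_le_ne_top ENNReal.ofReal_ne_top (int_MM_chi q hq hs))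

theorem VV_mono (p q : NNReal) (hq : q ≤ 1) (h : p ≤ q) (hf : ∀ᵐ ω ∂(P d q hq), (cl ω).Finite)
    (k : Fin d → ℝ) (hM : MM d q k ≠ ⊤) : VV d p k ≤ VV d q k := by
  refine iSup_le fun n => ?_
  have h1 := var_le q hq hf k hM (2 ^ n) (fun i => grN p n (min i (2 ^ n)))
    (fun i j hij => grN_mono p n (min_le_min_right _ hij))
    (fun i => (grN_le p n _ (min_le_right _ _)).trans h)
  refine le_trans (le_of_eq ?_) h1
  unfold VN
  refine Finset.sum_congr rfl fun l hl => ?_
  rw [Finset.mem_range] at hl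
  rw [gr_coe, gr_coe, min_eq_left hl.le, min_eq_left (by omega : l + 1 ≤ 2 ^ n)]

/-- the variation for all parameters with `E √|C| ≤ X` -/
theorem sup_var (X : ℝ) (hX : 1 ≤ X) : ∃ V : (Fin d → ℝ) → ENNReal, Measurable V ∧
    (∫⁻ k in cube d, V k ≤ ENNReal.ofReal (4 * (2 * Real.pi) ^ d * X)) ∧
    ∀ᵐ k ∂(volume.restrict (cube d)), ∀ (q : NNReal) (hq : q ≤ 1), Summable (tau d q hq) →
      ∫⁻ ω, sq ω ∂(P d q hq) ≤ ENNReal.ofReal X → ∀ (m : ℕ) (p : ℕ → NNReal), Monotone p →
        (∀ i, p i ≤ q) → ∑ i ∈ Finset.range m, dl (ff d (p i) k) (ff d (p (i + 1)) k) ≤ V k := by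
  set S : Set ℝ := {r | ∃ (q : NNReal) (hq : q ≤ 1), Summable (tau d q hq) ∧
    ∫⁻ ω, sq ω ∂(P d q hq) ≤ ENNReal.ofReal X ∧ (q : ℝ) = r} with hS
  have hsq0 : ∫⁻ ω, sq ω ∂(P d 0 zero_le_one) ≤ ENNReal.ofReal X := by
    have h1 : ∀ᵐ U ∂(LU d), sq (conf (d := d) ((0 : NNReal) : ℝ) U) ≤ 1 := by
      refine Eventually.of_forall fun U => ?_
      have h2 : cl (conf ((0 : NNReal) : ℝ) U) ⊆ {0} := by
        intro x hx
        have hbot : opn (conf ((0 : NNReal) : ℝ) U) = ⊥ := by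
          ext a b
          have hno : ∀ e, conf 0 U e = false := fun e => by
            rw [← Bool.not_eq_true]
            intro he
            have := (conf_true _ _ _).1 he
            have h3 := (U e).2.1
            linarith
          simp [opn, SimpleGraph.fromRel_adj, hno]
        have hx' : (opn (conf ((0 : NNReal) : ℝ) U)).Reachable 0 x := hx
        rw [hbot, SimpleGraph.reachable_bot] at hx'
        rw [Set.mem_singleton_iff]; exact hx'.symm
      have h3 : (cf (conf ((0 : NNReal) : ℝ) U)).card ≤ 1 := by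
        have h4 : cf (conf ((0 : NNReal) : ℝ) U) ⊆ {0} := by
          intro x hx
          rw [Finset.mem_singleton]
          exact h2 ((mem_cf _ _).1 hx).2
        simpa using Finset.card_le_card h4
      unfold sq
      rw [ENNReal.ofReal_le_one, Real.sqrt_le_one]
      exact_mod_cast h3
    rw [← lint_conf 0 zero_le_one sq sq_meas]
    refine (lintegral_mono_ae h1).trans ?_
    simp only [lintegral_const, measure_univ, mul_one]
    rw [← ENNReal.ofReal_one]
    exact ENNReal.ofReal_le_ofReal hX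
  have hne : S.Nonempty := ⟨0, 0, zero_le_one, (p0 d).2.choose_spec, hsq0, by simp⟩
  have hb : BddAbove S := ⟨1, by
    rintro r ⟨q, hq, -, -, rfl⟩
    exact_mod_cast hq⟩
  obtain ⟨u, hu1, hu2, hu3⟩ := exhaust S hne hb
  choose qq hqq hqs hqX hqe using hu2
  have hmono : ∀ i j, i ≤ j → qq i ≤ qq j := by
    intro i j hij
    have := hu1 hij
    rw [← hqe i, ← hqe j] at this
    exact_mod_cast this
  have hMM : ∀ᵐ k ∂(volume.restrict (cube d)), ∀ n, MM d (qq n) k < ⊤ :=
    ae_all_iff.2 fun n => MM_fin (qq n) (hqq n) (hqs n)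
  refine ⟨fun k => ⨆ n, VV d (qq n) k, Measurable.iSup fun n => VV_meas _, ?_, ?_⟩
  · rw [lintegral_iSup_ae (fun n => VV_meas _) (fun n => ?_)]
    · refine iSup_le fun n => ?_
      refine (int_VV (qq n) (hqq n) (ae_fin _ _ (hqs n))).trans ?_
      refine (mul_le_mul_right (hqX n) _).trans ?_
      rw [← ENNReal.ofReal_mul (by positivity)]
    · filter_upwards [hMM] with k hk
      exact VV_mono (qq n) (qq (n + 1)) (hqq _) (hmono _ _ (Nat.le_succ n))
        (ae_fin _ _ (hqs _)) k (hk _).ne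
  · filter_upwards [hMM] with k hk q hq hs hχ m p hp hpq
    obtain ⟨n, hn⟩ := hu3 q ⟨q, hq, hs, hχ, rfl⟩
    rw [← hqe n] at hn
    have hn' : q ≤ qq n := by exact_mod_cast hn
    refine (var_le (qq n) (hqq n) (ae_fin _ _ (hqs n)) k (hk n).ne m p hp
      (fun i => (hpq i).trans hn')).trans (le_iSup (fun n => VV d (qq n) k) n)

/-- the mean of the square root of the size of the cluster -/
noncomputable def ms (d : ℕ) (q : NNReal) (hq : q ≤ 1) : ℝ :=
  (∫⁻ ω, sq ω ∂(P d q hq)).toReal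

theorem sq_le (q : NNReal) (hq : q ≤ 1) (hs : Summable (tau d q hq)) :
    (∫⁻ ω, sq ω ∂(P d q hq)) ^ 2 ≤ ENNReal.ofReal (chi d q hq) := by
  have hfin := ae_fin q hq hs
  have htau : tauf d q hq = tau d q hq := funext (tauf_eq q hq hfin)
  obtain ⟨hi, hI⟩ := card_int q hq (by rw [htau]; exact hs)
  rw [htau] at hI
  rw [← lint_conf q hq sq sq_meas]
  refine (lint_sq_le (LU d) _ (sq_meas.comp (meas_conf q))).trans ?_
  have h1 : ∀ U : (Fin d → ℤ) × Fin d → unitInterval, sq (conf q U) ^ 2 =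
      ENNReal.ofReal ((cf (conf (q : ℝ) U)).card : ℝ) := by
    intro U
    unfold sq
    rw [← ENNReal.ofReal_pow (Real.sqrt_nonneg _), Real.sq_sqrt (Nat.cast_nonneg _)]
  refine (le_of_eq (lintegral_congr h1)).trans ?_
  rw [lint_conf q hq (fun ω => ENNReal.ofReal ((cf ω).card : ℝ)) card_meas.ennreal_ofReal,
    ← ofReal_integral_eq_lintegral_ofReal hi (Eventually.of_forall fun ω => Nat.cast_nonneg _), hI]
  rfl

theorem sq_fin (q : NNReal) (hq : q ≤ 1) (hs : Summable (tau d q hq)) :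
    ∫⁻ ω, sq ω ∂(P d q hq) ≠ ⊤ := by
  intro h
  have h1 := sq_le q hq hs
  rw [h, ENNReal.top_pow two_ne_zero, top_le_iff] at h1
  exact ENNReal.ofReal_ne_top h1

theorem ms_ge (q : NNReal) (hq : q ≤ 1) (hs : Summable (tau d q hq)) : 1 ≤ ms d q hq := by
  have h1 : (1 : ENNReal) ≤ ∫⁻ ω, sq ω ∂(P d q hq) := by
    calc (1 : ENNReal) = ∫⁻ _ω, 1 ∂(P d q hq) := by simp
      _ ≤ _ := by
        refine lintegral_mono_ae ?_
        filter_upwards [ae_fin q hq hs] with ω hω
        unfold sq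
        rw [← ENNReal.ofReal_one]
        refine ENNReal.ofReal_le_ofReal (Real.one_le_sqrt.2 ?_)
        exact_mod_cast Finset.card_pos.2 ⟨0, (mem_cf _ _).2 ⟨hω, zero_mem_cl _⟩⟩
  unfold ms
  rw [← ENNReal.toReal_one]
  exact ENNReal.toReal_mono (sq_fin q hq hs) h1

theorem ms_le (q : NNReal) (hq : q ≤ 1) (hs : Summable (tau d q hq)) :
    ms d q hq ≤ Real.sqrt (chi d q hq) := by
  refine Real.le_sqrt_of_sq_le ?_
  have h1 := ENNReal.toReal_mono ENNReal.ofReal_ne_top (sq_le q hq hs)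
  rw [ENNReal.toReal_pow, ENNReal.toReal_ofReal (by linarith [chi_ge q hq hs])] at h1
  exact h1

theorem summable_mono (p q : NNReal) (hp : p ≤ 1) (hq : q ≤ 1) (h : p ≤ q)
    (hs : Summable (tau d q hq)) : Summable (tau d p hp) :=
  Summable.of_nonneg_of_le (fun x => tau_nonneg p hp x) (fun x => tau_mono p q hp hq h x) hs

/-- the variation of the two-point function -/
theorem dl_hat (p q : NNReal) (hp : p ≤ 1) (hq : q ≤ 1) (hsp : Summable (tau d p hp))
    (hsq : Summable (tau d q hq)) (k : Fin d → ℝ) : dl (ff d p k) (ff d q k) =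
      ENNReal.ofReal |(∑' x, tau d q hq x * Real.cos (dot k x)) -
        ∑' x, tau d p hp x * Real.cos (dot k x)| := by
  rw [ff_dens p hp, ff_dens q hq, dens_eq p hp hsp, dens_eq q hq hsq,
    dl_ofReal (hat_nonneg p hp hsp k) (hat_nonneg q hq hsq k), abs_sub_comm]

/-- the growth of the variation for almost every wave vector -/
theorem ae_var : ∀ᵐ k : Fin d → ℝ ∂(volume.restrict (cube d)), ∃ C : ℝ,
    ∀ (q : NNReal) (hq : q ≤ 1), Summable (tau d q hq) → ∀ (m : ℕ) (p : ℕ → NNReal)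
      (hp : ∀ i, p i ≤ 1), Monotone p → (∀ i, p i ≤ q) →
      ∑ i ∈ Finset.range m, |(∑' x, tau d (p (i + 1)) (hp (i + 1)) x * Real.cos (dot k x)) -
        ∑' x, tau d (p i) (hp i) x * Real.cos (dot k x)| ≤
        C * (ms d q hq * (1 + Real.log (ms d q hq)) ^ 2) := by
  have hXj : ∀ j : ℕ, (1 : ℝ) ≤ 2 ^ j := fun j => one_le_pow₀ (by norm_num)
  choose V hV1 hV2 hV3 using fun j : ℕ => sup_var (d := d) (2 ^ j) (hXj j)
  set w : ℕ → ENNReal := fun j => ENNReal.ofReal (1 / (2 ^ j * ((j : ℝ) + 1) ^ 2)) with hw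
  have h1 : ∫⁻ k in cube d, ∑' j, w j * V j k ≠ ⊤ := by
    rw [lintegral_tsum (fun j => ((hV1 j).const_mul _).aemeasurable)]
    have h2 : ∀ j, ∫⁻ k in cube d, w j * V j k ≤
        ENNReal.ofReal (4 * (2 * Real.pi) ^ d * (1 / ((j : ℝ) + 1) ^ 2)) := by
      intro j
      rw [lintegral_const_mul _ (hV1 j)]
      refine (mul_le_mul_right (hV2 j) _).trans ?_
      rw [hw, ← ENNReal.ofReal_mul (by positivity)]
      exact ENNReal.ofReal_le_ofReal (le_of_eq (by field_simp))
    have hsum : Summable fun j : ℕ => 4 * (2 * Real.pi) ^ d * (1 / ((j : ℝ) + 1) ^ 2) := by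
      refine Summable.mul_left _ ?_
      have := (summable_nat_add_iff 1).2 (Real.summable_one_div_nat_pow.2 (by norm_num : 1 < 2))
      simpa using this
    refine ne_top_of_le_ne_top ?_ (ENNReal.tsum_le_tsum h2)
    rw [← ENNReal.ofReal_tsum_of_nonneg (fun j => by positivity) hsum]
    exact ENNReal.ofReal_ne_top
  have h2 := ae_lt_top (Measurable.ennreal_tsum fun j => (hV1 j).const_mul (w j)) h1
  filter_upwards [h2, ae_all_iff.2 hV3] with k hk hV
  set C := (∑' j, w j * V j k).toReal with hC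
  have hC0 : 0 ≤ C := ENNReal.toReal_nonneg
  have h3 : ∀ j, V j k ≤ ENNReal.ofReal (C * (2 ^ j * ((j : ℝ) + 1) ^ 2)) := by
    intro j
    have h4 : w j * V j k ≤ ENNReal.ofReal C := by
      rw [hC, ENNReal.ofReal_toReal hk.ne]
      exact ENNReal.le_tsum j
    have h5 : w j ≠ 0 := by
      rw [hw]
      simp only [ne_eq, ENNReal.ofReal_eq_zero, not_le]
      positivity
    have h6 : w j ≠ ⊤ := ENNReal.ofReal_ne_top
    have h7 : V j k ≤ ENNReal.ofReal C / w j := by
      rw [ENNReal.le_div_iff_mul_le (Or.inl h5) (Or.inl h6), mul_comm]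
      exact h4
    refine h7.trans ?_
    rw [hw, ← ENNReal.ofReal_div_of_pos (by positivity)]
    exact ENNReal.ofReal_le_ofReal (le_of_eq (by field_simp))
  refine ⟨C * 8, fun q hq hs m p hp hmono hpq => ?_⟩
  have hM1 := ms_ge q hq hs
  set M := ms d q hq with hM
  have hl0 : 0 ≤ Real.log M := Real.log_nonneg hM1
  classical
  have hex : ∃ j : ℕ, M ≤ (2 : ℝ) ^ j := by
    obtain ⟨j, hj⟩ := pow_unbounded_of_one_lt M (by norm_num : (1 : ℝ) < 2)
    exact ⟨j, hj.le⟩
  set j := Nat.find hex with hj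
  have hj1 : M ≤ (2 : ℝ) ^ j := Nat.find_spec hex
  have hmj : ∫⁻ ω, sq ω ∂(P d q hq) ≤ ENNReal.ofReal (2 ^ j) := by
    rw [← ENNReal.ofReal_toReal (sq_fin q hq hs)]
    exact ENNReal.ofReal_le_ofReal hj1
  have h4 := (hV j q hq hs hmj m p hmono hpq).trans (h3 j)
  have hsp : ∀ i, Summable (tau d (p i) (hp i)) := fun i => summable_mono _ q _ hq (hpq i) hs
  simp_rw [fun i => dl_hat (p i) (p (i + 1)) (hp i) (hp (i + 1)) (hsp i) (hsp (i + 1)) k] at h4
  rw [← ENNReal.ofReal_sum_of_nonneg (fun i _ => abs_nonneg _)] at h4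
  have h5 := (ENNReal.ofReal_le_ofReal_iff (by positivity)).1 h4
  refine h5.trans ?_
  rw [mul_assoc C 8]
  refine mul_le_mul_of_nonneg_left ?_ hC0
  rcases Nat.eq_zero_or_pos j with h0 | h0
  · rw [h0]
    have h7 : 1 ≤ (1 + Real.log M) ^ 2 := one_le_pow₀ (by linarith)
    have h8 : 1 ≤ M * (1 + Real.log M) ^ 2 := by nlinarith
    simp only [pow_zero, Nat.cast_zero, zero_add, one_pow, mul_one]
    linarith
  · obtain ⟨i, hi⟩ : ∃ i, j = i + 1 := ⟨j - 1, by omega⟩
    have hlt : (2 : ℝ) ^ i < M := by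
      have := Nat.find_min hex (m := i) (by omega)
      exact not_le.1 this
    have h6 : (2 : ℝ) ^ j ≤ 2 * M := by
      rw [hi, pow_succ]; linarith
    have h7 : (j : ℝ) + 1 ≤ 2 * (1 + Real.log M) := by
      have h8 : Real.log ((2 : ℝ) ^ i) ≤ Real.log M :=
        Real.log_le_log (by positivity) hlt.le
      rw [Real.log_pow] at h8
      have h9 : (1 : ℝ) / 2 ≤ Real.log 2 := by linarith [Real.log_two_gt_d9]
      have h10 : (0 : ℝ) ≤ i := Nat.cast_nonneg i
      rw [hi]; push_cast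
      nlinarith
    have h8 : ((j : ℝ) + 1) ^ 2 ≤ (2 * (1 + Real.log M)) ^ 2 :=
      pow_le_pow_left₀ (by positivity) h7 2
    calc (2 : ℝ) ^ j * ((j : ℝ) + 1) ^ 2 ≤ (2 * M) * (2 * (1 + Real.log M)) ^ 2 := by
          gcongr
      _ = 8 * (M * (1 + Real.log M) ^ 2) := by ring

end Pool.Agent.J4.H67.PC
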