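import Pool.Agent.J4.H67.PC.Mt

/-!
The modulus of continuity in mean of the spectral densities in the parameter.
-/

set_option autoImplicit false
set_option linter.deprecated false

namespace Pool.Agent.J4.H67.PC

open MeasureTheory Filter Topology
open Pool.Agent.Results.MP_54f242_pr.InfraredMean

variable {d : ℕ}

theorem comp_joint {α β γ δ : Type*} [MeasurableSpace α] [MeasurableSpace β] [MeasurableSpace γ]
    [MeasurableSpace δ] {F : β → γ → δ} (hF : Measurable (fun z : β × γ => F z.1 z.2))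
    {g : α → β} (hg : Measurable g) : Measurable (fun z : α × γ => F (g z.1) z.2) :=
  hF.comp ((hg.comp measurable_fst).prodMk measurable_snd)

theorem comp_left {β γ δ : Type*} [MeasurableSpace β] [MeasurableSpace γ]
    [MeasurableSpace δ] {F : β → γ → δ} (hF : Measurable (fun z : β × γ => F z.1 z.2)) (k : γ) :
    Measurable (fun U : β => F U k) :=
  hF.comp measurable_prodMk_right

theorem real_ln (c I n m S L l2 : ℝ) (hc : 0 < c) (hn : 0 < n) (hI0 : 0 ≤ I)
    (hI : I ≤ 4 * c * Real.sqrt (n * (n - m))) (hmn : m ≤ n) (hl : 0 < l2)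
    (hent : l2 * (n - m) ≤ n * L - S) : l2 / (16 * c ^ 2) * (I / n) ^ 2 + S / n ≤ L := by
  have h5 : 0 ≤ n * (n - m) := mul_nonneg hn.le (by linarith)
  have h4 : I ^ 2 ≤ 16 * c ^ 2 * (n * (n - m)) := by
    calc I ^ 2 ≤ (4 * c * Real.sqrt (n * (n - m))) ^ 2 := pow_le_pow_left₀ hI0 hI 2
      _ = 16 * c ^ 2 * (n * (n - m)) := by rw [mul_pow, Real.sq_sqrt h5]; ring
  have h6 : l2 / (16 * c ^ 2) * (I / n) ^ 2 ≤ l2 * (n - m) / n := by
    calc l2 / (16 * c ^ 2) * (I / n) ^ 2 = l2 / (16 * c ^ 2 * n ^ 2) * I ^ 2 := by field_simp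
      _ ≤ l2 / (16 * c ^ 2 * n ^ 2) * (16 * c ^ 2 * (n * (n - m))) := by gcongr
      _ = l2 * (n - m) / n := by field_simp
  have h7 := div_le_div_of_nonneg_right hent hn.le
  have h8 : (n * L - S) / n = L - S / n := by field_simp
  rw [h8] at h7
  linarith

theorem real_sq (c I n S L T : ℝ) (hn : 0 < n) (hL : T = n * L)
    (hI : I ≤ 4 * c * (T - S)) : I / n + 4 * c * (S / n) ≤ 4 * c * L := by
  have h7 := div_le_div_of_nonneg_right hI hn.le
  have h8 : 4 * c * (T - S) / n = 4 * c * L - 4 * c * (S / n) := by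
    rw [hL]; field_simp
  rw [h8] at h7
  linarith

/-- averages of translation invariant functions of the smaller clusters -/
theorem avg_eq {p q : ℝ} (h : p ≤ q) (U : (Fin d → ℤ) × Fin d → unitInterval)
    (g : Finset (Fin d → ℤ) → ℝ) (hg : ∀ A u, g (A.map (addRightEmbedding u)) = g A)
    (hg0 : ∀ A, 0 ≤ g A) (hf : (cl (conf q U)).Finite) :
    avg q (fun U' => ENNReal.ofReal (g (cf (conf p U')))) U =
      ENNReal.ofReal ((∑ A ∈ parts (conf p U) (cf (conf q U)), (A.card : ℝ) * g A) /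
        (cf (conf q U)).card) := by
  have h0 : (0 : ℝ) < (cf (conf q U)).card := by
    exact_mod_cast Finset.card_pos.2 ⟨0, (mem_cf _ _).2 ⟨hf, zero_mem_cl _⟩⟩
  unfold avg
  rw [← ENNReal.ofReal_sum_of_nonneg (fun x _ => hg0 _), sum_shift h U g hg,
    ENNReal.ofReal_div_of_pos h0, ENNReal.ofReal_natCast]

/-- the density at the larger parameter -/
noncomputable def aa (q : ℝ) (U : (Fin d → ℤ) × Fin d → unitInterval) (k : Fin d → ℝ) : ENNReal :=
  FF (cf (conf q U)) k

/-- the density at the smaller parameter, averaged over the cluster at the larger parameter -/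
noncomputable def bb (p q : ℝ) (U : (Fin d → ℤ) × Fin d → unitInterval) (k : Fin d → ℝ) : ENNReal :=
  avg q (fun U' => FF (cf (conf p U')) k) U

/-- the difference -/
noncomputable def dd (p q : ℝ) (U : (Fin d → ℤ) × Fin d → unitInterval) (k : Fin d → ℝ) : ENNReal :=
  (aa q U k - bb p q U k) + (bb p q U k - aa q U k)

theorem aa_meas (q : ℝ) : Measurable
    (fun z : ((Fin d → ℤ) × Fin d → unitInterval) × (Fin d → ℝ) => aa q z.1 z.2) := meas_joint q

theorem bb_meas (p q : ℝ) : Measurable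
    (fun z : ((Fin d → ℤ) × Fin d → unitInterval) × (Fin d → ℝ) => bb p q z.1 z.2) := by
  have h1 : (fun z : ((Fin d → ℤ) × Fin d → unitInterval) × (Fin d → ℝ) => bb p q z.1 z.2) =
      fun z => ∑' x, wt x (conf q z.1) * FF (cf (conf p (shU x z.1))) z.2 := by
    funext z
    exact (tsum_wt _ _).symm
  rw [h1]
  refine Measurable.ennreal_tsum fun x => Measurable.mul ?_ ?_
  · exact ((wt_meas x).comp (meas_conf q)).comp measurable_fst
  · exact comp_joint (F := fun U k => FF (cf (conf p U)) k) (meas_joint (d := d) p) (meas_shU x)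

theorem dd_meas (p q : ℝ) : Measurable
    (fun z : ((Fin d → ℤ) × Fin d → unitInterval) × (Fin d → ℝ) => dd p q z.1 z.2) := by
  unfold dd
  exact ((aa_meas q).sub (bb_meas p q)).add ((bb_meas p q).sub (aa_meas q))

theorem le_dd (p q : ℝ) (U : (Fin d → ℤ) × Fin d → unitInterval) (k : Fin d → ℝ) :
    aa q U k ≤ bb p q U k + dd p q U k ∧ bb p q U k ≤ aa q U k + dd p q U k := by
  unfold dd
  constructor
  · calc aa q U k ≤ bb p q U k + (aa q U k - bb p q U k) := le_add_tsub
      _ ≤ _ := by gcongr; exact le_self_add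
  · calc bb p q U k ≤ aa q U k + (bb p q U k - aa q U k) := le_add_tsub
      _ ≤ _ := by gcongr; exact le_add_self

theorem bb_eq {p q : ℝ} (h : p ≤ q) (U : (Fin d → ℤ) × Fin d → unitInterval)
    (hf : (cl (conf q U)).Finite) (k : Fin d → ℝ) :
    bb p q U k = ENNReal.ofReal ((∑ A ∈ parts (conf p U) (cf (conf q U)), ps A k) /
        (cf (conf q U)).card) := by
  have h1 := avg_eq h U (fun A => ps A k / A.card) (fun A u => by
    rw [ps_map, Finset.card_map]) (fun A => ps_div_nonneg A k) hf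
  unfold bb FF
  rw [h1]
  congr 2
  refine Finset.sum_congr rfl fun A hA => ?_
  have hne : (A.card : ℝ) ≠ 0 := by
    classical
    unfold parts at hA
    obtain ⟨x, hx, rfl⟩ := Finset.mem_image.1 hA
    have : 0 < (part (conf p U) (cf (conf q U)) x).card :=
      Finset.card_pos.2 ⟨x, (mem_part _ _ _ _).2 ⟨hx, SimpleGraph.Reachable.refl _⟩⟩
    positivity
  field_simp

theorem ofReal_abs_sub (a b : ℝ) (ha : 0 ≤ a) (hb : 0 ≤ b) :
    (ENNReal.ofReal a - ENNReal.ofReal b) + (ENNReal.ofReal b - ENNReal.ofReal a) =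
      ENNReal.ofReal |a - b| := by
  rw [← ENNReal.ofReal_sub _ hb, ← ENNReal.ofReal_sub _ ha]
  rcases le_total a b with h | h
  · rw [ENNReal.ofReal_of_nonpos (by linarith : a - b ≤ 0), zero_add, abs_of_nonpos (by linarith)]
    congr 1; ring
  · rw [ENNReal.ofReal_of_nonpos (by linarith : b - a ≤ 0), add_zero, abs_of_nonneg (by linarith)]

theorem dd_eq {p q : ℝ} (h : p ≤ q) (U : (Fin d → ℤ) × Fin d → unitInterval)
    (hf : (cl (conf q U)).Finite) (k : Fin d → ℝ) :
    dd p q U k = ENNReal.ofReal (|ps (cf (conf q U)) k -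
      ∑ A ∈ parts (conf p U) (cf (conf q U)), ps A k| / (cf (conf q U)).card) := by
  have h0 : (0 : ℝ) < (cf (conf q U)).card := by
    exact_mod_cast Finset.card_pos.2 ⟨0, (mem_cf _ _).2 ⟨hf, zero_mem_cl _⟩⟩
  unfold dd
  rw [bb_eq h U hf]
  unfold aa FF
  rw [ofReal_abs_sub _ _ (ps_div_nonneg _ _)
    (div_nonneg (Finset.sum_nonneg fun A _ => ps_nonneg A k) h0.le), ← sub_div, abs_div,
    abs_of_pos h0]

/-- the mean of the difference over the wave vectors -/
theorem int_dd {p q : ℝ} (h : p ≤ q) (U : (Fin d → ℤ) × Fin d → unitInterval)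
    (hf : (cl (conf q U)).Finite) :
    ∫⁻ k in cube d, dd p q U k = ENNReal.ofReal ((∫ k in cube d, |ps (cf (conf q U)) k -
      ∑ A ∈ parts (conf p U) (cf (conf q U)), ps A k|) / (cf (conf q U)).card) := by
  simp_rw [dd_eq h U hf]
  rw [← ofReal_integral_eq_lintegral_ofReal]
  · rw [integral_div]
  · refine Integrable.div_const ?_ _
    exact integrable_of_cont ((ps_cont _).sub (continuous_finset_sum _ fun A _ => ps_cont A)).abs
  · exact Eventually.of_forall fun k => by positivity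

/-- the square root of the size of the cluster -/
noncomputable def sq (ω : (Fin d → ℤ) × Fin d → Bool) : ENNReal :=
  ENNReal.ofReal (Real.sqrt (cf ω).card)

/-- the logarithm of the size of the cluster -/
noncomputable def ln (ω : (Fin d → ℤ) × Fin d → Bool) : ENNReal :=
  ENNReal.ofReal (Real.log (cf ω).card)

theorem sq_meas : Measurable (sq (d := d)) :=
  (measurable_of_countable (fun A : Finset (Fin d → ℤ) => ENNReal.ofReal (Real.sqrt A.card))).comp
    meas_cf

theorem ln_meas : Measurable (ln (d := d)) :=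
  (measurable_of_countable (fun A : Finset (Fin d → ℤ) => ENNReal.ofReal (Real.log A.card))).comp
    meas_cf

theorem point_sq {p q : ℝ} (h : p ≤ q) (U : (Fin d → ℤ) × Fin d → unitInterval)
    (hf : (cl (conf q U)).Finite) :
    (∫⁻ k in cube d, dd p q U k) + ENNReal.ofReal (4 * (2 * Real.pi) ^ d) *
        avg q (fun U' => sq (conf p U')) U ≤
      ENNReal.ofReal (4 * (2 * Real.pi) ^ d) * sq (conf q U) := by
  have h0 : (0 : ℝ) < (cf (conf q U)).card := by
    exact_mod_cast Finset.card_pos.2 ⟨0, (mem_cf _ _).2 ⟨hf, zero_mem_cl _⟩⟩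
  have h1 := avg_eq h U (fun A => Real.sqrt A.card) (fun A u => by rw [Finset.card_map])
    (fun A => Real.sqrt_nonneg _) hf
  have h2 := merge_th (parts (conf p U) (cf (conf q U))) (parts_disjoint _ _)
  rw [parts_union] at h2
  have hS : 0 ≤ ∑ A ∈ parts (conf p U) (cf (conf q U)), (A.card : ℝ) * Real.sqrt A.card :=
      Finset.sum_nonneg fun A _ => by positivity
  have hI : 0 ≤ ∫ k in cube d, |ps (cf (conf q U)) k -
      ∑ A ∈ parts (conf p U) (cf (conf q U)), ps A k| := integral_nonneg fun k => abs_nonneg _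
  unfold th at h2
  have h3 := real_sq ((2 * Real.pi) ^ d) _ _ _ (Real.sqrt (cf (conf q U)).card) _ h0 rfl h2
  unfold sq
  rw [h1, int_dd h U hf, ← ENNReal.ofReal_mul (by positivity), ← ENNReal.ofReal_mul (by positivity),
    ← ENNReal.ofReal_add (div_nonneg hI h0.le)
      (mul_nonneg (by positivity) (div_nonneg hS h0.le))]
  exact ENNReal.ofReal_le_ofReal h3

theorem point_ln {p q : ℝ} (h : p ≤ q) (U : (Fin d → ℤ) × Fin d → unitInterval)
    (hf : (cl (conf q U)).Finite) :
    ENNReal.ofReal (Real.log 2 / (16 * ((2 * Real.pi) ^ d) ^ 2)) *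
        (∫⁻ k in cube d, dd p q U k) ^ 2 + avg q (fun U' => ln (conf p U')) U ≤
      ln (conf q U) := by
  classical
  have h0 : (0 : ℝ) < (cf (conf q U)).card := by
    exact_mod_cast Finset.card_pos.2 ⟨0, (mem_cf _ _).2 ⟨hf, zero_mem_cl _⟩⟩
  have h1 := avg_eq h U (fun A => Real.log A.card) (fun A u => by rw [Finset.card_map])
    (fun A => Real.log_natCast_nonneg _) hf
  have hne : (parts (conf p U) (cf (conf q U))).Nonempty := by
    unfold parts
    exact ⟨_, Finset.mem_image_of_mem _ ((mem_cf _ _).2 ⟨hf, zero_mem_cl _⟩)⟩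
  obtain ⟨M, hM, hmax⟩ := Finset.exists_max_image (parts (conf p U) (cf (conf q U)))
    (fun A => A.card) hne
  have h2 := merge_max _ (parts_disjoint (conf p U) (cf (conf q U))) M hM
  have h3 := entropy _ (parts_disjoint (conf p U) (cf (conf q U))) M hM hmax
  rw [parts_union] at h2 h3
  have hI0 : 0 ≤ ∫ k in cube d, |ps (cf (conf q U)) k -
      ∑ A ∈ parts (conf p U) (cf (conf q U)), ps A k| := integral_nonneg fun k => abs_nonneg _
  have hpi : (0 : ℝ) < (2 * Real.pi) ^ d := by positivity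
  have hl2 : 0 < Real.log 2 := Real.log_pos (by norm_num)
  have hlog0 : 0 ≤ ∑ A ∈ parts (conf p U) (cf (conf q U)), (A.card : ℝ) * Real.log A.card :=
    Finset.sum_nonneg fun A _ => mul_nonneg (Nat.cast_nonneg _) (Real.log_natCast_nonneg _)
  have hMC : (M.card : ℝ) ≤ (cf (conf q U)).card := by
    have h4 : M ⊆ cf (conf q U) := by
      intro x hx
      have : x ∈ (parts (conf p U) (cf (conf q U))).biUnion id :=
        Finset.mem_biUnion.2 ⟨M, hM, hx⟩
      rw [parts_union] at this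
      exact this
    exact_mod_cast Finset.card_le_card h4
  have h5 := real_ln ((2 * Real.pi) ^ d) _ _ _ _ _ _ hpi h0 hI0 h2 hMC hl2 h3
  unfold ln
  rw [h1, int_dd h U hf, ← ENNReal.ofReal_pow (div_nonneg hI0 h0.le),
    ← ENNReal.ofReal_mul (div_nonneg hl2.le (by positivity)),
    ← ENNReal.ofReal_add (mul_nonneg (div_nonneg hl2.le (by positivity)) (by positivity))
      (div_nonneg hlog0 h0.le)]
  exact ENNReal.ofReal_le_ofReal h5

/-- the difference of the densities -/
noncomputable def DD (d : ℕ) (p q : ℝ) (k : Fin d → ℝ) : ENNReal := ∫⁻ U, dd p q U k ∂(LU d)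

theorem DD_meas (p q : ℝ) : Measurable (DD d p q) := by
  unfold DD
  exact (dd_meas (d := d) p q).lintegral_prod_left'

theorem dens_DD (p q : NNReal) (hp : p ≤ 1) (hq : q ≤ 1)
    (hf : ∀ᵐ ω ∂(P d q hq), (cl ω).Finite) (k : Fin d → ℝ) :
    dens d q hq k ≤ dens d p hp k + DD d p q k ∧ dens d p hp k ≤ dens d q hq k + DD d p q k := by
  have hm : ∀ s : ℝ, Measurable fun U : (Fin d → ℤ) × Fin d → unitInterval => FF (cf (conf s U)) k := by
    intro s
    exact (measurable_of_countable (fun A : Finset (Fin d → ℤ) => FF A k)).comp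
      (meas_cf.comp (meas_conf s))
  have h1 : dens d p hp k = ∫⁻ U, bb p q U k ∂(LU d) := by
    rw [dens_U]
    exact (lint_avg q (fun U => FF (cf (conf p U)) k) (hm p) (fin_U q hq hf)).symm
  have h2 : dens d q hq k = ∫⁻ U, aa q U k ∂(LU d) := dens_U q hq k
  have hma : Measurable fun U => aa (q : ℝ) U k := hm q
  have hmb : Measurable fun U => bb (p : ℝ) q U k := comp_left (bb_meas (d := d) p q) k
  rw [h1, h2]
  unfold DD
  constructor
  · rw [← lintegral_add_left hmb]
    exact lintegral_mono fun U => (le_dd _ _ U k).1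
  · rw [← lintegral_add_left hma]
    exact lintegral_mono fun U => (le_dd _ _ U k).2

theorem int_DD (p q : ℝ) : ∫⁻ k in cube d, DD d p q k =
    ∫⁻ U, (∫⁻ k in cube d, dd p q U k) ∂(LU d) := by
  unfold DD
  refine lintegral_lintegral_swap (f := fun (k : Fin d → ℝ)
      (U : (Fin d → ℤ) × Fin d → unitInterval) => dd p q U k) ?_
  exact ((dd_meas (d := d) p q).comp measurable_swap).aemeasurable

theorem inner_meas (p q : ℝ) : Measurable fun U : (Fin d → ℤ) × Fin d → unitInterval =>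
    ∫⁻ k in cube d, dd p q U k := by
  exact (dd_meas (d := d) p q).lintegral_prod_right'

/-- the mean of a function of the cluster -/
theorem lint_conf (p : NNReal) (hp : p ≤ 1) (g : ((Fin d → ℤ) × Fin d → Bool) → ENNReal)
    (hg : Measurable g) : ∫⁻ U, g (conf p U) ∂(LU d) = ∫⁻ ω, g ω ∂(P d p hp) := by
  rw [← map_conf p hp, lintegral_map hg (meas_conf p)]

/-- the first modulus -/
theorem modulus_sq (p q : NNReal) (hp : p ≤ 1) (hq : q ≤ 1) (h : p ≤ q)
    (hf : ∀ᵐ ω ∂(P d q hq), (cl ω).Finite) :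
    (∫⁻ k in cube d, DD d p q k) + ENNReal.ofReal (4 * (2 * Real.pi) ^ d) *
        ∫⁻ ω, sq ω ∂(P d p hp) ≤
      ENNReal.ofReal (4 * (2 * Real.pi) ^ d) * ∫⁻ ω, sq ω ∂(P d q hq) := by
  have hm : ∀ r : ℝ, Measurable fun U : (Fin d → ℤ) × Fin d → unitInterval => sq (conf r U) :=
    fun r => sq_meas.comp (meas_conf r)
  have hpq : (p : ℝ) ≤ q := by exact_mod_cast h
  rw [int_DD, ← lint_conf p hp sq sq_meas, ← lint_conf q hq sq sq_meas,
    ← lint_avg q (fun U => sq (conf p U)) (hm p) (fin_U q hq hf),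
    ← lintegral_const_mul' _ _ ENNReal.ofReal_ne_top,
    ← lintegral_const_mul' _ _ ENNReal.ofReal_ne_top, ← lintegral_add_left (inner_meas _ _)]
  refine lintegral_mono_ae ?_
  filter_upwards [fin_U q hq hf] with U hU
  exact point_sq hpq U hU

theorem lint_sq_le (μ : Measure ((Fin d → ℤ) × Fin d → unitInterval)) [IsProbabilityMeasure μ]
    (f : ((Fin d → ℤ) × Fin d → unitInterval) → ENNReal) (hf : Measurable f) :
    (∫⁻ U, f U ∂μ) ^ 2 ≤ ∫⁻ U, f U ^ 2 ∂μ := by
  have h1 := ENNReal.lintegral_mul_le_Lp_mul_Lq μ Real.HolderConjugate.two_two hf.aemeasurable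
    (g := fun _ => 1) measurable_const.aemeasurable
  simp only [Pi.mul_apply, mul_one, ENNReal.one_rpow, lintegral_const, measure_univ] at h1
  have h2 : ∫⁻ U, f U ^ (2 : ℝ) ∂μ = ∫⁻ U, f U ^ 2 ∂μ := by
    refine lintegral_congr fun U => ?_
    exact ENNReal.rpow_ofNat _ _
  rw [h2] at h1
  calc (∫⁻ U, f U ∂μ) ^ 2 ≤ ((∫⁻ U, f U ^ 2 ∂μ) ^ (1 / 2 : ℝ)) ^ 2 := by gcongr
    _ = ∫⁻ U, f U ^ 2 ∂μ := by
        rw [← ENNReal.rpow_ofNat, ← ENNReal.rpow_mul]
        norm_num

/-- the second modulus -/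
theorem modulus_ln (p q : NNReal) (hp : p ≤ 1) (hq : q ≤ 1) (h : p ≤ q)
    (hf : ∀ᵐ ω ∂(P d q hq), (cl ω).Finite) :
    ENNReal.ofReal (Real.log 2 / (16 * ((2 * Real.pi) ^ d) ^ 2)) *
        (∫⁻ k in cube d, DD d p q k) ^ 2 + ∫⁻ ω, ln ω ∂(P d p hp) ≤ ∫⁻ ω, ln ω ∂(P d q hq) := by
  have hm : ∀ r : ℝ, Measurable fun U : (Fin d → ℤ) × Fin d → unitInterval => ln (conf r U) :=
    fun r => ln_meas.comp (meas_conf r)
  have hpq : (p : ℝ) ≤ q := by exact_mod_cast h
  have h1 : (∫⁻ k in cube d, DD d p q k) ^ 2 ≤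
      ∫⁻ U, (∫⁻ k in cube d, dd p q U k) ^ 2 ∂(LU d) := by
    rw [int_DD]
    exact lint_sq_le (LU d) _ (inner_meas _ _)
  refine (add_le_add_left (mul_le_mul_right h1 _) _).trans ?_
  rw [← lint_conf p hp ln ln_meas, ← lint_conf q hq ln ln_meas,
    ← lint_avg q (fun U => ln (conf p U)) (hm p) (fin_U q hq hf),
    ← lintegral_const_mul' _ _ ENNReal.ofReal_ne_top,
    ← lintegral_add_left (((inner_meas _ _).pow_const 2).const_mul _)]
  refine lintegral_mono_ae ?_
  filter_upwards [fin_U q hq hf] with U hU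
  exact point_ln hpq U hU

end Pool.Agent.J4.H67.PC
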